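import Pool.Agent.AA.Defs2

/-!
# A lower bound for the number of small integers

Blichfeldt's theorem for the lattice of integers of a number field.
-/

set_option autoImplicit false

open Polynomial NumberField IntermediateField Module
open MeasureTheory NumberField.mixedEmbedding NumberField.InfinitePlace
open scoped ENNReal NNReal

namespace Pool.Agent.AA

private theorem blich_finite (K : Type) [Field K] [NumberField K] (R : ℝ) :
    (small K R).Finite := by
  have h := NumberField.Embeddings.finite_of_norm_le K ℂ R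
  refine Set.Finite.of_finite_image (f := fun a : 𝓞 K => (a : K)) (h.subset ?_)
    (fun a _ b _ hab => RingOfIntegers.coe_injective hab)
  rintro _ ⟨a, ha, rfl⟩
  refine ⟨a.2, fun φ => ?_⟩
  have := ha (InfinitePlace.mk φ)
  rw [InfinitePlace.apply] at this
  exact this.le

private theorem sub_mem_body (K : Type) [Field K] [NumberField K] (s t : ℝ≥0)
    (x y : mixedSpace K) (hx : x ∈ convexBodyLT K (fun _ => s))
    (hy : y ∈ convexBodyLT K (fun _ => t)) : x - y ∈ convexBodyLT K (fun _ => s + t) := by
  simp only [Set.mem_prod, Set.mem_pi, Set.mem_univ, Metric.mem_ball, dist_zero_right,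
    forall_true_left, Prod.fst_sub, Prod.snd_sub, Pi.sub_apply, NNReal.coe_add] at hx hy ⊢
  exact ⟨fun w => (norm_sub_le _ _).trans_lt (add_lt_add (hx.1 w) (hy.1 w)),
    fun w => (norm_sub_le _ _).trans_lt (add_lt_add (hx.2 w) (hy.2 w))⟩

/-- the lattice of integers -/
private noncomputable abbrev lat (K : Type) [Field K] [NumberField K] :
    AddSubgroup (mixedSpace K) :=
  (Submodule.span ℤ (Set.range (latticeBasis K))).toAddSubgroup

private theorem encard_le (K : Type) [Field K] [NumberField K] (s : ℝ≥0) (x : mixedSpace K) :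
    {g : lat K | g +ᵥ x ∈ convexBodyLT K (fun _ => s)}.encard ≤
      (small K (s + s)).encard := by
  rcases Set.eq_empty_or_nonempty
    {g : lat K | g +ᵥ x ∈ convexBodyLT K (fun _ => s)} with he | ⟨g₀, hg₀⟩
  · rw [he]; simp
  have hex : ∀ g : lat K, ∃ a : 𝓞 K,
      mixedEmbedding K (a : K) = (g : mixedSpace K) - g₀ := by
    intro g
    have h1 : (g : mixedSpace K) - g₀ ∈ lat K := (g - g₀).2
    rw [Submodule.mem_toAddSubgroup, mem_span_latticeBasis] at h1
    obtain ⟨a, ha⟩ := h1
    exact ⟨a, ha⟩
  choose a ha using hex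
  refine Set.encard_le_encard_of_injOn (f := a) ?_ ?_
  · intro g hg
    have h1 := sub_mem_body K s s _ _ hg hg₀
    have h2 : (g +ᵥ x : mixedSpace K) - (g₀ +ᵥ x) = mixedEmbedding K (a g : K) := by
      rw [ha g]
      change ((g : mixedSpace K) + x) - ((g₀ : mixedSpace K) + x) = _
      abel
    rw [h2] at h1
    have h3 := (convexBodyLT_mem K (fun _ => s + s)).mp h1
    intro w
    simpa using h3 w
  · intro g _ g' _ hgg
    have h1 : mixedEmbedding K (a g : K) = mixedEmbedding K (a g' : K) := by rw [hgg]
    rw [ha, ha, sub_left_inj] at h1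
    exact Subtype.ext h1

open scoped Classical in
private theorem volume_le (K : Type) [Field K] [NumberField K] (s : ℝ≥0) :
    volume (convexBodyLT K (fun _ => s)) ≤ ((small K (s + s)).ncard : ℝ≥0∞) *
      volume (ZSpan.fundamentalDomain (latticeBasis K)) := by
  have hfund := ZSpan.isAddFundamentalDomain' (latticeBasis K) volume
  have hB : MeasurableSet (convexBodyLT K (fun _ => s)) := by
    refine MeasurableSet.prod ?_ ?_
    · exact MeasurableSet.univ_pi fun w => measurableSet_ball
    · exact MeasurableSet.univ_pi fun w => measurableSet_ball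
  have hcount : Countable (lat K) := by
    change Countable (Submodule.span ℤ (Set.range (latticeBasis K)))
    infer_instance
  calc volume (convexBodyLT K (fun _ => s))
      = ∫⁻ x, (convexBodyLT K (fun _ => s)).indicator 1 x := (lintegral_indicator_one hB).symm
    _ = ∑' g : lat K,
        ∫⁻ x in ZSpan.fundamentalDomain (latticeBasis K),
          (convexBodyLT K (fun _ => s)).indicator 1 (g +ᵥ x) := hfund.lintegral_eq_tsum'' _
    _ = ∫⁻ x in ZSpan.fundamentalDomain (latticeBasis K),
        ∑' g : lat K,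
          (convexBodyLT K (fun _ => s)).indicator 1 (g +ᵥ x) := by
        rw [lintegral_tsum]
        intro g
        refine Measurable.aemeasurable ?_
        exact (measurable_one.indicator hB).comp (measurable_const_vadd g)
    _ ≤ ∫⁻ _ in ZSpan.fundamentalDomain (latticeBasis K), ((small K (s + s)).ncard : ℝ≥0∞) := by
        refine lintegral_mono fun x => ?_
        have h1 : ∀ g : lat K,
            (convexBodyLT K (fun _ => s)).indicator (1 : mixedSpace K → ℝ≥0∞) (g +ᵥ x) =
            {g : lat K |
              g +ᵥ x ∈ convexBodyLT K (fun _ => s)}.indicator (fun _ => (1 : ℝ≥0∞)) g := by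
          intro g
          simp only [Set.indicator, Set.mem_ofPred_eq, Pi.one_apply]
        simp_rw [h1]
        rw [← tsum_subtype, ENNReal.tsum_set_one]
        have h2 := encard_le K s x
        rw [← (blich_finite K (s + s)).cast_ncard_eq] at h2
        exact_mod_cast h2
    _ = _ := by rw [setLIntegral_const]

theorem le_card_small (K : Type) [Field K] [NumberField K] (R : ℝ) (hR : 0 < R) :
    (R / 2) ^ finrank ℚ K / Real.sqrt |(discr K : ℝ)| ≤ ((small K R).ncard : ℝ) := by
  classical
  obtain ⟨s, hs⟩ : ∃ s : ℝ≥0, (s : ℝ) = R / 2 := ⟨⟨R / 2, by positivity⟩, rfl⟩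
  have h1 := volume_le K s
  rw [volume_fundamentalDomain_latticeBasis, convexBodyLT_volume, hs, add_halves] at h1
  have hprod : ∏ w : InfinitePlace K, s ^ mult w = s ^ finrank ℚ K := by
    rw [Finset.prod_pow_eq_pow_sum, sum_mult_eq]
  have hge : ((s ^ finrank ℚ K : ℝ≥0) : ℝ≥0∞) ≤
      ((small K R).ncard : ℝ≥0∞) * (NNReal.sqrt ‖discr K‖₊ : ℝ≥0∞) := by
    calc ((s ^ finrank ℚ K : ℝ≥0) : ℝ≥0∞)
        ≤ (convexBodyLTFactor K : ℝ≥0∞) * ((s ^ finrank ℚ K : ℝ≥0) : ℝ≥0∞) := by
          refine le_mul_of_one_le_left (by positivity) ?_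
          exact_mod_cast one_le_convexBodyLTFactor K
      _ ≤ ((small K R).ncard : ℝ≥0∞) * ((2 : ℝ≥0∞)⁻¹ ^ nrComplexPlaces K *
          (NNReal.sqrt ‖discr K‖₊ : ℝ≥0∞)) := by
          rw [← hprod]
          exact_mod_cast h1
      _ ≤ ((small K R).ncard : ℝ≥0∞) * (NNReal.sqrt ‖discr K‖₊ : ℝ≥0∞) := by
          gcongr
          refine mul_le_of_le_one_left (by positivity) ?_
          exact pow_le_one₀ (by positivity) (by simp)
  have hge2 : s ^ finrank ℚ K ≤
      ((small K R).ncard : ℝ≥0) * NNReal.sqrt ‖discr K‖₊ := by exact_mod_cast hge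
  have hge3 : (R / 2) ^ finrank ℚ K ≤ ((small K R).ncard : ℝ) * Real.sqrt |(discr K : ℝ)| := by
    have := NNReal.coe_le_coe.mpr hge2
    rw [← hs]
    simpa [Int.norm_eq_abs] using this
  have hD : 0 < Real.sqrt |(discr K : ℝ)| := by
    refine Real.sqrt_pos.mpr (abs_pos.mpr ?_)
    exact_mod_cast NumberField.discr_ne_zero K
  rw [div_le_iff₀ hD]
  exact hge3

end Pool.Agent.AA
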