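import Pool.Agent.AA.Defs2
import Pool.Agent.RefW.NormProd

/-!
# The number of algebraic integers in a box of archimedean and `p`-adic conjugates
-/

set_option autoImplicit false

open Polynomial NumberField IntermediateField Module

namespace Pool.Agent.AA

/-- one real coordinate for every embedding -/
private noncomputable def coordP {K : Type} [Field K] [NumberField K] (φ : K →+* ℂ) (a : K) : ℝ :=
  open Classical in if φ = (InfinitePlace.mk φ).embedding then (φ a).re else (φ a).im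

private theorem coordP_sub {K : Type} [Field K] [NumberField K] (φ : K →+* ℂ) (a b : K) :
    coordP φ (a - b) = coordP φ a - coordP φ b := by
  unfold coordP
  split_ifs
  · rw [map_sub, Complex.sub_re]
  · rw [map_sub, Complex.sub_im]

private theorem abs_coordP {K : Type} [Field K] [NumberField K] (φ : K →+* ℂ) (a : K) :
    |coordP φ a| ≤ (InfinitePlace.mk φ) a := by
  rw [InfinitePlace.apply]
  unfold coordP
  split_ifs
  · exact Complex.abs_re_le_norm _
  · exact Complex.abs_im_le_norm _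

private theorem lt_of_coordP {K : Type} [Field K] [NumberField K] (a : K)
    (ε : InfinitePlace K → ℝ) (h0 : ∀ w, 0 < ε w)
    (h : ∀ φ : K →+* ℂ, |coordP φ a| < ε (InfinitePlace.mk φ)) (w : InfinitePlace K) :
    w a < Real.sqrt 2 * ε w := by
  classical
  have hre : |(w.embedding a).re| < ε w := by
    have := h w.embedding
    unfold coordP at this
    rwa [InfinitePlace.mk_embedding, if_pos rfl] at this
  have him : |(w.embedding a).im| < ε w := by
    by_cases hw : w.IsReal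
    · have h1 := InfinitePlace.isReal_iff.1 hw
      have h2 : starRingEnd ℂ (w.embedding a) = w.embedding a := by
        have := RingHom.congr_fun h1 a
        rwa [ComplexEmbedding.conjugate_coe_eq] at this
      rw [Complex.conj_eq_iff_im] at h2
      rw [h2, abs_zero]
      exact h0 w
    · have h1 : ¬ ComplexEmbedding.IsReal w.embedding := fun h2 => hw (InfinitePlace.isReal_iff.2 h2)
      have h3 : ComplexEmbedding.conjugate w.embedding ≠ w.embedding := h1
      have := h (ComplexEmbedding.conjugate w.embedding)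
      unfold coordP at this
      rw [InfinitePlace.mk_conjugate_eq, InfinitePlace.mk_embedding, if_neg h3,
        ComplexEmbedding.conjugate_coe_eq, Complex.conj_im, abs_neg] at this
      exact this
  rw [← InfinitePlace.norm_embedding_eq w a]
  have h1 : ‖w.embedding a‖ ^ 2 < (Real.sqrt 2 * ε w) ^ 2 := by
    rw [Complex.sq_norm, Complex.normSq_apply, mul_pow, Real.sq_sqrt zero_le_two]
    have h2 := abs_lt.1 hre
    have h3 := abs_lt.1 him
    nlinarith [h0 w]
  exact lt_of_pow_lt_pow_left₀ 2 (mul_nonneg (Real.sqrt_nonneg _) (h0 w).le) h1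

/-- the number of integers in a box is at most its volume -/
theorem pack (K : Type) [Field K] [NumberField K] {T : Type} [Fintype T] (p : T → ℕ)
    [∀ t, Fact (p t).Prime] (hp : Function.Injective p) (R : InfinitePlace K → ℝ)
    (b : ∀ t, (K →+* ℂ_[p t]) → ℝ) (hR : ∀ w, 0 < R w) (hb : ∀ t φ, 0 < b t φ) :
    {y : 𝓞 K | (∀ w : InfinitePlace K, w (y : K) ≤ R w) ∧
      ∀ t, ∀ φ : K →+* ℂ_[p t], ‖φ (y : K)‖ ≤ b t φ}.Finite ∧
    ({y : 𝓞 K | (∀ w : InfinitePlace K, w (y : K) ≤ R w) ∧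
      ∀ t, ∀ φ : K →+* ℂ_[p t], ‖φ (y : K)‖ ≤ b t φ}.ncard : ℝ) ≤
      8 ^ finrank ℚ K * max 1 ((∏ φ : K →+* ℂ, R (InfinitePlace.mk φ)) * ∏ t, ∏ φ, b t φ) := by
  classical
  set V : ℝ := (∏ φ : K →+* ℂ, R (InfinitePlace.mk φ)) * ∏ t, ∏ φ, b t φ with hV
  have hb0 : 0 ≤ ∏ t, ∏ φ, b t φ :=
    Finset.prod_nonneg fun t _ => Finset.prod_nonneg fun φ _ => (hb t φ).le
  have hV0 : 0 ≤ V := mul_nonneg (Finset.prod_nonneg fun φ _ => (hR _).le) hb0
  set d := finrank ℚ K with hd
  have hd0 : 0 < d := finrank_pos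
  set M : ℝ := max 1 V ^ (1 / (d : ℝ)) with hM
  have hM1 : 1 ≤ M := Real.one_le_rpow (le_max_left _ _) (by positivity)
  have hMd : M ^ d = max 1 V := by
    rw [hM, ← Real.rpow_natCast, ← Real.rpow_mul (zero_le_one.trans (le_max_left _ _))]
    have : 1 / (d : ℝ) * (d : ℝ) = 1 := by
      field_simp
    rw [this, Real.rpow_one]
  set X : Set (𝓞 K) := {y : 𝓞 K | (∀ w : InfinitePlace K, w (y : K) ≤ R w) ∧
      ∀ t, ∀ φ : K →+* ℂ_[p t], ‖φ (y : K)‖ ≤ b t φ} with hX
  set F : Finset ((K →+* ℂ) → ℤ) :=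
    Fintype.piFinset fun _ => Finset.Icc (-⌈2 * M⌉) ⌈2 * M⌉ with hF
  have hcard : F.card = (⌈2 * M⌉ + 1 - -⌈2 * M⌉).toNat ^ d := by
    rw [hF, Fintype.card_piFinset, Finset.prod_const, Finset.card_univ, Int.card_Icc,
      Embeddings.card, hd]
  -- the cell of an element
  set c : 𝓞 K → (K →+* ℂ) → ℤ := fun y φ => ⌊2 * M * coordP φ (y : K) / R (InfinitePlace.mk φ)⌋
    with hc
  have hmaps : ∀ a ∈ X, c a ∈ (F : Set _) := by
    intro a ha
    rw [Finset.mem_coe, hF, Fintype.mem_piFinset]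
    intro φ
    have h1 := abs_le.1 ((abs_coordP φ (a : K)).trans (ha.1 (InfinitePlace.mk φ)))
    have h2 := Int.le_ceil (2 * M)
    have hr := hR (InfinitePlace.mk φ)
    have h3 : -(2 * M) ≤ 2 * M * coordP φ (a : K) / R (InfinitePlace.mk φ) := by
      rw [le_div_iff₀ hr]
      nlinarith [h1.1]
    have h4 : 2 * M * coordP φ (a : K) / R (InfinitePlace.mk φ) ≤ 2 * M := by
      rw [div_le_iff₀ hr]
      nlinarith [h1.2]
    rw [Finset.mem_Icc]
    constructor
    · rw [Int.le_floor]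
      push_cast
      linarith
    · have h5 : (⌊2 * M * coordP φ (a : K) / R (InfinitePlace.mk φ)⌋ : ℝ) ≤ ⌈2 * M⌉ :=
        (Int.floor_le _).trans (h4.trans h2)
      exact_mod_cast h5
  have hinj : Set.InjOn c X := by
    intro a ha a' ha' hab
    by_contra hne
    have hsub : a - a' ≠ 0 := sub_ne_zero.2 hne
    have h3 : ((a - a' : 𝓞 K) : K) = (a : K) - (a' : K) := by push_cast; rfl
    have h1 : ∀ w : InfinitePlace K, w ((a - a' : 𝓞 K) : K) <
        Real.sqrt 2 * (R w / (2 * M)) := by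
      refine lt_of_coordP _ _ (fun w => div_pos (hR w) (by linarith)) fun φ => ?_
      have h2 : ⌊2 * M * coordP φ (a : K) / R (InfinitePlace.mk φ)⌋ =
        ⌊2 * M * coordP φ (a' : K) / R (InfinitePlace.mk φ)⌋ := congrFun hab φ
      rw [h3, coordP_sub]
      have h4 := Int.abs_sub_lt_one_of_floor_eq_floor h2
      have hr := hR (InfinitePlace.mk φ)
      rw [← sub_div, ← mul_sub, abs_div, abs_mul, abs_of_pos hr, div_lt_one hr,
        abs_of_pos (by linarith : (0 : ℝ) < 2 * M)] at h4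
      rw [lt_div_iff₀ (by linarith)]
      linarith
    have h5 := Pool.Agent.RefW.one_le_prod_embeddings K p hp (a - a') hsub
    have h6 : ∏ φ : K →+* ℂ, ‖φ ((a - a' : 𝓞 K) : K)‖ ≤
        ∏ φ : K →+* ℂ, (Real.sqrt 2 / (2 * M) * R (InfinitePlace.mk φ)) := by
      refine Finset.prod_le_prod (fun φ _ => norm_nonneg _) fun φ _ => ?_
      have h7 := (h1 (InfinitePlace.mk φ)).le
      rw [InfinitePlace.apply] at h7
      refine h7.trans (le_of_eq ?_)
      ring
    have h8 : ∏ t, ∏ φ : K →+* ℂ_[p t], ‖φ ((a - a' : 𝓞 K) : K)‖ ≤ ∏ t, ∏ φ, b t φ := by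
      refine Finset.prod_le_prod (fun t _ => Finset.prod_nonneg fun φ _ => norm_nonneg _)
        fun t _ => Finset.prod_le_prod (fun φ _ => norm_nonneg _) fun φ _ => ?_
      rw [h3, map_sub]
      rw [sub_eq_add_neg]
      refine (IsUltrametricDist.norm_add_le_max _ _).trans (max_le (ha.2 t φ) ?_)
      rw [norm_neg]
      exact ha'.2 t φ
    rw [Finset.prod_mul_distrib, Finset.prod_const, Finset.card_univ, Embeddings.card, ← hd] at h6
    have h9 : (1 : ℝ) ≤ (Real.sqrt 2 / (2 * M)) ^ d * V := by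
      refine h5.trans ?_
      rw [hV, ← mul_assoc]
      exact mul_le_mul h6 h8 (Finset.prod_nonneg fun t _ => Finset.prod_nonneg fun φ _ =>
        norm_nonneg _) (mul_nonneg (by positivity) (Finset.prod_nonneg fun φ _ => (hR _).le))
    have h10 : (Real.sqrt 2 / (2 * M)) ^ d * V ≤ (Real.sqrt 2 / 2) ^ d := by
      have h11 : Real.sqrt 2 / (2 * M) = Real.sqrt 2 / 2 / M := by field_simp
      rw [h11, div_pow (Real.sqrt 2 / 2), hMd, div_mul_eq_mul_div]
      rw [div_le_iff₀ (lt_of_lt_of_le one_pos (le_max_left _ _))]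
      exact mul_le_mul_of_nonneg_left (le_max_right _ _) (by positivity)
    have h12 : (Real.sqrt 2 / 2) ^ d < 1 := by
      refine pow_lt_one₀ (by positivity) ?_ hd0.ne'
      have : Real.sqrt 2 < 2 := (Real.sqrt_lt' two_pos).2 (by norm_num)
      linarith
    linarith
  have hfin : X.Finite := Set.Finite.of_injOn hmaps hinj F.finite_toSet
  refine ⟨hfin, ?_⟩
  have h1 : X.ncard ≤ F.card := by
    rw [← Set.ncard_coe_finset]
    exact Set.ncard_le_ncard_of_injOn _ hmaps hinj F.finite_toSet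
  have h2 : ((⌈2 * M⌉ + 1 - -⌈2 * M⌉).toNat : ℝ) ≤ 8 * M := by
    have h3 : (0 : ℤ) ≤ ⌈2 * M⌉ + 1 - -⌈2 * M⌉ := by
      have : (0 : ℤ) ≤ ⌈2 * M⌉ := Int.ceil_nonneg (by linarith)
      linarith
    have h4 : (((⌈2 * M⌉ + 1 - -⌈2 * M⌉).toNat : ℕ) : ℝ) =
        ((⌈2 * M⌉ + 1 - -⌈2 * M⌉ : ℤ) : ℝ) := by
      exact_mod_cast Int.toNat_of_nonneg h3
    rw [h4]
    push_cast
    have := Int.ceil_lt_add_one (2 * M)
    linarith
  calc (X.ncard : ℝ) ≤ (F.card : ℝ) := by exact_mod_cast h1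
    _ = ((⌈2 * M⌉ + 1 - -⌈2 * M⌉).toNat : ℝ) ^ d := by rw [hcard]; push_cast; ring
    _ ≤ (8 * M) ^ d := pow_le_pow_left₀ (Nat.cast_nonneg _) h2 _
    _ = 8 ^ d * max 1 V := by rw [mul_pow, hMd]

end Pool.Agent.AA
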