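import Pool.Agent.AA.Cell
import Pool.Agent.AA.Pack

/-!
# Counting by a decomposition into boxes
-/

set_option autoImplicit false

open Polynomial NumberField IntermediateField Module

namespace Pool.Agent.AA

private theorem prod_le_mul {α : Type} [Fintype α] (f : α → ℝ) (c : ℝ) (hc : 1 ≤ c)
    (h0 : ∀ a, 0 ≤ f a) (h1 : ∀ a, f a ≤ c) (a₀ : α) :
    ∏ a, f a ≤ f a₀ * c ^ Fintype.card α := by
  classical
  rw [← Finset.mul_prod_erase Finset.univ f (Finset.mem_univ a₀)]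
  refine mul_le_mul_of_nonneg_left ?_ (h0 _)
  refine (Finset.prod_le_prod (fun a _ => h0 a) fun a _ => h1 a).trans ?_
  rw [Finset.prod_const]
  exact pow_le_pow_right₀ hc (Finset.card_le_univ _)

/-- the sizes of an integer at the places -/
private theorem size_lower (K : Type) [Field K] [NumberField K] {T : Type} [Fintype T]
    (p : T → ℕ) [∀ t, Fact (p t).Prime] (hp : Function.Injective p) (y : 𝓞 K) (hy : y ≠ 0)
    (c : ℝ) (hc : 1 ≤ c) (h : ∀ φ : K →+* ℂ, ‖φ (y : K)‖ ≤ c) :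
    (∀ φ : K →+* ℂ, 1 ≤ ‖φ (y : K)‖ * c ^ finrank ℚ K) ∧
    ∀ t, ∀ φ : K →+* ℂ_[p t], 1 ≤ ‖φ (y : K)‖ * c ^ finrank ℚ K := by
  classical
  have h1 := Pool.Agent.RefW.one_le_prod_embeddings K p hp y hy
  have hpad : ∀ t, ∏ φ : K →+* ℂ_[p t], ‖φ (y : K)‖ ≤ 1 := fun t =>
    Finset.prod_le_one (fun φ _ => norm_nonneg _)
      fun φ _ => Pool.Agent.RefW.norm_le_one_of_ringOfIntegers (p t) φ y
  have hpad0 : ∀ t, 0 ≤ ∏ φ : K →+* ℂ_[p t], ‖φ (y : K)‖ := fun t =>
    Finset.prod_nonneg fun φ _ => norm_nonneg _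
  have harch0 : 0 ≤ ∏ φ : K →+* ℂ, ‖φ (y : K)‖ := Finset.prod_nonneg fun φ _ => norm_nonneg _
  have harch : ∏ φ : K →+* ℂ, ‖φ (y : K)‖ ≤ c ^ finrank ℚ K := by
    refine (Finset.prod_le_prod (fun φ _ => norm_nonneg _) fun φ _ => h φ).trans ?_
    rw [Finset.prod_const, Finset.card_univ, Embeddings.card]
  constructor
  · intro φ
    have h2 := prod_le_mul (fun φ : K →+* ℂ => ‖φ (y : K)‖) c hc (fun φ => norm_nonneg _) h φ
    rw [Embeddings.card] at h2
    refine h1.trans ((mul_le_of_le_one_right harch0 ?_).trans h2)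
    exact Finset.prod_le_one (fun t _ => hpad0 t) fun t _ => hpad t
  · intro t φ
    have h2 := prod_le_mul (fun φ : K →+* ℂ_[p t] => ‖φ (y : K)‖) 1 le_rfl
      (fun φ => norm_nonneg _)
      (fun φ => Pool.Agent.RefW.norm_le_one_of_ringOfIntegers (p t) φ y) φ
    have h3 := prod_le_mul (fun t => ∏ φ : K →+* ℂ_[p t], ‖φ (y : K)‖) 1 le_rfl hpad0 hpad t
    rw [one_pow, mul_one] at h2 h3
    rw [mul_comm]
    exact h1.trans (mul_le_mul harch (h3.trans h2) (Finset.prod_nonneg fun t _ => hpad0 t)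
      (by positivity))

/-- the number of integers in the dyadic box of a nonzero integer -/
private theorem pack_dyadic (K : Type) [Field K] [NumberField K] {T : Type} [Fintype T]
    (p : T → ℕ) [∀ t, Fact (p t).Prime] (hp : Function.Injective p) :
    ∃ C : ℝ, 0 ≤ C ∧ ∀ y₀ : 𝓞 K, y₀ ≠ 0 →
      ∀ (S : InfinitePlace K → ℤ) (S' : ∀ t, (K →+* ℂ_[p t]) → ℤ),
      (∀ w : InfinitePlace K, (2 : ℝ) ^ S w ≤ w (y₀ : K)) →
      (∀ t φ, (2 : ℝ) ^ S' t φ ≤ ‖φ (y₀ : K)‖) →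
      {y : 𝓞 K | (∀ w : InfinitePlace K, w (y : K) ≤ 2 ^ (S w + 1)) ∧
        ∀ t, ∀ φ : K →+* ℂ_[p t], ‖φ (y : K)‖ ≤ 2 ^ (S' t φ + 1)}.Finite ∧
      ({y : 𝓞 K | (∀ w : InfinitePlace K, w (y : K) ≤ 2 ^ (S w + 1)) ∧
        ∀ t, ∀ φ : K →+* ℂ_[p t], ‖φ (y : K)‖ ≤ 2 ^ (S' t φ + 1)}.ncard : ℝ) ≤
        C * ((∏ φ : K →+* ℂ, ‖φ (y₀ : K)‖) * ∏ t, ∏ φ : K →+* ℂ_[p t], ‖φ (y₀ : K)‖) := by
  classical
  set E : ℝ := (∏ _φ : K →+* ℂ, (2 : ℝ)) * ∏ t, ∏ _φ : K →+* ℂ_[p t], (2 : ℝ) with hE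
  have hE1 : 1 ≤ E := by
    refine one_le_mul_of_one_le_of_one_le ?_ ?_
    · exact Finset.one_le_prod (fun _ _ => one_le_two) 
    · exact Finset.one_le_prod fun t _ => Finset.one_le_prod fun _ _ => one_le_two
  refine ⟨8 ^ finrank ℚ K * E, by positivity, fun y₀ hy₀ S S' h1 h2 => ?_⟩
  obtain ⟨hfin, hcard⟩ := pack K p hp (fun w => (2 : ℝ) ^ (S w + 1))
    (fun t φ => (2 : ℝ) ^ (S' t φ + 1)) (fun w => by positivity) (fun t φ => by positivity)
  refine ⟨hfin, hcard.trans ?_⟩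
  rw [mul_assoc]
  refine mul_le_mul_of_nonneg_left ?_ (by positivity)
  have h3 := Pool.Agent.RefW.one_le_prod_embeddings K p hp y₀ hy₀
  refine max_le (one_le_mul_of_one_le_of_one_le hE1 h3) ?_
  have h4 : ∏ φ : K →+* ℂ, (2 : ℝ) ^ (S (InfinitePlace.mk φ) + 1) ≤
      ∏ φ : K →+* ℂ, (2 * ‖φ (y₀ : K)‖) := by
    refine Finset.prod_le_prod (fun φ _ => by positivity) fun φ _ => ?_
    have h5 := h1 (InfinitePlace.mk φ)
    rw [InfinitePlace.apply] at h5
    rw [zpow_add_one₀ (two_ne_zero), mul_comm]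
    exact mul_le_mul_of_nonneg_left h5 zero_le_two
  have h6 : ∏ t, ∏ φ : K →+* ℂ_[p t], (2 : ℝ) ^ (S' t φ + 1) ≤
      ∏ t, ∏ φ : K →+* ℂ_[p t], (2 * ‖φ (y₀ : K)‖) := by
    refine Finset.prod_le_prod (fun t _ => by positivity) fun t _ =>
      Finset.prod_le_prod (fun φ _ => by positivity) fun φ _ => ?_
    rw [zpow_add_one₀ (two_ne_zero), mul_comm]
    exact mul_le_mul_of_nonneg_left (h2 t φ) zero_le_two
  refine (mul_le_mul h4 h6 (by positivity) (by positivity)).trans (le_of_eq ?_)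
  rw [hE]
  simp only [Finset.prod_mul_distrib]
  ring

theorem box_count {ι κ V : Type} [Fintype ι] [Fintype κ] (L : ι → Type) [∀ j, Field (L j)]
    [∀ j, NumberField (L j)] (k : Type) [Field k] [NumberField k] {T : Type} [Fintype T]
    (p : T → ℕ) [∀ t, Fact (p t).Prime] (hp : Function.Injective p)
    (Φ : ∀ j, V → 𝓞 (L j)) (Ψ : κ → V → 𝓞 k)
    (hinj : ∀ F F' : V, (∀ j, Φ j F = Φ j F') → (∀ i, Ψ i F = Ψ i F') → F = F')
    (A : ℝ) (hA : 1 ≤ A) :
    ∃ (C : ℝ) (e : ℕ), 0 ≤ C ∧ ∀ R : ℝ, 1 ≤ R → ∀ P : ℝ, 0 ≤ P →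
      {F : V | (∀ j, Φ j F ≠ 0) ∧ (∀ j, ∀ φ : L j →+* ℂ, ‖φ (Φ j F : L j)‖ ≤ A * R) ∧
        (∀ i, Ψ i F ∈ small k (A * R)) ∧
        ∏ j, ((∏ φ : L j →+* ℂ, ‖φ (Φ j F : L j)‖) *
          ∏ t, ∏ φ : L j →+* ℂ_[p t], ‖φ (Φ j F : L j)‖) ≤ P}.Finite ∧
      ({F : V | (∀ j, Φ j F ≠ 0) ∧ (∀ j, ∀ φ : L j →+* ℂ, ‖φ (Φ j F : L j)‖ ≤ A * R) ∧
        (∀ i, Ψ i F ∈ small k (A * R)) ∧
        ∏ j, ((∏ φ : L j →+* ℂ, ‖φ (Φ j F : L j)‖) *
          ∏ t, ∏ φ : L j →+* ℂ_[p t], ‖φ (Φ j F : L j)‖) ≤ P}.ncard : ℝ) ≤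
        C * P * (R ^ finrank ℚ k) ^ Fintype.card κ * (1 + Real.log R) ^ e := by
  classical
  choose Cj hCj0 hCj using fun j => pack_dyadic (L j) p hp
  set I : Type := (Σ j, InfinitePlace (L j)) ⊕ (Σ j, Σ t, (L j →+* ℂ_[p t])) with hI
  set D : ℕ := 1 + ∑ j, finrank ℚ (L j) with hD
  set C₁ : ℝ := 3 + 2 * D * (1 + Real.log A) / Real.log 2 with hC₁
  have hlog2 : 0 < Real.log 2 := Real.log_pos one_lt_two
  have hlogA : 0 ≤ Real.log A := Real.log_nonneg hA
  have hC₁0 : 0 ≤ C₁ := by positivity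
  set N := Fintype.card I with hN
  refine ⟨C₁ ^ N * ((∏ j, Cj j) * ((6 * A) ^ finrank ℚ k) ^ Fintype.card κ), N,
    mul_nonneg (by positivity) (mul_nonneg (Finset.prod_nonneg fun j _ => hCj0 j)
      (by positivity)), fun R hR P hP => ?_⟩
  set X := {F : V | (∀ j, Φ j F ≠ 0) ∧ (∀ j, ∀ φ : L j →+* ℂ, ‖φ (Φ j F : L j)‖ ≤ A * R) ∧
        (∀ i, Ψ i F ∈ small k (A * R)) ∧
        ∏ j, ((∏ φ : L j →+* ℂ, ‖φ (Φ j F : L j)‖) *
          ∏ t, ∏ φ : L j →+* ℂ_[p t], ‖φ (Φ j F : L j)‖) ≤ P} with hX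
  have hAR : 1 ≤ A * R := one_le_mul_of_one_le_of_one_le hA hR
  set val : I → V → ℝ := fun i F => Sum.elim (fun i => i.2 (Φ i.1 F : L i.1))
    (fun i => ‖i.2.2 (Φ i.1 F : L i.1)‖) i with hval
  set dat : V → I → ℤ := fun F i => Int.log 2 (val i F) with hdat
  set M : ℤ := ⌈(D : ℝ) * Real.logb 2 (A * R)⌉ with hM
  have hMle : (A * R) ^ D ≤ (2 : ℝ) ^ M := by
    have h1 : ((A * R) ^ D : ℝ) = 2 ^ ((D : ℝ) * Real.logb 2 (A * R)) := by
      rw [mul_comm (D : ℝ) (Real.logb 2 (A * R)), Real.rpow_mul zero_le_two,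
        Real.rpow_logb two_pos (by norm_num) (by linarith), Real.rpow_natCast]
    rw [h1, ← Real.rpow_intCast]
    exact Real.rpow_le_rpow_of_exponent_le one_le_two (Int.le_ceil _)
  have hval_le : ∀ F ∈ X, ∀ i, val i F ≤ A * R := by
    rintro F hF (⟨j, w⟩ | ⟨j, t, φ⟩)
    · have h1 := hF.2.1 j w.embedding
      rw [InfinitePlace.norm_embedding_eq] at h1
      exact h1
    · exact (Pool.Agent.RefW.norm_le_one_of_ringOfIntegers (p t) φ (Φ j F)).trans hAR
  have hval_ge : ∀ F ∈ X, ∀ i, 1 ≤ val i F * (A * R) ^ D := by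
    rintro F hF (⟨j, w⟩ | ⟨j, t, φ⟩)
    · have h1 := (size_lower (L j) p hp (Φ j F) (hF.1 j) (A * R) hAR (hF.2.1 j)).1 w.embedding
      rw [InfinitePlace.norm_embedding_eq] at h1
      refine h1.trans (mul_le_mul_of_nonneg_left (pow_le_pow_right₀ hAR ?_) (apply_nonneg _ _))
      have := Finset.single_le_sum (f := fun j => finrank ℚ (L j)) (fun _ _ => Nat.zero_le _)
        (Finset.mem_univ j)
      omega
    · have h1 := (size_lower (L j) p hp (Φ j F) (hF.1 j) (A * R) hAR (hF.2.1 j)).2 t φ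
      refine h1.trans (mul_le_mul_of_nonneg_left (pow_le_pow_right₀ hAR ?_) (norm_nonneg _))
      have := Finset.single_le_sum (f := fun j => finrank ℚ (L j)) (fun _ _ => Nat.zero_le _)
        (Finset.mem_univ j)
      omega
  have hval0 : ∀ F ∈ X, ∀ i, 0 < val i F := by
    intro F hF i
    by_contra hcon
    have h1 := hval_ge F hF i
    have h2 : val i F * (A * R) ^ D ≤ 0 := mul_nonpos_of_nonpos_of_nonneg (not_lt.1 hcon)
      (by positivity)
    linarith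
  have hlow : ∀ F ∈ X, ∀ i, (2 : ℝ) ^ dat F i ≤ val i F := fun F hF i => by
    have := Int.zpow_log_le_self one_lt_two (hval0 F hF i)
    exact_mod_cast this
  have hupp : ∀ F : V, ∀ i, val i F ≤ (2 : ℝ) ^ (dat F i + 1) := fun F i => by
    have := (Int.lt_zpow_succ_log_self (b := 2) one_lt_two (val i F)).le
    exact_mod_cast this
  set DF : Finset (I → ℤ) := Fintype.piFinset fun _ => Finset.Icc (-M) M with hDF
  have hM0 : 0 ≤ M := Int.ceil_nonneg (mul_nonneg (Nat.cast_nonneg _)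
    (Real.logb_nonneg one_lt_two hAR))
  have hmaps : ∀ F ∈ X, dat F ∈ DF := by
    intro F hF
    rw [hDF, Fintype.mem_piFinset]
    intro i
    rw [Finset.mem_Icc]
    constructor
    · have h1 : (2 : ℝ) ^ (-M) ≤ 2 ^ (dat F i + 1) := by
        refine le_trans ?_ (hupp F i)
        have h2 := hval_ge F hF i
        rw [zpow_neg, inv_le_comm₀ (by positivity) (hval0 F hF i)]
        refine le_trans ?_ hMle
        rw [inv_le_iff_one_le_mul₀ (hval0 F hF i), mul_comm]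
        exact h2
      have h3 := (zpow_le_zpow_iff_right₀ (one_lt_two : (1 : ℝ) < 2)).1 h1
      by_contra hcon
      have h4 : dat F i + 1 = -M := by omega
      have h5 : val i F < 2 ^ (dat F i + 1) := by
        have := Int.lt_zpow_succ_log_self (b := 2) one_lt_two (val i F)
        exact_mod_cast this
      have h2 := hval_ge F hF i
      rw [h4, zpow_neg, lt_inv_comm₀ (hval0 F hF i) (by positivity)] at h5
      have h6 : (val i F)⁻¹ ≤ (A * R) ^ D := by
        rw [inv_le_iff_one_le_mul₀ (hval0 F hF i), mul_comm]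
        exact h2
      linarith
    · have h1 : (2 : ℝ) ^ dat F i ≤ 2 ^ M := by
        refine (hlow F hF i).trans ((hval_le F hF i).trans (le_trans ?_ hMle))
        exact le_self_pow₀ hAR (by omega)
      exact (zpow_le_zpow_iff_right₀ (one_lt_two : (1 : ℝ) < 2)).1 h1
  -- the elements with given data
  set N₀ : ℝ := (∏ j, Cj j) * P * ((6 * (A * R)) ^ finrank ℚ k) ^ Fintype.card κ with hN₀
  have hN₀0 : 0 ≤ N₀ := mul_nonneg (mul_nonneg (Finset.prod_nonneg fun j _ => hCj0 j) hP)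
    (by positivity)
  have hfib : ∀ s : I → ℤ, {F ∈ X | dat F = s}.Finite ∧
      ({F ∈ X | dat F = s}.ncard : ℝ) ≤ N₀ := by
    intro s
    rcases Set.eq_empty_or_nonempty {F ∈ X | dat F = s} with he | ⟨F₀, hF₀, hs⟩
    · rw [he]
      exact ⟨Set.finite_empty, by simpa using hN₀0⟩
    have hj := fun j => hCj j (Φ j F₀) (hF₀.1 j) (fun w => s (Sum.inl ⟨j, w⟩))
      (fun t φ => s (Sum.inr ⟨j, t, φ⟩)) (fun w => by
        have := hlow F₀ hF₀ (Sum.inl ⟨j, w⟩)
        rw [hs] at this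
        exact this) (fun t φ => by
        have := hlow F₀ hF₀ (Sum.inr ⟨j, t, φ⟩)
        rw [hs] at this
        exact this)
    have hsm := small_finite k (A * R)
    set Y : Finset (∀ j, 𝓞 (L j)) := Fintype.piFinset fun j => (hj j).1.toFinset with hY
    set Z : Finset (κ → 𝓞 k) := Fintype.piFinset fun _ => hsm.toFinset with hZ
    have hm : ∀ F ∈ {F ∈ X | dat F = s}, ((fun j => Φ j F, fun i => Ψ i F) :
        (∀ j, 𝓞 (L j)) × (κ → 𝓞 k)) ∈ ((Y ×ˢ Z : Finset _) : Set _) := by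
      rintro F ⟨hF, hFs⟩
      rw [Finset.mem_coe, Finset.mem_product, hY, hZ, Fintype.mem_piFinset, Fintype.mem_piFinset]
      refine ⟨fun j => ?_, fun i => ?_⟩
      · rw [Set.Finite.mem_toFinset]
        refine ⟨fun w => ?_, fun t φ => ?_⟩
        · have := hupp F (Sum.inl ⟨j, w⟩)
          rw [hFs] at this
          exact this
        · have := hupp F (Sum.inr ⟨j, t, φ⟩)
          rw [hFs] at this
          exact this
      · rw [Set.Finite.mem_toFinset]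
        exact hF.2.2.1 i
    have hi : Set.InjOn (fun F => ((fun j => Φ j F, fun i => Ψ i F) :
        (∀ j, 𝓞 (L j)) × (κ → 𝓞 k))) {F ∈ X | dat F = s} := by
      intro F _ F' _ h
      have h1 := congrArg Prod.fst h
      have h2 := congrArg Prod.snd h
      exact hinj F F' (fun j => congrFun h1 j) fun i => congrFun h2 i
    refine ⟨Set.Finite.of_injOn hm hi (Finset.finite_toSet _), ?_⟩
    have h1 : {F ∈ X | dat F = s}.ncard ≤ (Y ×ˢ Z).card := by
      rw [← Set.ncard_coe_finset]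
      exact Set.ncard_le_ncard_of_injOn _ hm hi (Finset.finite_toSet _)
    have h2 : (Y.card : ℝ) ≤ (∏ j, Cj j) * P := by
      rw [hY, Fintype.card_piFinset]
      push_cast
      have h3 : ∀ j, (((hj j).1.toFinset.card : ℕ) : ℝ) ≤ Cj j *
          ((∏ φ : L j →+* ℂ, ‖φ (Φ j F₀ : L j)‖) *
          ∏ t, ∏ φ : L j →+* ℂ_[p t], ‖φ (Φ j F₀ : L j)‖) := by
        intro j
        rw [← Set.ncard_eq_toFinset_card _ (hj j).1]
        exact (hj j).2
      refine (Finset.prod_le_prod (fun j _ => Nat.cast_nonneg _) fun j _ => h3 j).trans ?_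
      rw [Finset.prod_mul_distrib]
      exact mul_le_mul_of_nonneg_left hF₀.2.2.2 (Finset.prod_nonneg fun j _ => hCj0 j)
    have h4 : (Z.card : ℝ) ≤ ((6 * (A * R)) ^ finrank ℚ k) ^ Fintype.card κ := by
      rw [hZ, Fintype.card_piFinset, Finset.prod_const, Finset.card_univ]
      push_cast
      refine pow_le_pow_left₀ (Nat.cast_nonneg _) ?_ _
      rw [← Set.ncard_eq_toFinset_card _ hsm]
      exact card_small_le k (A * R) hAR
    calc (({F ∈ X | dat F = s}.ncard : ℕ) : ℝ) ≤ ((Y ×ˢ Z).card : ℝ) := by exact_mod_cast h1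
      _ = Y.card * Z.card := by rw [Finset.card_product]; push_cast; ring
      _ ≤ N₀ := mul_le_mul h2 h4 (Nat.cast_nonneg _)
        (mul_nonneg (Finset.prod_nonneg fun j _ => hCj0 j) hP)
  have hXsub : X ⊆ ⋃ s ∈ DF, {F ∈ X | dat F = s} := by
    intro F hF
    rw [Set.mem_iUnion₂]
    exact ⟨dat F, hmaps F hF, hF, rfl⟩
  have hfin : X.Finite := Set.Finite.subset (Set.Finite.biUnion DF.finite_toSet
    fun s _ => (hfib s).1) hXsub
  refine ⟨hfin, ?_⟩
  have h1 : (X.ncard : ℝ) ≤ DF.card * N₀ := by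
    rw [Set.ncard_eq_toFinset_card _ hfin]
    have h2 := Finset.card_eq_sum_card_fiberwise (f := dat) (s := hfin.toFinset) (t := DF)
      (fun F hF => hmaps F ((Set.Finite.mem_toFinset hfin).1 hF))
    rw [h2]
    push_cast
    refine (Finset.sum_le_card_nsmul DF _ N₀ fun s _ => ?_).trans (le_of_eq (nsmul_eq_mul _ _))
    refine le_trans (le_of_eq ?_) (hfib s).2
    rw [Set.ncard_eq_toFinset_card _ (hfib s).1]
    congr 2
    ext F
    simp
  have h2 : (DF.card : ℝ) ≤ (C₁ * (1 + Real.log R)) ^ N := by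
    rw [hDF, Fintype.card_piFinset, Finset.prod_const, Finset.card_univ, Int.card_Icc]
    push_cast
    refine pow_le_pow_left₀ (Nat.cast_nonneg _) ?_ _
    have h3 : (0 : ℤ) ≤ M + 1 - -M := by omega
    have h4 : (((M + 1 - -M).toNat : ℕ) : ℝ) = ((M + 1 - -M : ℤ) : ℝ) := by
      exact_mod_cast Int.toNat_of_nonneg h3
    rw [h4]
    push_cast
    have h5 := (Int.ceil_lt_add_one ((D : ℝ) * Real.logb 2 (A * R))).le
    rw [← hM] at h5
    have h6 : Real.logb 2 (A * R) = (Real.log A + Real.log R) / Real.log 2 := by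
      rw [Real.logb, Real.log_mul (by linarith) (by linarith)]
    rw [h6] at h5
    have hlR : 0 ≤ Real.log R := Real.log_nonneg hR
    have h7 : (2 : ℝ) * D * (Real.log A + Real.log R) / Real.log 2 ≤
        2 * D * (1 + Real.log A) / Real.log 2 * (1 + Real.log R) := by
      rw [div_mul_eq_mul_div]
      refine div_le_div_of_nonneg_right ?_ hlog2.le
      have h8 : Real.log A + Real.log R ≤ (1 + Real.log A) * (1 + Real.log R) := by
        nlinarith [mul_nonneg hlogA hlR]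
      have h9 := mul_le_mul_of_nonneg_left h8 (by positivity : (0 : ℝ) ≤ 2 * D)
      linarith
    have h10 : (D : ℝ) * ((Real.log A + Real.log R) / Real.log 2) * 2 =
        2 * D * (Real.log A + Real.log R) / Real.log 2 := by ring
    rw [hC₁]
    nlinarith
  calc (X.ncard : ℝ) ≤ DF.card * N₀ := h1
    _ ≤ (C₁ * (1 + Real.log R)) ^ N * N₀ := mul_le_mul_of_nonneg_right h2 hN₀0
    _ = C₁ ^ N * ((∏ j, Cj j) * ((6 * A) ^ finrank ℚ k) ^ Fintype.card κ) * P *
      (R ^ finrank ℚ k) ^ Fintype.card κ * (1 + Real.log R) ^ N := by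
      rw [hN₀, mul_pow, ← mul_assoc 6 A R, mul_pow (6 * A) R, mul_pow _ (R ^ finrank ℚ k)]
      ring

end Pool.Agent.AA
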