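import Pool.Agent.AA.Defs2

/-!
# The number of algebraic integers with small conjugates
-/

set_option autoImplicit false

open Polynomial NumberField IntermediateField Module

namespace Pool.Agent.AA

theorem small_finite (K : Type) [Field K] [NumberField K] (R : ℝ) : (small K R).Finite := by
  have h := NumberField.Embeddings.finite_of_norm_le K ℂ R
  refine Set.Finite.of_injOn (f := fun a : 𝓞 K => (a : K)) ?_ (fun a _ b _ hab => ?_) h
  · intro a ha
    refine ⟨a.2, fun φ => ?_⟩
    exact (ha (InfinitePlace.mk φ)).le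
  · exact RingOfIntegers.ext hab

/-- one real coordinate for every embedding -/
private noncomputable def coord {K : Type} [Field K] [NumberField K] (φ : K →+* ℂ) (a : K) : ℝ :=
  open Classical in if φ = (InfinitePlace.mk φ).embedding then (φ a).re else (φ a).im

private theorem coord_sub {K : Type} [Field K] [NumberField K] (φ : K →+* ℂ) (a b : K) :
    coord φ (a - b) = coord φ a - coord φ b := by
  unfold coord
  split_ifs
  · rw [map_sub, Complex.sub_re]
  · rw [map_sub, Complex.sub_im]

private theorem abs_coord {K : Type} [Field K] [NumberField K] (φ : K →+* ℂ) (a : K) :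
    |coord φ a| ≤ (InfinitePlace.mk φ) a := by
  rw [InfinitePlace.apply]
  unfold coord
  split_ifs
  · exact Complex.abs_re_le_norm _
  · exact Complex.abs_im_le_norm _

private theorem lt_one_of_coord {K : Type} [Field K] [NumberField K] (a : K)
    (h : ∀ φ : K →+* ℂ, |coord φ a| < 1 / 2) (w : InfinitePlace K) : w a < 1 := by
  classical
  have hre : |(w.embedding a).re| < 1 / 2 := by
    have := h w.embedding
    unfold coord at this
    rwa [InfinitePlace.mk_embedding, if_pos rfl] at this
  have him : |(w.embedding a).im| < 1 / 2 := by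
    by_cases hw : w.IsReal
    · have h1 := InfinitePlace.isReal_iff.1 hw
      have h2 : starRingEnd ℂ (w.embedding a) = w.embedding a := by
        have := RingHom.congr_fun h1 a
        rwa [ComplexEmbedding.conjugate_coe_eq] at this
      rw [Complex.conj_eq_iff_im] at h2
      rw [h2]
      norm_num
    · have h1 : ¬ ComplexEmbedding.IsReal w.embedding := fun h2 => hw (InfinitePlace.isReal_iff.2 h2)
      have h3 : ComplexEmbedding.conjugate w.embedding ≠ w.embedding := h1
      have := h (ComplexEmbedding.conjugate w.embedding)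
      unfold coord at this
      rw [InfinitePlace.mk_conjugate_eq, InfinitePlace.mk_embedding, if_neg h3,
        ComplexEmbedding.conjugate_coe_eq, Complex.conj_im, abs_neg] at this
      exact this
  rw [← InfinitePlace.norm_embedding_eq w a]
  have h1 : ‖w.embedding a‖ ^ 2 < 1 := by
    rw [Complex.sq_norm, Complex.normSq_apply]
    have h2 := abs_lt.1 hre
    have h3 := abs_lt.1 him
    nlinarith
  have h2 := norm_nonneg (w.embedding a)
  nlinarith

theorem card_small_le (K : Type) [Field K] [NumberField K] (R : ℝ) (hR : 1 ≤ R) :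
    ((small K R).ncard : ℝ) ≤ (6 * R) ^ finrank ℚ K := by
  classical
  set F : Finset ((K →+* ℂ) → ℤ) :=
    Fintype.piFinset fun _ => Finset.Ico (-⌈2 * R⌉) ⌈2 * R⌉ with hF
  have hcard : F.card = (2 * ⌈2 * R⌉).toNat ^ finrank ℚ K := by
    have h1 : ⌈2 * R⌉ - -⌈2 * R⌉ = 2 * ⌈2 * R⌉ := by ring
    rw [hF, Fintype.card_piFinset, Finset.prod_const, Finset.card_univ, Int.card_Ico,
      Embeddings.card, h1]
  have hmaps : ∀ a ∈ small K R, (fun φ : K →+* ℂ => ⌊2 * coord φ (a : K)⌋) ∈ (F : Set _) := by
    intro a ha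
    rw [Finset.mem_coe, hF, Fintype.mem_piFinset]
    intro φ
    have h1 := abs_lt.1 (lt_of_le_of_lt (abs_coord φ (a : K)) (ha (InfinitePlace.mk φ)))
    have h2 := Int.le_ceil (2 * R)
    rw [Finset.mem_Ico, Int.le_floor, Int.floor_lt]
    push_cast
    constructor <;> linarith [h1.1, h1.2]
  have hinj : Set.InjOn (fun (a : 𝓞 K) (φ : K →+* ℂ) => ⌊2 * coord φ (a : K)⌋) (small K R) := by
    intro a _ b _ hab
    by_contra hne
    have hsub : a - b ≠ 0 := sub_ne_zero.2 hne
    have h1 : ∀ w : InfinitePlace K, w ((a - b : 𝓞 K) : K) < 1 := by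
      refine lt_one_of_coord _ fun φ => ?_
      have h2 : ⌊2 * coord φ (a : K)⌋ = ⌊2 * coord φ (b : K)⌋ := congrFun hab φ
      have h3 : ((a - b : 𝓞 K) : K) = (a : K) - (b : K) := by push_cast; rfl
      rw [h3, coord_sub]
      have h4 := Int.abs_sub_lt_one_of_floor_eq_floor h2
      rw [← mul_sub, abs_mul, abs_two] at h4
      linarith
    obtain ⟨w⟩ := (inferInstance : Nonempty (InfinitePlace K))
    have h5 := InfinitePlace.one_le_of_lt_one (w := w) hsub fun z _ => h1 z
    exact absurd (h1 w) (not_lt.2 h5)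
  have h1 : (small K R).ncard ≤ F.card := by
    rw [← Set.ncard_coe_finset]
    exact Set.ncard_le_ncard_of_injOn _ hmaps hinj F.finite_toSet
  have h2 : ((2 * ⌈2 * R⌉).toNat : ℝ) ≤ 6 * R := by
    have h3 : (0 : ℤ) ≤ 2 * ⌈2 * R⌉ := by
      have : (0 : ℤ) ≤ ⌈2 * R⌉ := Int.ceil_nonneg (by linarith)
      linarith
    have h4 : (((2 * ⌈2 * R⌉).toNat : ℕ) : ℝ) = ((2 * ⌈2 * R⌉ : ℤ) : ℝ) := by
      exact_mod_cast Int.toNat_of_nonneg h3
    rw [h4]
    push_cast
    have := Int.ceil_lt_add_one (2 * R)
    linarith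
  calc ((small K R).ncard : ℝ) ≤ (F.card : ℝ) := by exact_mod_cast h1
    _ = ((2 * ⌈2 * R⌉).toNat : ℝ) ^ finrank ℚ K := by rw [hcard]; push_cast; ring
    _ ≤ (6 * R) ^ finrank ℚ K := pow_le_pow_left₀ (Nat.cast_nonneg _) h2 _

end Pool.Agent.AA
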