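import Pool.Agent.SST.ProxDefsK

/-!
# Points of bounded degree which violate the height inequality: definitions

For a number field `k` and a point `x` of its algebraic closure, `k(x)` is the field
`IntermediateField.adjoin k {x}` and `IntermediateField.AdjoinSimple.gen k x` is `x` as an element
of this field.
-/

set_option autoImplicit false

open Polynomial NumberField IntermediateField

namespace Pool.Agent.AA

/-- the field `k(x)` is a number field -/
instance instNumberFieldAdjoin (k : Type) [Field k] [NumberField k] (x : AlgebraicClosure k) :
    NumberField (IntermediateField.adjoin k {x}) :=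
  haveI : FiniteDimensional k (IntermediateField.adjoin k {x}) :=
    IntermediateField.adjoin.finiteDimensional (Algebra.IsIntegral.isIntegral x)
  NumberField.of_module_finite k _

/-- The height `H(P)` of the point `P = (x : 1)` relative to its residue field `k(x)`, i.e. the
absolute multiplicative height raised to the power `[k(x) : ℚ]`. -/
noncomputable def relHeight {k : Type} [Field k] [NumberField k] (x : AlgebraicClosure k) : ℝ :=
  Height.mulHeight₁ (AdjoinSimple.gen k x)

/-- The absolute logarithmic height `h(P)` of the point `P = (x : 1)`. -/
noncomputable def height {k : Type} [Field k] [NumberField k] (x : AlgebraicClosure k) : ℝ :=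
  SST.ht (IntermediateField.adjoin k {x}) (AdjoinSimple.gen k x)

/-- The normalised logarithmic discriminant `d(P)` of the residue field `k(x)` of the point
`P = (x : 1)`. -/
noncomputable def logDiscr {k : Type} [Field k] [NumberField k] (x : AlgebraicClosure k) : ℝ :=
  SST.logDisc (IntermediateField.adjoin k {x})

/-- The proximity function `m(D, P)` of the point `P = (x : 1)`, for the divisor `D` of zeros of the
binary form `G(X, Y) = Y ^ q g(X / Y)` and the set of the places of `k` above `∞` and the `p t`. -/
noncomputable def proximity {k : Type} [Field k] [NumberField k] {r : ℕ} (p : Fin r → ℕ)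
    [∀ t, Fact (p t).Prime] (g : k[X]) (q : ℕ) (x : AlgebraicClosure k) : ℝ :=
  SST.proxK p g q (IntermediateField.adjoin k {x}) (AdjoinSimple.gen k x)

end Pool.Agent.AA
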