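import Pool.Agent.AA.Defs

/-!
# Auxiliary definitions
-/

set_option autoImplicit false

open Polynomial NumberField IntermediateField

namespace Pool.Agent.AA

/-- the algebraic integers in `K` all of whose conjugates have absolute value `< R` -/
def small (K : Type) [Field K] [NumberField K] (R : ℝ) : Set (𝓞 K) :=
  {a | ∀ w : InfinitePlace K, w (a : K) < R}

/-- the monic polynomials `X ^ l + c (l - 2) X ^ (l - 2) + ⋯ + c 0` with small integral
coefficients -/
def polys (L : Type) [Field L] [NumberField L] (l : ℕ) (B : ℝ) : Set (𝓞 L)[X] :=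
  {f | f.Monic ∧ f.natDegree = l ∧ f.coeff (l - 1) = 0 ∧
    ∀ i, i + 2 ≤ l → f.coeff i ∈ small L (B ^ (l - i))}

/-- the distance of the points `(z : 1)` and `(w : 1)` -/
noncomputable def dst {A : Type} [NormedField A] (z w : A) : ℝ :=
  ‖z - w‖ / (max 1 ‖z‖ * max 1 ‖w‖)

/-- minus the logarithm of the distance of the point `(z : 1)` to the zeros of a form -/
noncomputable def lam {A : Type} [NormedField A] (g : A[X]) (q : ℕ) (z : A) : ℝ :=
  -Real.log (‖g.eval z‖ / max 1 ‖z‖ ^ q)

end Pool.Agent.AA
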