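import Pool.Agent.AA.Defs2
import Pool.Agent.RefW.DenIdeal
import Pool.Agent.RefW.NormProd

/-!
# The proximity to `0`, `1`, `∞` is at most three times the height
-/

set_option autoImplicit false

open Polynomial NumberField IntermediateField Module

namespace Pool.Agent.AA

open Pool.Agent.RefW Pool.Agent.SST

private theorem three_intNorm {K : Type} [Field K] [NumberField K] (b : 𝓞 K) :
    Algebra.intNorm ℤ (𝓞 K) b = Algebra.norm ℤ b := by
  have h1 : algebraMap ℤ ℚ (Algebra.intNorm ℤ (𝓞 K) b) = Algebra.norm ℚ (b : K) :=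
    Algebra.algebraMap_intNorm (A := ℤ) (K := ℚ) (L := K) b
  rw [← Algebra.coe_norm_int, eq_intCast] at h1
  exact_mod_cast h1

private theorem three_padic_norm {K : Type} [Field K] [NumberField K] (q : ℕ) [Fact q.Prime]
    (b : 𝓞 K) : ∏ σ : K →+* ℂ_[q], ‖σ (b : K)‖ = ‖((Algebra.norm ℤ b : ℤ) : ℚ_[q])‖ := by
  rw [prodK_norm_prod ℂ_[q] b]
  have h4 : (((Algebra.norm ℤ b : ℤ) : ℚ_[q]) : ℂ_[q]) = ((Algebra.norm ℤ b : ℤ) : ℂ_[q]) :=
    map_intCast (algebraMap ℚ_[q] ℂ_[q]) (Algebra.norm ℤ b)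
  rw [← h4, PadicComplex.norm_extends']

/-- the local bound for the norm of the denominator ideal -/
private theorem three_padic {K : Type} [Field K] [NumberField K] (q : ℕ) [Fact q.Prime] (x : K) :
    ‖((Ideal.absNorm (denIdealOf x) : ℤ) : ℚ_[q])‖ * ∏ σ : K →+* ℂ_[q], max 1 ‖σ x‖ ≤ 1 := by
  classical
  have hmem : ((Ideal.absNorm (denIdealOf x) : ℤ)) ∈ Ideal.relNorm ℤ (denIdealOf x) := by
    rw [Ideal.relNorm_int]
    exact Ideal.mem_span_singleton_self _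
  rw [Ideal.relNorm_apply] at hmem
  have hH : 0 ≤ ∏ σ : K →+* ℂ_[q], max 1 ‖σ x‖ :=
    Finset.prod_nonneg fun σ _ => le_trans zero_le_one (le_max_left _ _)
  generalize (Ideal.absNorm (denIdealOf x) : ℤ) = m at hmem ⊢
  induction hmem using Submodule.span_induction with
  | mem y hy =>
    obtain ⟨b, hb, rfl⟩ := hy
    obtain ⟨t, ht⟩ := hb
    rw [three_intNorm, ← three_padic_norm, ← Finset.prod_mul_distrib]
    refine Finset.prod_le_one (fun σ _ => mul_nonneg (norm_nonneg _)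
      (le_trans zero_le_one (le_max_left _ _))) fun σ _ => ?_
    rw [mul_max_of_nonneg _ _ (norm_nonneg _), mul_one, ← norm_mul, ← map_mul, ← ht]
    exact max_le (norm_le_one_of_ringOfIntegers q σ b) (norm_le_one_of_ringOfIntegers q σ t)
  | zero => simp
  | add a b _ _ ha hb =>
    have h1 : ‖((a + b : ℤ) : ℚ_[q])‖ ≤ max ‖((a : ℤ) : ℚ_[q])‖ ‖((b : ℤ) : ℚ_[q])‖ := by
      rw [Int.cast_add]
      exact IsUltrametricDist.norm_add_le_max _ _
    calc _ ≤ max ‖((a : ℤ) : ℚ_[q])‖ ‖((b : ℤ) : ℚ_[q])‖ * ∏ σ : K →+* ℂ_[q], max 1 ‖σ x‖ :=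
          mul_le_mul_of_nonneg_right h1 hH
      _ ≤ 1 := by
          rw [max_mul_of_nonneg _ _ hH]
          exact max_le ha hb
  | smul r y _ hy =>
    have h1 : ‖((r • y : ℤ) : ℚ_[q])‖ ≤ ‖((y : ℤ) : ℚ_[q])‖ := by
      rw [smul_eq_mul, Int.cast_mul, norm_mul]
      calc _ ≤ 1 * ‖((y : ℤ) : ℚ_[q])‖ :=
            mul_le_mul_of_nonneg_right (Padic.norm_int_le_one _) (norm_nonneg _)
        _ = _ := one_mul _
    exact (mul_le_mul_of_nonneg_right h1 hH).trans hy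

/-- an integral ideal -/
private theorem three_ideal {K : Type} [Field K] [NumberField K] (x : K) (u v : 𝓞 K)
    (huv : (u : K) = (v : K) * (x * (x - 1))) :
    ∃ J : Ideal (𝓞 K), Ideal.span {v} * J = Ideal.span {u} * (denIdealOf x) ^ 3 := by
  have hdvd : Ideal.span {v} ∣ Ideal.span {u} * (denIdealOf x) ^ 3 := by
    rw [Ideal.dvd_iff_le]
    have e : Ideal.span {u} * (denIdealOf x) ^ 3 =
        Ideal.span {u} * (denIdealOf x * denIdealOf x * denIdealOf x) := by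
      congr 1
      ring
    rw [e, Ideal.mul_le]
    intro r hr s hs
    obtain ⟨c, rfl⟩ := Ideal.mem_span_singleton.1 hr
    induction hs using Submodule.mul_induction_on' with
    | mem_mul_mem m hm n hn =>
      induction hm using Submodule.mul_induction_on' with
      | mem_mul_mem a ha b hb =>
        obtain ⟨s1, hs1⟩ := ha
        obtain ⟨s2, hs2⟩ := hb
        rw [Ideal.mem_span_singleton]
        refine ⟨c * s1 * (s2 - b) * n, ?_⟩
        apply FaithfulSMul.algebraMap_injective (𝓞 K) K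
        have e1 : algebraMap (𝓞 K) K u = (u : K) := rfl
        have e2 : algebraMap (𝓞 K) K v = (v : K) := rfl
        have e3 : algebraMap (𝓞 K) K s1 = (a : K) * x := hs1
        have e4 : algebraMap (𝓞 K) K s2 = (b : K) * x := hs2
        rw [map_mul, map_mul, map_mul, map_mul, map_mul, map_mul, map_mul, map_mul, map_sub, e1,
          e2, e3, e4, huv]
        ring
      | add m _ m' _ h1 h2 =>
        have : u * c * ((m + m') * n) = u * c * (m * n) + u * c * (m' * n) := by ring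
        rw [this]
        exact Ideal.add_mem _ h1 h2
    | add m _ m' _ h1 h2 =>
      rw [mul_add]
      exact Ideal.add_mem _ h1 h2
  obtain ⟨J, hJ⟩ := hdvd
  exact ⟨J, hJ.symm⟩

theorem prox_le (K : Type) [Field K] [NumberField K] {r : ℕ} (p : Fin r → ℕ)
    [∀ t, Fact (p t).Prime] (hp : Function.Injective p) (x : K) (hx0 : x ≠ 0) (hx1 : x ≠ 1) :
    SST.proxK p (X * (X - 1) : ℚ[X]) 3 K x ≤ 3 * SST.ht K x := by
  classical
  have hx1' : x - 1 ≠ 0 := sub_ne_zero.2 hx1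
  have hxx : x * (x - 1) ≠ 0 := mul_ne_zero hx0 hx1'
  obtain ⟨u, v, hv, huv⟩ := IsFractionRing.div_surjective (A := 𝓞 K) (x * (x - 1))
  have hv0 : v ≠ 0 := nonZeroDivisors.ne_zero hv
  have hvK : (v : K) ≠ 0 := by
    intro h
    exact hv0 (by exact_mod_cast h)
  have huK : (u : K) = (v : K) * (x * (x - 1)) := by
    rw [← huv]
    exact (mul_div_cancel₀ _ hvK).symm
  have hu0 : u ≠ 0 := by
    rintro rfl
    exact (mul_ne_zero hvK hxx) (huK.symm.trans (map_zero (algebraMap (𝓞 K) K)))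
  obtain ⟨J, hJ⟩ := three_ideal x u v huK
  obtain ⟨hden0, hden⟩ := denIdeal_norm_le x
  set A : ℕ := Ideal.absNorm (denIdealOf x) with hA
  have hA0 : A ≠ 0 := by
    rw [hA, Ne, Ideal.absNorm_eq_zero_iff]
    exact hden0
  -- norms
  have hN : (Algebra.norm ℤ v).natAbs * Ideal.absNorm J = (Algebra.norm ℤ u).natAbs * A ^ 3 := by
    have h1 := congrArg Ideal.absNorm hJ
    rwa [map_mul, map_mul, Ideal.absNorm_span_singleton, Ideal.absNorm_span_singleton,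
      map_pow] at h1
  have hNu : Algebra.norm ℤ u ≠ 0 := Algebra.norm_ne_zero_iff.2 hu0
  have hNv : Algebra.norm ℤ v ≠ 0 := Algebra.norm_ne_zero_iff.2 hv0
  set M : ℕ := Ideal.absNorm J with hM
  have hM0 : M ≠ 0 := by
    intro h
    rw [h, mul_zero] at hN
    exact (mul_ne_zero (Int.natAbs_ne_zero.2 hNu) (pow_ne_zero 3 hA0)) hN.symm
  have hone := sk_prod_ge p hp (M : ℤ) (by exact_mod_cast hM0)
  -- the infinite part
  have hinf : (M : ℝ) = (∏ σ : K →+* ℂ, ‖σ (x * (x - 1))‖) * (A : ℝ) ^ 3 := by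
    have h1 := prodK_norm_prod ℂ u
    have h2 := prodK_norm_prod ℂ v
    rw [Complex.norm_intCast] at h1 h2
    have h3 : ∏ σ : K →+* ℂ, ‖σ (u : K)‖ =
        (∏ σ : K →+* ℂ, ‖σ (v : K)‖) * ∏ σ : K →+* ℂ, ‖σ (x * (x - 1))‖ := by
      rw [← Finset.prod_mul_distrib]
      refine Finset.prod_congr rfl fun σ _ => ?_
      rw [huK, map_mul, norm_mul]
    rw [h1, h2] at h3
    have h4 : |((Algebra.norm ℤ v : ℤ) : ℝ)| * (M : ℝ) =
        |((Algebra.norm ℤ u : ℤ) : ℝ)| * (A : ℝ) ^ 3 := by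
      have h5 : (((Algebra.norm ℤ v).natAbs * M : ℕ) : ℝ) =
          (((Algebra.norm ℤ u).natAbs * A ^ 3 : ℕ) : ℝ) := by rw [hN]
      push_cast [Nat.cast_natAbs] at h5
      exact h5
    have h6 : |((Algebra.norm ℤ v : ℤ) : ℝ)| ≠ 0 := by
      rw [abs_ne_zero]
      exact_mod_cast hNv
    apply mul_left_cancel₀ h6
    rw [h4, h3]
    ring
  -- the finite parts
  have hfin : ∀ t, ‖((M : ℤ) : ℚ_[p t])‖ =
      (∏ σ : K →+* ℂ_[p t], ‖σ (x * (x - 1))‖) * ‖((A : ℤ) : ℚ_[p t])‖ ^ 3 := by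
    intro t
    have h1 := three_padic_norm (p t) u
    have h2 := three_padic_norm (p t) v
    have h3 : ∏ σ : K →+* ℂ_[p t], ‖σ (u : K)‖ =
        (∏ σ : K →+* ℂ_[p t], ‖σ (v : K)‖) * ∏ σ : K →+* ℂ_[p t], ‖σ (x * (x - 1))‖ := by
      rw [← Finset.prod_mul_distrib]
      refine Finset.prod_congr rfl fun σ _ => ?_
      rw [huK, map_mul, norm_mul]
    rw [h1, h2] at h3
    have habs : ∀ m : ℤ, ‖((m.natAbs : ℕ) : ℚ_[p t])‖ = ‖(m : ℚ_[p t])‖ := by
      intro m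
      rcases Int.natAbs_eq m with h | h
      · conv_rhs => rw [h]
        rw [Int.cast_natCast]
      · conv_rhs => rw [h]
        rw [Int.cast_neg, Int.cast_natCast, norm_neg]
    have h4 : ‖((Algebra.norm ℤ v : ℤ) : ℚ_[p t])‖ * ‖((M : ℤ) : ℚ_[p t])‖ =
        ‖((Algebra.norm ℤ u : ℤ) : ℚ_[p t])‖ * ‖((A : ℤ) : ℚ_[p t])‖ ^ 3 := by
      have h5 : ‖(((Algebra.norm ℤ v).natAbs * M : ℕ) : ℚ_[p t])‖ =
          ‖(((Algebra.norm ℤ u).natAbs * A ^ 3 : ℕ) : ℚ_[p t])‖ := by rw [hN]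
      rw [Nat.cast_mul, Nat.cast_mul, norm_mul, norm_mul, habs, habs, Nat.cast_pow,
        norm_pow] at h5
      rw [Int.cast_natCast, Int.cast_natCast]
      exact h5
    have h6 : ‖((Algebra.norm ℤ v : ℤ) : ℚ_[p t])‖ ≠ 0 := by
      rw [norm_ne_zero_iff]
      exact_mod_cast hNv
    apply mul_left_cancel₀ h6
    rw [h4, h3]
    ring
  -- positivity
  have hEpos : 0 < ∏ σ : K →+* ℂ, ‖σ (x * (x - 1))‖ :=
    Finset.prod_pos fun σ _ => norm_pos_iff.2 ((map_ne_zero σ).2 hxx)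
  have hEpos' : ∀ t, 0 < ∏ σ : K →+* ℂ_[p t], ‖σ (x * (x - 1))‖ := fun t =>
    Finset.prod_pos fun σ _ => norm_pos_iff.2 ((map_ne_zero σ).2 hxx)
  have hHpos : 0 < ∏ σ : K →+* ℂ, max 1 ‖σ x‖ :=
    Finset.prod_pos fun σ _ => lt_of_lt_of_le zero_lt_one (le_max_left _ _)
  have hHpos' : ∀ t, 0 < ∏ σ : K →+* ℂ_[p t], max 1 ‖σ x‖ := fun t =>
    Finset.prod_pos fun σ _ => lt_of_lt_of_le zero_lt_one (le_max_left _ _)
  have hApos : (0 : ℝ) < A := by exact_mod_cast Nat.pos_of_ne_zero hA0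
  have hApos' : ∀ t, 0 < ‖((A : ℤ) : ℚ_[p t])‖ := fun t => by
    rw [norm_pos_iff]
    exact_mod_cast hA0
  -- logarithms
  have hlog : 0 ≤ Real.log (∏ σ : K →+* ℂ, ‖σ (x * (x - 1))‖) + 3 * Real.log A +
      ∑ t, (Real.log (∏ σ : K →+* ℂ_[p t], ‖σ (x * (x - 1))‖) +
        3 * Real.log ‖((A : ℤ) : ℚ_[p t])‖) := by
    have h0 : ((3 : ℕ) : ℝ) = 3 := by norm_num
    have h1 := Real.log_nonneg hone
    have h2 : |((M : ℤ) : ℝ)| = (∏ σ : K →+* ℂ, ‖σ (x * (x - 1))‖) * (A : ℝ) ^ 3 := by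
      rw [← hinf, Int.cast_natCast, Nat.abs_cast]
    rw [h2, Finset.prod_congr rfl fun t _ => hfin t] at h1
    rw [Real.log_mul (mul_pos hEpos (pow_pos hApos 3)).ne'
      (Finset.prod_ne_zero_iff.2 fun t _ => (mul_pos (hEpos' t) (pow_pos (hApos' t) 3)).ne'),
      Real.log_mul hEpos.ne' (pow_pos hApos 3).ne', Real.log_pow,
      Real.log_prod (fun t _ => (mul_pos (hEpos' t) (pow_pos (hApos' t) 3)).ne')] at h1
    have h3 : ∀ t, Real.log ((∏ σ : K →+* ℂ_[p t], ‖σ (x * (x - 1))‖) *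
        ‖((A : ℤ) : ℚ_[p t])‖ ^ 3) = Real.log (∏ σ : K →+* ℂ_[p t], ‖σ (x * (x - 1))‖) +
        3 * Real.log ‖((A : ℤ) : ℚ_[p t])‖ := by
      intro t
      rw [Real.log_mul (hEpos' t).ne' (pow_pos (hApos' t) 3).ne', Real.log_pow, h0]
    rw [Finset.sum_congr rfl fun t _ => h3 t, h0] at h1
    exact h1
  have hA1 : Real.log A + Real.log (∏ σ : K →+* ℂ, max 1 ‖σ x‖) ≤ Height.logHeight₁ x := by
    rw [← Real.log_mul hApos.ne' hHpos.ne', Height.logHeight₁_eq_log_mulHeight₁]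
    exact Real.log_le_log (mul_pos hApos hHpos) hden
  have hA2 : ∀ t, Real.log ‖((A : ℤ) : ℚ_[p t])‖ +
      Real.log (∏ σ : K →+* ℂ_[p t], max 1 ‖σ x‖) ≤ 0 := by
    intro t
    rw [← Real.log_mul (hApos' t).ne' (hHpos' t).ne']
    exact Real.log_nonpos (mul_pos (hApos' t) (hHpos' t)).le (three_padic (p t) x)
  -- the sums
  have haev : aeval x (X * (X - 1) : ℚ[X]) = x * (x - 1) := by simp
  have hsum : ∀ {B : Type} [NormedField B] [Fintype (K →+* B)],
      ∑ σ : K →+* B, -Real.log (‖σ (x * (x - 1))‖ / max 1 ‖σ x‖ ^ 3) =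
        -Real.log (∏ σ : K →+* B, ‖σ (x * (x - 1))‖) +
          3 * Real.log (∏ σ : K →+* B, max 1 ‖σ x‖) := by
    intro B _ _
    have h1 : ∀ σ : K →+* B, ‖σ (x * (x - 1))‖ ≠ 0 := fun σ =>
      norm_ne_zero_iff.2 ((map_ne_zero σ).2 hxx)
    have h2 : ∀ σ : K →+* B, max 1 ‖σ x‖ ≠ 0 := fun σ =>
      (lt_of_lt_of_le zero_lt_one (le_max_left _ _)).ne'
    rw [Real.log_prod fun σ _ => h1 σ, Real.log_prod fun σ _ => h2 σ, Finset.mul_sum,
      ← Finset.sum_neg_distrib, ← Finset.sum_add_distrib]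
    refine Finset.sum_congr rfl fun σ _ => ?_
    rw [Real.log_div (h1 σ) (pow_ne_zero 3 (h2 σ)), Real.log_pow]
    push_cast
    ring
  unfold proxK ht
  rw [haev, hsum, Finset.sum_congr rfl fun t _ => hsum, ← mul_div_assoc]
  have hn : (0 : ℝ) < Module.finrank ℚ K := by exact_mod_cast Module.finrank_pos
  refine div_le_div_of_nonneg_right ?_ hn.le
  have h8 : ∑ t, (-Real.log (∏ σ : K →+* ℂ_[p t], ‖σ (x * (x - 1))‖) +
      3 * Real.log (∏ σ : K →+* ℂ_[p t], max 1 ‖σ x‖)) ≤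
      -∑ t, (Real.log (∏ σ : K →+* ℂ_[p t], ‖σ (x * (x - 1))‖) +
        3 * Real.log ‖((A : ℤ) : ℚ_[p t])‖) := by
    rw [← Finset.sum_neg_distrib]
    refine Finset.sum_le_sum fun t _ => ?_
    have := hA2 t
    linarith
  linarith

end Pool.Agent.AA
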