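import Pool.Agent.AA.Tower

/-!
# A maximal proper subfield
-/

set_option autoImplicit false

open Polynomial NumberField IntermediateField Module

namespace Pool.Agent.AA

/-- a maximal proper subfield -/
theorem exists_max_sub (k Ω : Type) [Field k] [NumberField k] [Field Ω] [Algebra k Ω]
    (F : IntermediateField k Ω) (n : ℕ) (hn : 2 ≤ n) (hF : finrank k F = n) (hNF : NumberField F)
    (Y : ℝ) (hY : |(discr F : ℝ)| ≤ Y) :
    ∃ (L : IntermediateField k Ω) (l : ℕ) (F' : IntermediateField L Ω), 2 ≤ l ∧
      finrank k L * l = n ∧ F'.restrictScalars k = F ∧ finrank L F' = l ∧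
      (∀ E : IntermediateField L Ω, E ≤ F' → E = ⊥ ∨ E = F') ∧
      (∃ _ : NumberField F', |(discr F' : ℝ)| ≤ Y) ∧
      ∃ _ : NumberField L, |(discr L : ℝ)| ≤ Y ^ (1 / (l : ℝ)) := by
  have hfd : FiniteDimensional k F := FiniteDimensional.of_finrank_pos (by omega)
  have hbot : (⊥ : IntermediateField k Ω) < F := by
    rw [bot_lt_iff_ne_bot]
    intro h
    rw [h, IntermediateField.finrank_bot] at hF
    omega
  obtain ⟨L, hL, hmax⟩ := WellFounded.has_min
    (measure (fun E : IntermediateField k Ω => n - finrank k E)).wf {E | E < F} ⟨⊥, hbot⟩
  have hLF : L < F := hL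
  have hfin : ∀ E : IntermediateField k Ω, E ≤ F → finrank k E ≤ n := by
    intro E hE
    rw [← hF]
    exact LinearMap.finrank_le_finrank_of_injective
      (f := (IntermediateField.inclusion hE).toLinearMap) (IntermediateField.inclusion_injective hE)
  have hmax' : ∀ E : IntermediateField k Ω, E < F → finrank k E ≤ finrank k L := by
    intro E hE
    have h1 : ¬ (n - finrank k E < n - finrank k L) := hmax E hE
    have h2 := hfin E hE.le
    omega
  have hfdL : FiniteDimensional k L := by
    exact FiniteDimensional.of_injective (IntermediateField.inclusion hLF.le).toLinearMap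
      (IntermediateField.inclusion_injective hLF.le)
  set F' : IntermediateField L Ω := IntermediateField.extendScalars hLF.le with hF'
  have hres : F'.restrictScalars k = F := IntermediateField.extendScalars_restrictScalars hLF.le
  have hfr : finrank k F' = n := hF
  have hmul : finrank k L * finrank L F' = n := by
    rw [← hfr]
    exact Module.finrank_mul_finrank k L F'
  have hbotL : (⊥ : IntermediateField L Ω).restrictScalars k = L :=
    IntermediateField.restrictScalars_bot_eq_self L
  have hne : F' ≠ ⊥ := by
    intro h
    apply hLF.ne
    rw [← hres, h]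
    exact hbotL.symm
  have hl1 : finrank L F' ≠ 1 := by
    intro h
    exact hne (IntermediateField.finrank_eq_one_iff.1 h)
  have hl0 : finrank L F' ≠ 0 := by
    intro h
    rw [h, mul_zero] at hmul
    omega
  have hprim : ∀ E : IntermediateField L Ω, E ≤ F' → E = ⊥ ∨ E = F' := by
    intro E hE
    by_cases hEF : E = F'
    · exact Or.inr hEF
    · left
      have h1 : E.restrictScalars k < F := by
        refine lt_of_le_of_ne hE ?_
        intro h
        apply hEF
        apply IntermediateField.restrictScalars_injective k
        rw [h, hres]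
      have h2 : L ≤ E.restrictScalars k := fun x hx => E.algebraMap_mem ⟨x, hx⟩
      have h3 : FiniteDimensional k (E.restrictScalars k) :=
        FiniteDimensional.of_injective (IntermediateField.inclusion h1.le).toLinearMap
          (IntermediateField.inclusion_injective h1.le)
      have h4 : L = E.restrictScalars k :=
        IntermediateField.eq_of_le_of_finrank_le h2 (hmax' _ h1)
      apply IntermediateField.restrictScalars_injective k
      rw [← h4, hbotL]
  have hNL : NumberField L := NumberField.of_module_finite k L
  let e : F ≃+* F' := RingEquiv.refl F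
  have hNF' : NumberField F' := NumberField.of_ringEquiv _ _ e
  have hd : discr F = discr F' := NumberField.discr_eq_discr_of_ringEquiv F e
  refine ⟨L, finrank L F', F', by omega, hmul, hres, rfl, hprim, ⟨hNF', by rw [← hd]; exact hY⟩,
    hNL, ?_⟩
  have h1 := discr_pow_le L F'
  rw [← hd] at h1
  have h2 := h1.trans hY
  have h3 : |(discr L : ℝ)| = (|(discr L : ℝ)| ^ finrank L F') ^ (1 / (finrank L F' : ℝ)) := by
    rw [one_div, Real.pow_rpow_inv_natCast (abs_nonneg _) hl0]
  rw [h3]
  exact Real.rpow_le_rpow (by positivity) h2 (by positivity)

end Pool.Agent.AA
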