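import Pool.Agent.AA.Prim
import Pool.Agent.AA.MaxSub
import Mathlib.Data.Set.Card.Arithmetic

/-!
# The number of fields of given degree and bounded discriminant
-/

set_option autoImplicit false

open Polynomial NumberField IntermediateField Module

namespace Pool.Agent.AA

private lemma finrank_eq (k L : Type) [Field k] [NumberField k] [Field L] [NumberField L]
    [Algebra k L] : finrank ℚ L = finrank ℚ k * finrank k L :=
  (finrank_mul_finrank ℚ k L).symm

private lemma bunion {ι α : Type} {S : Set ι} (hS : S.Finite) {f : ι → Set α} {a b : ℝ}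
    (hb : 0 ≤ b) (hf : ∀ i ∈ S, (f i).Finite ∧ ((f i).ncard : ℝ) ≤ b) (ha : (S.ncard : ℝ) ≤ a) :
    (⋃ i ∈ S, f i).Finite ∧ ((⋃ i ∈ S, f i).ncard : ℝ) ≤ a * b := by
  refine ⟨hS.biUnion fun i hi => (hf i hi).1, ?_⟩
  have h1 := hS.toFinset.set_ncard_biUnion_le f
  simp only [Set.Finite.mem_toFinset] at h1
  calc ((⋃ i ∈ S, f i).ncard : ℝ) ≤ ((∑ i ∈ hS.toFinset, (f i).ncard : ℕ) : ℝ) := by
        exact_mod_cast h1
    _ = ∑ i ∈ hS.toFinset, ((f i).ncard : ℝ) := by push_cast; rfl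
    _ ≤ ∑ i ∈ hS.toFinset, b :=
        Finset.sum_le_sum fun i hi => (hf i (hS.mem_toFinset.1 hi)).2
    _ = (S.ncard : ℝ) * b := by
        rw [Finset.sum_const, nsmul_eq_mul, Set.ncard_eq_toFinset_card S hS]
    _ ≤ a * b := mul_le_mul_of_nonneg_right ha hb

/-- the exponent -/
private noncomputable def ex (n : ℕ) : ℝ := if n = 1 then 0 else ((n : ℝ) + 2) / 4

private lemma ex_nonneg (n : ℕ) : 0 ≤ ex n := by
  unfold ex
  split_ifs
  · exact le_rfl
  · positivity

private lemma ex_le {m l n : ℕ} (hl : 2 ≤ l) (hm : 1 ≤ m) (h : m * l = n) :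
    1 / (l : ℝ) * ex m + ((l : ℝ) + 2) / 4 ≤ ((n : ℝ) + 2) / 4 := by
  have hl' : (2 : ℝ) ≤ l := by exact_mod_cast hl
  have hl0 : (0 : ℝ) < l := by linarith
  unfold ex
  split_ifs with h1
  · subst h1
    rw [one_mul] at h
    rw [← h]
    linarith
  · have hm2 : 2 ≤ m := by omega
    have hm' : (2 : ℝ) ≤ m := by exact_mod_cast hm2
    have hn : (n : ℝ) = m * l := by rw [← h]; push_cast; rfl
    have h2 : 1 / (l : ℝ) * (((m : ℝ) + 2) / 4) ≤ 1 / 2 * (((m : ℝ) + 2) / 4) := by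
      apply mul_le_mul_of_nonneg_right _ (by positivity)
      exact one_div_le_one_div_of_le (by norm_num) hl'
    rw [hn]
    nlinarith

private def flds (k Ω : Type) [Field k] [NumberField k] [Field Ω] [Algebra k Ω] (n : ℕ) (Y : ℝ) :
    Set (IntermediateField k Ω) :=
  {F | finrank k F = n ∧ ∃ _ : NumberField F, |(discr F : ℝ)| ≤ Y}

private def prims (L Ω : Type) [Field L] [Field Ω] [Algebra L Ω] (l : ℕ) (Y : ℝ) :
    Set (IntermediateField L Ω) :=
  {F | finrank L F = l ∧ (∀ E : IntermediateField L Ω, E ≤ F → E = ⊥ ∨ E = F) ∧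
    ∃ _ : NumberField F, |(discr F : ℝ)| ≤ Y}

private lemma step (k Ω : Type) [Field k] [NumberField k] [Field Ω] [Algebra k Ω] {m l n : ℕ}
    (hl : 2 ≤ l) (hm : 1 ≤ m) (h : m * l = n) {C : ℝ} (hC : 1 ≤ C) (hS : ∀ Y : ℝ, 1 ≤ Y →
      (flds k Ω m Y).Finite ∧ ((flds k Ω m Y).ncard : ℝ) ≤ C * Y ^ ex m) :
    ∃ C' : ℝ, 1 ≤ C' ∧ ∀ Y : ℝ, 1 ≤ Y →
      (⋃ L ∈ flds k Ω m (Y ^ (1 / (l : ℝ))),
        (fun F' : IntermediateField L Ω => F'.restrictScalars k) '' prims L Ω l Y).Finite ∧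
      ((⋃ L ∈ flds k Ω m (Y ^ (1 / (l : ℝ))),
        (fun F' : IntermediateField L Ω => F'.restrictScalars k) '' prims L Ω l Y).ncard : ℝ) ≤
        C' * Y ^ (((n : ℝ) + 2) / 4) := by
  have hk : 0 < finrank ℚ k := finrank_pos
  obtain ⟨C₁, hC₁, h₁⟩ := prim_count (finrank ℚ k * m) l (by positivity) hl
  refine ⟨C * C₁, one_le_mul_of_one_le_of_one_le hC hC₁, fun Y hY => ?_⟩
  have hY0 : 0 < Y := by linarith
  have hY' : 1 ≤ Y ^ (1 / (l : ℝ)) := Real.one_le_rpow hY (by positivity)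
  obtain ⟨hfin, hcard⟩ := hS _ hY'
  have h2 := bunion (f := fun L : IntermediateField k Ω =>
    (fun F' : IntermediateField L Ω => F'.restrictScalars k) '' prims L Ω l Y)
    (b := C₁ * Y ^ (((l : ℝ) + 2) / 4)) hfin (by positivity) ?_ hcard
  · refine ⟨h2.1, h2.2.trans ?_⟩
    rw [← Real.rpow_mul hY0.le]
    have h3 : C * Y ^ (1 / (l : ℝ) * ex m) * (C₁ * Y ^ (((l : ℝ) + 2) / 4)) =
        C * C₁ * Y ^ (1 / (l : ℝ) * ex m + ((l : ℝ) + 2) / 4) := by
      rw [Real.rpow_add hY0]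
      ring
    rw [h3]
    exact mul_le_mul_of_nonneg_left (Real.rpow_le_rpow_of_exponent_le hY (ex_le hl hm h))
      (by positivity)
  · rintro L ⟨hL, hNL, -⟩
    have h3 : finrank ℚ L = finrank ℚ k * m := by
      rw [finrank_eq k L, hL]
    obtain ⟨hf, hc⟩ := h₁ L Ω h3 Y hY
    change (prims L Ω l Y).Finite at hf
    change ((prims L Ω l Y).ncard : ℝ) ≤ _ at hc
    refine ⟨hf.image _, ?_⟩
    calc _ ≤ ((prims L Ω l Y).ncard : ℝ) := by
          exact_mod_cast Set.ncard_image_le hf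
      _ ≤ _ := hc

/-- Schmidt's bound for the number of fields of given degree and bounded discriminant -/
private lemma field_count' (k Ω : Type) [Field k] [NumberField k] [Field Ω] [Algebra k Ω] (n : ℕ) :
    1 ≤ n → ∃ C : ℝ, 1 ≤ C ∧ ∀ Y : ℝ, 1 ≤ Y →
      (flds k Ω n Y).Finite ∧ ((flds k Ω n Y).ncard : ℝ) ≤ C * Y ^ ex n := by
  classical
  induction n using Nat.strong_induction_on with
  | _ n ih =>
    intro hn
    rcases Nat.lt_or_ge n 2 with h | hn2
    · have h1 : n = 1 := by omega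
      subst h1
      refine ⟨1, le_rfl, fun Y _ => ?_⟩
      have hsub : flds k Ω 1 Y ⊆ {⊥} := by
        rintro F ⟨hF, -⟩
        exact IntermediateField.finrank_eq_one_iff.1 hF
      refine ⟨(Set.finite_singleton _).subset hsub, ?_⟩
      have h2 := Set.ncard_le_ncard hsub (Set.finite_singleton _)
      rw [Set.ncard_singleton] at h2
      have h3 : ex 1 = 0 := by simp [ex]
      rw [h3, Real.rpow_zero, one_mul]
      exact_mod_cast h2
    · have hex : ex n = ((n : ℝ) + 2) / 4 := by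
        unfold ex
        rw [if_neg (by omega)]
      -- the possible degrees over the maximal subfield
      have hstep : ∀ l : ℕ, ∃ C' : ℝ, 1 ≤ C' ∧ (l ∣ n → 2 ≤ l → ∀ Y : ℝ, 1 ≤ Y →
          (⋃ L ∈ flds k Ω (n / l) (Y ^ (1 / (l : ℝ))),
            (fun F' : IntermediateField L Ω => F'.restrictScalars k) '' prims L Ω l Y).Finite ∧
          ((⋃ L ∈ flds k Ω (n / l) (Y ^ (1 / (l : ℝ))),
            (fun F' : IntermediateField L Ω => F'.restrictScalars k) '' prims L Ω l Y).ncard :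
              ℝ) ≤ C' * Y ^ (((n : ℝ) + 2) / 4)) := by
        intro l
        by_cases hl : l ∣ n ∧ 2 ≤ l
        · have h1 : n / l * l = n := Nat.div_mul_cancel hl.1
          have h2 : 1 ≤ n / l := Nat.div_pos (Nat.le_of_dvd (by omega) hl.1) (by omega)
          have h3 : n / l < n := Nat.div_lt_self (by omega) (by omega)
          obtain ⟨C, hC, hS⟩ := ih _ h3 h2
          obtain ⟨C', hC', h4⟩ := step k Ω hl.2 h2 h1 hC hS
          exact ⟨C', hC', fun _ _ => h4⟩
        · exact ⟨1, le_rfl, fun h1 h2 => absurd ⟨h1, h2⟩ hl⟩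
      choose C' hC' h' using hstep
      set D : Finset ℕ := n.divisors.filter (2 ≤ ·) with hD
      refine ⟨1 + ∑ l ∈ D, C' l, ?_, fun Y hY => ?_⟩
      · have : 0 ≤ ∑ l ∈ D, C' l := Finset.sum_nonneg fun l _ => by linarith [hC' l]
        linarith
      have hY0 : 0 < Y := by linarith
      have hsub : flds k Ω n Y ⊆ ⋃ l ∈ D, ⋃ L ∈ flds k Ω (n / l) (Y ^ (1 / (l : ℝ))),
          (fun F' : IntermediateField L Ω => F'.restrictScalars k) '' prims L Ω l Y := by
        rintro F ⟨hF, hNF, hdF⟩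
        obtain ⟨L, l, F', hl, hLl, hF', hfr, hmin, hNF', hNL⟩ :=
          exists_max_sub k Ω F n hn2 hF hNF Y hdF
        have hln : l ∣ n := ⟨finrank k L, by rw [← hLl]; ring⟩
        have hdiv : n / l = finrank k L := by
          rw [← hLl]
          exact Nat.mul_div_cancel _ (by omega)
        have hlD : l ∈ D := by
          rw [hD, Finset.mem_filter, Nat.mem_divisors]
          exact ⟨⟨hln, by omega⟩, hl⟩
        refine Set.mem_biUnion (x := l) (by exact_mod_cast hlD) ?_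
        refine Set.mem_biUnion (x := L) ⟨hdiv.symm, hNL⟩ ?_
        exact ⟨F', ⟨hfr, hmin, hNF'⟩, hF'⟩
      have hfin : (⋃ l ∈ D, ⋃ L ∈ flds k Ω (n / l) (Y ^ (1 / (l : ℝ))),
          (fun F' : IntermediateField L Ω => F'.restrictScalars k) '' prims L Ω l Y).Finite := by
        refine D.finite_toSet.biUnion fun l hl => ?_
        have hl' : l ∈ D := by exact_mod_cast hl
        rw [hD, Finset.mem_filter, Nat.mem_divisors] at hl'
        exact (h' l hl'.1.1 hl'.2 Y hY).1
      refine ⟨hfin.subset hsub, ?_⟩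
      rw [hex]
      calc ((flds k Ω n Y).ncard : ℝ) ≤ ((⋃ l ∈ D, ⋃ L ∈ flds k Ω (n / l) (Y ^ (1 / (l : ℝ))),
          (fun F' : IntermediateField L Ω => F'.restrictScalars k) '' prims L Ω l Y).ncard :
            ℝ) := by
            exact_mod_cast Set.ncard_le_ncard hsub hfin
        _ ≤ ((∑ l ∈ D, (⋃ L ∈ flds k Ω (n / l) (Y ^ (1 / (l : ℝ))),
          (fun F' : IntermediateField L Ω => F'.restrictScalars k) '' prims L Ω l Y).ncard : ℕ) :
            ℝ) := by
            exact_mod_cast D.set_ncard_biUnion_le _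
        _ = ∑ l ∈ D, ((⋃ L ∈ flds k Ω (n / l) (Y ^ (1 / (l : ℝ))),
          (fun F' : IntermediateField L Ω => F'.restrictScalars k) '' prims L Ω l Y).ncard :
            ℝ) := by push_cast; rfl
        _ ≤ ∑ l ∈ D, C' l * Y ^ (((n : ℝ) + 2) / 4) := by
            refine Finset.sum_le_sum fun l hl => ?_
            rw [hD, Finset.mem_filter, Nat.mem_divisors] at hl
            exact (h' l hl.1.1 hl.2 Y hY).2
        _ ≤ (1 + ∑ l ∈ D, C' l) * Y ^ (((n : ℝ) + 2) / 4) := by
            rw [← Finset.sum_mul]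
            apply mul_le_mul_of_nonneg_right _ (by positivity)
            linarith

/-- Schmidt's bound for the number of fields of given degree and bounded discriminant -/
theorem field_count (k Ω : Type) [Field k] [NumberField k] [Field Ω] [Algebra k Ω] (n : ℕ)
    (hn : 2 ≤ n) : ∃ C : ℝ, 1 ≤ C ∧ ∀ Y : ℝ, 1 ≤ Y →
    {F : IntermediateField k Ω | finrank k F = n ∧
      ∃ _ : NumberField F, |(discr F : ℝ)| ≤ Y}.Finite ∧
    ({F : IntermediateField k Ω | finrank k F = n ∧
      ∃ _ : NumberField F, |(discr F : ℝ)| ≤ Y}.ncard : ℝ) ≤ C * Y ^ (((n : ℝ) + 2) / 4) := by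
  obtain ⟨C, hC, h⟩ := field_count' k Ω n (by omega)
  have hex : ex n = ((n : ℝ) + 2) / 4 := by
    unfold ex
    rw [if_neg (by omega)]
  rw [hex] at h
  exact ⟨C, hC, h⟩

end Pool.Agent.AA
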