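import Pool.Agent.AA.Gap
import Pool.Agent.AA.Fields

/-!
# AA: the upper bound for the number of violators
-/

set_option autoImplicit false

open Polynomial NumberField IntermediateField Module

namespace Pool.Agent.AA

namespace UpperAux

theorem ncard_le_of_fiber {α β : Type} (S : Set α) (f : α → β) (T : Set β) (hT : T.Finite)
    (hf : ∀ x ∈ S, f x ∈ T) (M : ℝ)
    (hM : ∀ b ∈ T, (S ∩ f ⁻¹' {b}).Finite ∧ ((S ∩ f ⁻¹' {b}).ncard : ℝ) ≤ M) :
    S.Finite ∧ (S.ncard : ℝ) ≤ T.ncard * M := by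
  classical
  have hS : S.Finite := by
    have h1 : S ⊆ ⋃ b ∈ T, S ∩ f ⁻¹' {b} := by
      intro x hx
      simp only [Set.mem_iUnion]
      exact ⟨f x, hf x hx, hx, rfl⟩
    exact (hT.biUnion fun b hb => (hM b hb).1).subset h1
  refine ⟨hS, ?_⟩
  rw [Set.ncard_eq_toFinset_card S hS, Set.ncard_eq_toFinset_card T hT]
  have h2 : ∀ x ∈ hS.toFinset, f x ∈ hT.toFinset := by
    intro x hx
    rw [Set.Finite.mem_toFinset] at hx ⊢
    exact hf x hx
  rw [Finset.card_eq_sum_card_fiberwise h2, Nat.cast_sum]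
  calc ∑ b ∈ hT.toFinset, ((hS.toFinset.filter fun a => f a = b).card : ℝ)
      ≤ ∑ b ∈ hT.toFinset, M := by
        refine Finset.sum_le_sum fun b hb => ?_
        rw [Set.Finite.mem_toFinset] at hb
        have h3 := (hM b hb).2
        rw [Set.ncard_eq_toFinset_card _ (hM b hb).1] at h3
        have h4 : (hS.toFinset.filter fun a => f a = b) = (hM b hb).1.toFinset := by
          ext a
          simp
        rw [h4]
        exact h3
    _ = hT.toFinset.card * M := by rw [Finset.sum_const, nsmul_eq_mul]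

theorem transfer {k : Type} [Field k] [NumberField k] {r : ℕ} (p : Fin r → ℕ)
    [∀ t, Fact (p t).Prime] (g : k[X]) (q : ℕ) (F : IntermediateField k (AlgebraicClosure k))
    [NumberField F] (x : AlgebraicClosure k) (hx : IntermediateField.adjoin k {x} = F) :
    ∃ y : F, (y : AlgebraicClosure k) = x ∧ height x = SST.ht F y ∧
      proximity p g q x = SST.proxK p g q F y ∧ logDiscr x = SST.logDisc F := by
  subst hx
  exact ⟨AdjoinSimple.gen k x, AdjoinSimple.coe_gen k x, rfl, rfl, rfl⟩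

theorem relHeight_eq {k : Type} [Field k] [NumberField k] (x : AlgebraicClosure k) :
    relHeight x = Real.exp (finrank ℚ (IntermediateField.adjoin k {x}) * height x) := by
  have h0 : (finrank ℚ (IntermediateField.adjoin k {x}) : ℝ) ≠ 0 :=
    Nat.cast_ne_zero.2 finrank_pos.ne'
  have h1 : 0 < Height.mulHeight₁ (AdjoinSimple.gen k x) :=
    lt_of_lt_of_le one_pos (Height.one_le_mulHeight₁ _)
  rw [height, SST.ht, mul_div_cancel₀ _ h0, Height.logHeight₁, Real.exp_log h1, relHeight]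

theorem height_nonneg {k : Type} [Field k] [NumberField k] (x : AlgebraicClosure k) :
    0 ≤ height x := by
  rw [height, SST.ht]
  apply div_nonneg _ (Nat.cast_nonneg _)
  exact Real.log_nonneg (Height.one_le_mulHeight₁ _)

theorem one_le_discr (K : Type) [Field K] [NumberField K] : 1 ≤ |(discr K : ℝ)| := by
  have h1 : 1 ≤ |discr K| := Int.one_le_abs (discr_ne_zero K)
  exact_mod_cast h1

theorem discr_eq (K : Type) [Field K] [NumberField K] :
    |(discr K : ℝ)| = Real.exp (finrank ℚ K * SST.logDisc K) := by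
  have h0 : (finrank ℚ K : ℝ) ≠ 0 := Nat.cast_ne_zero.2 finrank_pos.ne'
  rw [SST.logDisc, mul_div_cancel₀ _ h0, Real.exp_log (lt_of_lt_of_le one_pos (one_le_discr K))]

theorem logDisc_nonneg (K : Type) [Field K] [NumberField K] : 0 ≤ SST.logDisc K := by
  rw [SST.logDisc]
  exact div_nonneg (Real.log_nonneg (one_le_discr K)) (Nat.cast_nonneg _)

theorem finrank_eq {k : Type} [Field k] [NumberField k] (F : IntermediateField k (AlgebraicClosure k))
    (n : ℕ) (hF : finrank k F = n) : finrank ℚ F = finrank ℚ k * n := by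
  rw [← hF, finrank_mul_finrank ℚ k F]

theorem log_bound (η : ℝ) (hη : 0 < η) (B : ℝ) (hB : 1 ≤ B) :
    1 + Real.log (1 + Real.log B) ≤ (1 + 1 / η) * B ^ η := by
  have hL : 0 ≤ Real.log B := Real.log_nonneg hB
  have h1 : Real.log (1 + Real.log B) ≤ Real.log B := by
    have := Real.log_le_sub_one_of_pos (x := 1 + Real.log B) (by linarith)
    linarith
  have h2 : 1 + η * Real.log B ≤ B ^ η := by
    rw [Real.rpow_def_of_pos (by linarith), mul_comm]
    have := Real.add_one_le_exp (Real.log B * η)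
    linarith
  have h3 : 1 + Real.log B ≤ (1 + 1 / η) * (1 + η * Real.log B) := by
    have h4 : (1 + 1 / η) * (1 + η * Real.log B) =
        1 + Real.log B + (η * Real.log B + 1 / η) := by
      field_simp
      ring
    rw [h4]
    have : 0 ≤ η * Real.log B + 1 / η := by positivity
    linarith
  have h5 : 0 < 1 + 1 / η := by positivity
  calc 1 + Real.log (1 + Real.log B) ≤ 1 + Real.log B := by linarith
    _ ≤ (1 + 1 / η) * (1 + η * Real.log B) := h3
    _ ≤ _ := mul_le_mul_of_nonneg_left h2 h5.le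

end UpperAux

open UpperAux in
theorem upper (k : Type) [Field k] [NumberField k] {r : ℕ} (p : Fin r → ℕ)
    [∀ t, Fact (p t).Prime] (hp : Function.Injective p) (g : k[X]) (hg : Squarefree g) (q : ℕ)
    (hq : q = g.natDegree ∨ q = g.natDegree + 1) (n : ℕ) (hn : 2 ≤ n) (ε β : ℝ) (hε : 0 < ε)
    (hβ : 0 < β) : ∃ C : ℝ, ∀ B : ℝ, 1 ≤ B →
    {x : AlgebraicClosure k | finrank k (IntermediateField.adjoin k {x}) = n ∧
      relHeight x ≤ B ∧ aeval x g ≠ 0 ∧ proximity p g q x ≤ (2 + β) * height x ∧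
      logDiscr x + ε * height x < proximity p g q x - 2 * height x}.Finite ∧
    ({x : AlgebraicClosure k | finrank k (IntermediateField.adjoin k {x}) = n ∧
      relHeight x ≤ B ∧ aeval x g ≠ 0 ∧ proximity p g q x ≤ (2 + β) * height x ∧
      logDiscr x + ε * height x < proximity p g q x - 2 * height x}.ncard : ℝ) ≤
      C * B ^ (β * ((n : ℝ) + 2) / 4) := by
  classical
  set Ω := AlgebraicClosure k
  obtain ⟨C₁, hC₁, hfield⟩ := field_count k Ω n hn
  obtain ⟨C₂, T₀, hC₂, hT₀, hgap⟩ := gap_count k p hp g hg q hq n (by omega) ε β hε hβ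
  set N : ℕ := finrank ℚ k * n with hN
  have hN0 : 0 < N := Nat.mul_pos finrank_pos (by omega)
  have hNr : (0 : ℝ) < N := Nat.cast_pos.2 hN0
  have hNr1 : (1 : ℝ) ≤ N := Nat.one_le_cast.2 hN0
  set γ : ℝ := max (β - ε) 0 with hγ
  have hγ0 : 0 ≤ γ := le_max_right _ _
  set η : ℝ := (β - γ) * ((n : ℝ) + 2) / 4 with hη
  have hβγ : 0 < β - γ := by
    rw [hγ]
    rcases max_cases (β - ε) 0 with ⟨h, _⟩ | ⟨h, _⟩ <;> rw [h] <;> linarith
  have hη0 : 0 < η := by positivity
  -- the small violators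
  set Y₀ : ℝ := Real.exp (N * (γ * T₀)) with hY₀
  have hY₀1 : 1 ≤ Y₀ := by
    rw [hY₀]
    apply Real.one_le_exp
    positivity
  -- facts about a violator
  have hfact : ∀ x : Ω, finrank k (IntermediateField.adjoin k {x}) = n → aeval x g ≠ 0 →
      proximity p g q x ≤ (2 + β) * height x →
      logDiscr x + ε * height x < proximity p g q x - 2 * height x →
      (2 + ε) * height x ≤ proximity p g q x ∧
        |(discr (IntermediateField.adjoin k {x}) : ℝ)| ≤ Real.exp (N * (γ * height x)) := by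
    intro x hx1 hx2 hx3 hx4
    have h0 : 0 ≤ logDiscr x := logDisc_nonneg _
    have hh := height_nonneg x
    refine ⟨by linarith, ?_⟩
    rw [discr_eq, finrank_eq _ n hx1]
    apply Real.exp_le_exp.2
    have h1 : SST.logDisc (IntermediateField.adjoin k {x}) ≤ γ * height x := by
      have h2 : logDiscr x ≤ (β - ε) * height x := by linarith
      exact h2.trans (mul_le_mul_of_nonneg_right (le_max_left _ _) hh)
    rw [← hN]
    exact mul_le_mul_of_nonneg_left h1 hNr.le
  -- the fibre over a field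
  have hfib : ∀ (F : IntermediateField k Ω), finrank k F = n → ∀ [NumberField F], ∀ T : ℝ,
      1 ≤ T → {x : Ω | IntermediateField.adjoin k {x} = F ∧ aeval x g ≠ 0 ∧
        (2 + ε) * height x ≤ proximity p g q x ∧ proximity p g q x ≤ (2 + β) * height x ∧
        T₀ ≤ height x ∧ height x ≤ T}.Finite ∧
      ({x : Ω | IntermediateField.adjoin k {x} = F ∧ aeval x g ≠ 0 ∧
        (2 + ε) * height x ≤ proximity p g q x ∧ proximity p g q x ≤ (2 + β) * height x ∧
        T₀ ≤ height x ∧ height x ≤ T}.ncard : ℝ) ≤ C₂ * (1 + Real.log T) := by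
    intro F hF _ T hT
    obtain ⟨h1, h2⟩ := hgap F hF T hT
    have h3 : {x : Ω | IntermediateField.adjoin k {x} = F ∧ aeval x g ≠ 0 ∧
        (2 + ε) * height x ≤ proximity p g q x ∧ proximity p g q x ≤ (2 + β) * height x ∧
        T₀ ≤ height x ∧ height x ≤ T} ⊆ (fun y : F => (y : Ω)) ''
        {x : F | aeval x g ≠ 0 ∧ (2 + ε) * SST.ht F x ≤ SST.proxK p g q F x ∧
        SST.proxK p g q F x ≤ (2 + β) * SST.ht F x ∧ T₀ ≤ SST.ht F x ∧
        SST.ht F x ≤ T} := by
      rintro x ⟨hx, hx1, hx2, hx3, hx4, hx5⟩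
      obtain ⟨y, hy, hy1, hy2, hy3⟩ := transfer p g q F x hx
      refine ⟨y, ⟨?_, ?_, ?_, ?_, ?_⟩, hy⟩
      · intro h
        apply hx1
        rw [← hy, IntermediateField.aeval_coe, h]
        rfl
      · rw [← hy1, ← hy2]; exact hx2
      · rw [← hy1, ← hy2]; exact hx3
      · rw [← hy1]; exact hx4
      · rw [← hy1]; exact hx5
    refine ⟨(h1.image _).subset h3, ?_⟩
    have h4 := (Set.ncard_le_ncard h3 (h1.image _)).trans (Set.ncard_image_le h1)
    exact (Nat.cast_le.2 h4).trans h2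
  -- the small violators are finite in number
  have hsmall : {x : Ω | finrank k (IntermediateField.adjoin k {x}) = n ∧ aeval x g ≠ 0 ∧
      proximity p g q x ≤ (2 + β) * height x ∧
      logDiscr x + ε * height x < proximity p g q x - 2 * height x ∧ height x < T₀}.Finite := by
    have h1 := (hfield Y₀ hY₀1).1
    refine Set.Finite.of_finite_fibers (fun x : Ω => IntermediateField.adjoin k {x})
      (h1.subset ?_) ?_
    · rintro _ ⟨x, ⟨hx1, hx2, hx3, hx4, hx5⟩, rfl⟩
      refine ⟨hx1, instNumberFieldAdjoin k x, ?_⟩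
      refine (hfact x hx1 hx2 hx3 hx4).2.trans ?_
      rw [hY₀]
      apply Real.exp_le_exp.2
      exact mul_le_mul_of_nonneg_left (mul_le_mul_of_nonneg_left hx5.le hγ0) hNr.le
    · rintro F ⟨x₀, ⟨hx₀, _⟩, rfl⟩
      have h2 : {y : IntermediateField.adjoin k {x₀} | Height.logHeight₁ y ≤ N * T₀}.Finite :=
        Northcott.finite_le _
      refine (h2.image (fun y : IntermediateField.adjoin k {x₀} => (y : Ω))).subset ?_
      rintro x ⟨⟨hx1, hx2, hx3, hx4, hx5⟩, hx6⟩
      obtain ⟨y, hy, hy1, hy2, hy3⟩ := transfer p g q _ x hx6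
      refine ⟨y, ?_, hy⟩
      change Height.logHeight₁ y ≤ N * T₀
      rw [hy1, SST.ht, div_lt_iff₀ (Nat.cast_pos.2 finrank_pos), finrank_eq _ n hx₀, ← hN] at hx5
      linarith
  set C₃ : ℝ := (({x : Ω | finrank k (IntermediateField.adjoin k {x}) = n ∧ aeval x g ≠ 0 ∧
      proximity p g q x ≤ (2 + β) * height x ∧
      logDiscr x + ε * height x < proximity p g q x - 2 * height x ∧
      height x < T₀}).ncard : ℝ) with hC₃
  have hC₃0 : 0 ≤ C₃ := Nat.cast_nonneg _
  refine ⟨C₃ + C₁ * C₂ * (1 + 1 / η), ?_⟩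
  intro B hB
  have hB0 : 0 < B := by linarith
  set T : ℝ := 1 + Real.log B with hT
  have hlogB : 0 ≤ Real.log B := Real.log_nonneg hB
  have hT1 : 1 ≤ T := by linarith
  -- the large violators
  set SL : Set Ω := {x : Ω | finrank k (IntermediateField.adjoin k {x}) = n ∧
      relHeight x ≤ B ∧ aeval x g ≠ 0 ∧ proximity p g q x ≤ (2 + β) * height x ∧
      logDiscr x + ε * height x < proximity p g q x - 2 * height x ∧ T₀ ≤ height x} with hSL
  have hheight : ∀ x : Ω, finrank k (IntermediateField.adjoin k {x}) = n → relHeight x ≤ B →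
      N * height x ≤ Real.log B := by
    intro x hx1 hx2
    rw [relHeight_eq, finrank_eq _ n hx1, ← hN] at hx2
    rwa [← Real.le_log_iff_exp_le hB0] at hx2
  set Y : ℝ := B ^ γ with hY
  have hY1 : 1 ≤ Y := Real.one_le_rpow hB hγ0
  obtain ⟨hf1, hf2⟩ := hfield Y hY1
  have hlarge : SL.Finite ∧ (SL.ncard : ℝ) ≤
      ({F : IntermediateField k Ω | finrank k F = n ∧
      ∃ _ : NumberField F, |(discr F : ℝ)| ≤ Y}.ncard : ℝ) * (C₂ * (1 + Real.log T)) := by
    refine ncard_le_of_fiber SL (fun x : Ω => IntermediateField.adjoin k {x}) _ hf1 ?_ _ ?_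
    · rintro x ⟨hx1, hx2, hx3, hx4, hx5, hx6⟩
      refine ⟨hx1, instNumberFieldAdjoin k x, ?_⟩
      refine (hfact x hx1 hx3 hx4 hx5).2.trans ?_
      rw [hY, Real.rpow_def_of_pos hB0]
      apply Real.exp_le_exp.2
      have h1 := hheight x hx1 hx2
      calc (N : ℝ) * (γ * height x) = γ * (N * height x) := by ring
        _ ≤ γ * Real.log B := mul_le_mul_of_nonneg_left h1 hγ0
        _ = _ := by ring
    · rintro F ⟨hF1, hF2, hF3⟩
      obtain ⟨h1, h2⟩ := hfib F hF1 T hT1
      have h3 : SL ∩ (fun x : Ω => IntermediateField.adjoin k {x}) ⁻¹' {F} ⊆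
          {x : Ω | IntermediateField.adjoin k {x} = F ∧ aeval x g ≠ 0 ∧
        (2 + ε) * height x ≤ proximity p g q x ∧ proximity p g q x ≤ (2 + β) * height x ∧
        T₀ ≤ height x ∧ height x ≤ T} := by
        rintro x ⟨⟨hx1, hx2, hx3, hx4, hx5, hx6⟩, hx7⟩
        refine ⟨hx7, hx3, (hfact x hx1 hx3 hx4 hx5).1, hx4, hx6, ?_⟩
        have h4 := hheight x hx1 hx2
        have h5 := height_nonneg x
        nlinarith
      refine ⟨h1.subset h3, ?_⟩
      exact (Nat.cast_le.2 (Set.ncard_le_ncard h3 h1)).trans h2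
  have hsub : {x : Ω | finrank k (IntermediateField.adjoin k {x}) = n ∧
      relHeight x ≤ B ∧ aeval x g ≠ 0 ∧ proximity p g q x ≤ (2 + β) * height x ∧
      logDiscr x + ε * height x < proximity p g q x - 2 * height x} ⊆
      {x : Ω | finrank k (IntermediateField.adjoin k {x}) = n ∧ aeval x g ≠ 0 ∧
      proximity p g q x ≤ (2 + β) * height x ∧
      logDiscr x + ε * height x < proximity p g q x - 2 * height x ∧ height x < T₀} ∪ SL := by
    rintro x ⟨hx1, hx2, hx3, hx4, hx5⟩
    rcases lt_or_ge (height x) T₀ with h | h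
    · exact Or.inl ⟨hx1, hx3, hx4, hx5, h⟩
    · exact Or.inr ⟨hx1, hx2, hx3, hx4, hx5, h⟩
  refine ⟨(hsmall.union hlarge.1).subset hsub, ?_⟩
  have h1 : ({x : Ω | finrank k (IntermediateField.adjoin k {x}) = n ∧
      relHeight x ≤ B ∧ aeval x g ≠ 0 ∧ proximity p g q x ≤ (2 + β) * height x ∧
      logDiscr x + ε * height x < proximity p g q x - 2 * height x}.ncard : ℝ) ≤
      C₃ + SL.ncard := by
    rw [hC₃]
    exact_mod_cast (Set.ncard_le_ncard hsub (hsmall.union hlarge.1)).trans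
      (Set.ncard_union_le _ _)
  have hlogT : 1 + Real.log T ≤ (1 + 1 / η) * B ^ η := log_bound η hη0 B hB
  have hlogT0 : 0 ≤ 1 + Real.log T := by
    have := Real.log_nonneg hT1
    linarith
  have hpow : Y ^ (((n : ℝ) + 2) / 4) * B ^ η = B ^ (β * ((n : ℝ) + 2) / 4) := by
    rw [hY, ← Real.rpow_mul hB0.le, ← Real.rpow_add hB0]
    congr 1
    rw [hη]
    ring
  have hBp : 1 ≤ B ^ (β * ((n : ℝ) + 2) / 4) := Real.one_le_rpow hB (by positivity)
  calc _ ≤ C₃ + SL.ncard := h1
    _ ≤ C₃ + (C₁ * Y ^ (((n : ℝ) + 2) / 4)) * (C₂ * ((1 + 1 / η) * B ^ η)) := by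
      refine add_le_add le_rfl (hlarge.2.trans ?_)
      refine mul_le_mul hf2 (mul_le_mul_of_nonneg_left hlogT (by linarith)) (by positivity) ?_
      positivity
    _ = C₃ + C₁ * C₂ * (1 + 1 / η) * (Y ^ (((n : ℝ) + 2) / 4) * B ^ η) := by ring
    _ = C₃ * 1 + C₁ * C₂ * (1 + 1 / η) * B ^ (β * ((n : ℝ) + 2) / 4) := by rw [hpow, mul_one]
    _ ≤ C₃ * B ^ (β * ((n : ℝ) + 2) / 4) +
        C₁ * C₂ * (1 + 1 / η) * B ^ (β * ((n : ℝ) + 2) / 4) :=
      add_le_add (mul_le_mul_of_nonneg_left hBp hC₃0) le_rfl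
    _ = _ := by ring

end Pool.Agent.AA
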