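import Pool.Agent.AA.Lower
import Pool.Agent.AA.Upper
import Pool.Agent.AA.Three

/-!
# Exceptional units
-/

set_option autoImplicit false

open Polynomial NumberField IntermediateField Module

namespace Pool.Agent.AA

namespace ExcUnits

/-- the norm of a unit -/
theorem prod_unit (K : Type) [Field K] [NumberField K] (y : K) (h0 : y ≠ 0) (hy : IsIntegral ℤ y)
    (hy' : IsIntegral ℤ y⁻¹) : ∏ σ : K →+* ℂ, ‖σ y‖ = 1 := by
  obtain ⟨a, ha⟩ : ∃ a : 𝓞 K, (a : K) = y := ⟨⟨y, hy⟩, rfl⟩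
  obtain ⟨b, hb⟩ : ∃ b : 𝓞 K, (b : K) = y⁻¹ := ⟨⟨y⁻¹, hy'⟩, rfl⟩
  have hab : a * b = 1 := by
    refine RingOfIntegers.coe_injective ?_
    rw [map_mul, map_one]
    change (a : K) * (b : K) = 1
    rw [ha, hb, mul_inv_cancel₀ h0]
  have hu : IsUnit a := IsUnit.of_mul_eq_one b hab
  have h1 := SST.prodK_norm_prod ℂ a
  rw [ha] at h1
  rw [h1]
  have h2 : IsUnit (Algebra.norm ℤ a) := hu.map (Algebra.norm ℤ)
  rcases Int.isUnit_iff.1 h2 with h | h <;> rw [h] <;> simp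

/-- the proximity of an exceptional unit -/
theorem prox_unit (K : Type) [Field K] [NumberField K] (y : K) (h0 : y ≠ 0) (h1 : y ≠ 1)
    (hy : IsIntegral ℤ y) (hy' : IsIntegral ℤ y⁻¹) (hz : IsIntegral ℤ (1 - y)⁻¹) :
    ∑ σ : K →+* ℂ, -Real.log (‖σ (y * (y - 1))‖ / max 1 ‖σ y‖ ^ 3) =
      3 * (finrank ℚ K * SST.ht K y) := by
  obtain ⟨b, hb⟩ : ∃ b : 𝓞 K, (b : K) = y := ⟨⟨y, hy⟩, rfl⟩
  have hH : Height.mulHeight₁ y = ∏ σ : K →+* ℂ, max 1 ‖σ y‖ := by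
    rw [← hb]; exact mulHeight_int K b
  have hlog : Real.log (Height.mulHeight₁ y) = finrank ℚ K * SST.ht K y := by
    have hn : (finrank ℚ K : ℝ) ≠ 0 := Nat.cast_ne_zero.2 finrank_pos.ne'
    rw [SST.ht, Height.logHeight₁_eq_log_mulHeight₁]
    field_simp
  have hz0 : (1 : K) - y ≠ 0 := sub_ne_zero.2 h1.symm
  have e0 := prod_unit K y h0 hy hy'
  have e1 : ∏ σ : K →+* ℂ, ‖σ y - 1‖ = 1 := by
    have := prod_unit K (1 - y) hz0 (isIntegral_one.sub hy) hz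
    rw [← this]
    refine Finset.prod_congr rfl fun σ _ => ?_
    rw [map_sub, map_one, norm_sub_rev]
  have hy0 : ∀ σ : K →+* ℂ, ‖σ y‖ ≠ 0 := fun σ => norm_ne_zero_iff.2 ((map_ne_zero σ).2 h0)
  have hy1 : ∀ σ : K →+* ℂ, ‖σ y - 1‖ ≠ 0 := fun σ => by
    have : σ (y - 1) ≠ 0 := (map_ne_zero σ).2 (sub_ne_zero.2 h1)
    rw [map_sub, map_one] at this
    exact norm_ne_zero_iff.2 this
  have h2 : ∀ σ : K →+* ℂ, -Real.log (‖σ (y * (y - 1))‖ / max 1 ‖σ y‖ ^ 3) =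
      3 * Real.log (max 1 ‖σ y‖) - Real.log ‖σ y‖ - Real.log ‖σ y - 1‖ := by
    intro σ
    have hm : (max 1 ‖σ y‖ : ℝ) ≠ 0 := (lt_of_lt_of_le one_pos (le_max_left _ _)).ne'
    rw [map_mul, map_sub, map_one, norm_mul,
      Real.log_div (mul_ne_zero (hy0 σ) (hy1 σ)) (pow_ne_zero _ hm),
      Real.log_mul (hy0 σ) (hy1 σ), Real.log_pow]
    push_cast
    ring
  rw [Finset.sum_congr rfl fun σ _ => h2 σ, Finset.sum_sub_distrib, Finset.sum_sub_distrib,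
    ← Finset.mul_sum, ← Real.log_prod (fun σ _ => hy0 σ), ← Real.log_prod (fun σ _ => hy1 σ),
    ← Real.log_prod (fun σ _ => (lt_of_lt_of_le one_pos (le_max_left (1 : ℝ) ‖σ y‖)).ne'),
    e0, e1, ← hH, hlog, Real.log_one]
  ring

/-- the polynomial `X (X - 1)` -/
theorem sqf : Squarefree (X * (X - 1) : ℚ[X]) := by
  have h1 : (X : ℚ[X]) - 1 = X - C 1 := by rw [map_one]
  have h0 : (X : ℚ[X]) = X - C 0 := by rw [map_zero, sub_zero]
  have hc : IsCoprime (X : ℚ[X]) (X - 1) := ⟨1, -1, by ring⟩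
  refine (squarefree_mul_iff.2 ⟨hc.isRelPrime, ?_, ?_⟩)
  · rw [h0]; exact (irreducible_X_sub_C 0).squarefree
  · rw [h1]; exact (irreducible_X_sub_C 1).squarefree

theorem deg : 3 = (X * (X - 1) : ℚ[X]).natDegree + 1 := by
  have h1 : (X : ℚ[X]) - 1 = X - C 1 := by rw [map_one]
  rw [h1, natDegree_mul X_ne_zero (X_sub_C_ne_zero 1), natDegree_X, natDegree_X_sub_C]

/-- the point `x` for an arbitrary field structure over `ℚ` -/
theorem ne_of_degree (Ω : Type) [Field Ω] [Algebra ℚ Ω] (x : Ω) (n : ℕ) (hn : 2 ≤ n)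
    (h : finrank ℚ (IntermediateField.adjoin ℚ {x}) = n) : x ≠ 0 ∧ x ≠ 1 := by
  constructor
  · rintro rfl
    rw [IntermediateField.adjoin_zero, IntermediateField.finrank_bot] at h
    omega
  · rintro rfl
    rw [IntermediateField.adjoin_one, IntermediateField.finrank_bot] at h
    omega

theorem gen_unit (Ω : Type) [Field Ω] [Algebra ℚ Ω] (x : Ω) (h0 : x ≠ 0) (h1 : x ≠ 1)
    (hx : IsIntegral ℤ x) (hx' : IsIntegral ℤ x⁻¹) (hz : IsIntegral ℤ (1 - x)⁻¹) :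
    AdjoinSimple.gen ℚ x ≠ 0 ∧ AdjoinSimple.gen ℚ x ≠ 1 ∧ IsIntegral ℤ (AdjoinSimple.gen ℚ x) ∧
      IsIntegral ℤ (AdjoinSimple.gen ℚ x)⁻¹ ∧ IsIntegral ℤ (1 - AdjoinSimple.gen ℚ x)⁻¹ := by
  have hinj : Function.Injective (algebraMap (IntermediateField.adjoin ℚ {x}) Ω) :=
    (algebraMap (IntermediateField.adjoin ℚ {x}) Ω).injective
  have hg : algebraMap (IntermediateField.adjoin ℚ {x}) Ω (AdjoinSimple.gen ℚ x) = x :=
    AdjoinSimple.algebraMap_gen ℚ x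
  refine ⟨?_, ?_, ?_, ?_, ?_⟩
  · intro h; apply h0; rw [← hg, h, map_zero]
  · intro h; apply h1; rw [← hg, h, map_one]
  · rw [← isIntegral_algebraMap_iff hinj, hg]; exact hx
  · rw [← isIntegral_algebraMap_iff hinj, map_inv₀, hg]; exact hx'
  · rw [← isIntegral_algebraMap_iff hinj, map_inv₀, map_sub, map_one, hg]; exact hz

theorem eval_unit {Ω : Type} [Field Ω] (f : ℤ[X]) (hf : f.Monic) (h0 : f.coeff 0 = 1)
    (h1 : f.eval 1 = 1) (x : Ω) (hx : aeval x f = 0) :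
    IsIntegral ℤ x ∧ IsIntegral ℤ x⁻¹ ∧ IsIntegral ℤ (1 - x)⁻¹ := by
  have hint : IsIntegral ℤ x := ⟨f, hf, by rw [← aeval_def]; exact hx⟩
  have hpoly : ∀ g : ℤ[X], IsIntegral ℤ (aeval x g) := by
    intro g
    induction g using Polynomial.induction_on with
    | C a => rw [aeval_C]; exact isIntegral_algebraMap
    | add p q hp hq => rw [map_add]; exact hp.add hq
    | monomial n a _ =>
      rw [map_mul, aeval_C, map_pow, aeval_X]
      exact isIntegral_algebraMap.mul (hint.pow _)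
  refine ⟨hint, ?_, ?_⟩
  · have e1 : x * aeval x (-f.divX) = 1 := by
      have h2 := congrArg (aeval x) (Polynomial.X_mul_divX_add f)
      rw [map_add, map_mul, aeval_X, aeval_C, h0, hx, map_one] at h2
      rw [map_neg]
      linear_combination (-1) * h2
    rw [← eq_inv_of_mul_eq_one_right e1]
    exact hpoly _
  · obtain ⟨g, hg⟩ := Polynomial.X_sub_C_dvd_sub_C_eval (a := (1 : ℤ)) (p := f)
    have e1 : (1 - x) * aeval x g = 1 := by
      have h2 := congrArg (aeval x) hg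
      rw [map_sub, map_mul, map_sub, aeval_X, aeval_C, aeval_C, h1, hx, map_one] at h2
      linear_combination h2
    rw [← eq_inv_of_mul_eq_one_right e1]
    exact hpoly _

theorem prox_exc [∀ t : Fin 0, Fact ((Fin.elim0 : Fin 0 → ℕ) t).Prime] (x : AlgebraicClosure ℚ)
    (hx0 : x ≠ 0) (hx1 : x ≠ 1) (h3 : IsIntegral ℤ x)
    (h4 : IsIntegral ℤ x⁻¹) (h5 : IsIntegral ℤ (1 - x)⁻¹) :
    proximity (Fin.elim0 : Fin 0 → ℕ) (X * (X - 1) : ℚ[X]) 3 x = 3 * height x := by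
  obtain ⟨g0, g1, g2, g3, g4⟩ := @gen_unit (AlgebraicClosure ℚ) _
    (AlgebraicClosure.instAlgebra ℚ) x hx0 hx1 h3 h4 h5
  have h7 := prox_unit _ _ g0 g1 g2 g3 g4
  rw [proximity, SST.proxK, Finset.univ_eq_empty (α := Fin 0), Finset.sum_empty, add_zero]
  have h8 : ∀ (K : Type) [Field K] [Algebra ℚ K] (y : K),
      aeval y (X * (X - 1) : ℚ[X]) = y * (y - 1) := by
    intro K _ _ y
    rw [map_mul, map_sub, aeval_X, map_one]
  rw [h8, h7, height]
  rw [mul_div_assoc, mul_div_cancel_left₀]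
  exact Nat.cast_ne_zero.2 finrank_pos.ne'

end ExcUnits

open ExcUnits Lower

/-- For exceptional units `x` (`x` and `1 - x` are units) of degree `n` the inequality
`h(x) ≤ d(x) + ε h(x)` has few exceptions -/
theorem units_upper (n : ℕ) (hn : 2 ≤ n) (ε : ℝ) (hε : 0 < ε) : ∃ C : ℝ, ∀ B : ℝ, 1 ≤ B →
    {x : AlgebraicClosure ℚ | finrank ℚ (IntermediateField.adjoin ℚ {x}) = n ∧
      relHeight x ≤ B ∧ IsIntegral ℤ x ∧ IsIntegral ℤ x⁻¹ ∧ IsIntegral ℤ (1 - x)⁻¹ ∧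
      logDiscr x + ε * height x < height x}.Finite ∧
    ({x : AlgebraicClosure ℚ | finrank ℚ (IntermediateField.adjoin ℚ {x}) = n ∧
      relHeight x ≤ B ∧ IsIntegral ℤ x ∧ IsIntegral ℤ x⁻¹ ∧ IsIntegral ℤ (1 - x)⁻¹ ∧
      logDiscr x + ε * height x < height x}.ncard : ℝ) ≤ C * B ^ (((n : ℝ) + 2) / 4) := by
  have hfact : ∀ t : Fin 0, Fact ((Fin.elim0 : Fin 0 → ℕ) t).Prime := fun t => t.elim0
  obtain ⟨C, hC⟩ := upper ℚ (Fin.elim0 : Fin 0 → ℕ) (fun t => t.elim0) (X * (X - 1)) sqf 3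
    (Or.inr deg) n hn ε 1 hε one_pos
  refine ⟨C, fun B hB => ?_⟩
  obtain ⟨hfin, hcard⟩ := hC B hB
  rw [one_mul] at hcard
  refine ⟨hfin.subset fun x hx => ?_,
    le_trans (Nat.cast_le.2 (Set.ncard_le_ncard (fun x hx => ?_) hfin)) hcard⟩
  all_goals
    obtain ⟨h1, h2, h3, h4, h5, h6⟩ := hx
    obtain ⟨hx0, hx1⟩ := ne_of_degree _ x n hn h1
    have hprox := prox_exc x hx0 hx1 h3 h4 h5
    refine ⟨h1, h2, ?_, ?_, ?_⟩
    · rw [map_mul, map_sub, aeval_X, map_one]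
      exact mul_ne_zero hx0 (sub_ne_zero.2 hx1)
    · refine le_of_eq ?_
      rw [hprox]; ring
    · rw [hprox]; linarith

/-- There are many exceptional units. -/
theorem units_lower (n : ℕ) (hn : 3 ≤ n) : ∃ c B₀ : ℝ, 0 < c ∧ ∀ B : ℝ, B₀ ≤ B →
    ∃ S : Finset (AlgebraicClosure ℚ), c * B ^ ((n : ℝ) - 2) ≤ (S.card : ℝ) ∧
      ∀ x ∈ S, finrank ℚ (IntermediateField.adjoin ℚ {x}) = n ∧ relHeight x ≤ B ∧
        IsIntegral ℤ x ∧ IsIntegral ℤ x⁻¹ ∧ IsIntegral ℤ (1 - x)⁻¹ := by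
  classical
  obtain ⟨e, he0, hen, hes, hirr⟩ := exists_residues n (by omega)
  obtain ⟨c, hc⟩ : ∃ c : ℕ → ℤ, ∀ j, c j = if h : j < n + 1 then ((e ⟨j, h⟩ : ℕ) : ℤ) else 0 :=
    ⟨fun j => if h : j < n + 1 then ((e ⟨j, h⟩ : ℕ) : ℤ) else 0, fun _ => rfl⟩
  have hc0 : ∀ j, 0 ≤ c j := fun j => by
    rw [hc]; split_ifs <;> simp
  have hc1 : ∀ j, c j ≤ 1 := fun j => by
    rw [hc]
    split_ifs with h
    · have := (e ⟨j, h⟩).2
      omega
    · simp
  have hce : ∀ i : Fin (n + 1), c i = ((e i : ℕ) : ℤ) := fun i => by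
    rw [hc, dif_pos i.2]
  have hI : ∀ (m : ℕ) (t : ℕ → ℤ) (s : ℤ), Irreducible (ff n m c t s) := fun m t s =>
    irr_ff hn e he0 hen hes hirr hce
  have hnR : (3 : ℝ) ≤ n := by exact_mod_cast hn
  set κ : ℝ := 1 / (8 * n * (n + 1)) with hκ
  have hκ0 : 0 < κ := by positivity
  refine ⟨κ ^ (n - 2), 4 * n * (n + 1), by positivity, ?_⟩
  intro B hB1
  have hB0 : 0 < B := lt_of_lt_of_le (by positivity) hB1
  obtain ⟨m, hm⟩ : ∃ m : ℕ, m = ⌊B / (4 * n * (n + 1))⌋₊ := ⟨_, rfl⟩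
  have hx1 : 1 ≤ B / (4 * n * (n + 1)) := by
    rw [le_div_iff₀ (by positivity)]; linarith
  have hm1 : 1 ≤ m := by
    rw [hm]; exact Nat.le_floor (by simpa using hx1)
  have hm1R : (1 : ℝ) ≤ m := by exact_mod_cast hm1
  have hmle : (m : ℝ) ≤ B / (4 * n * (n + 1)) := by
    rw [hm]; exact Nat.floor_le (by positivity)
  have hmge : κ * B ≤ m := by
    have h1 : B / (4 * n * (n + 1)) < m + 1 := by rw [hm]; exact Nat.lt_floor_add_one _
    have h2 : κ * B = (B / (4 * n * (n + 1))) / 2 := by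
      rw [hκ]; field_simp; ring
    rw [h2]
    linarith
  have hex : ∀ u : Fin (n - 2) → Fin m, ∃ x : AlgebraicClosure ℚ,
      aeval x (ff n m c (ext n m u) 0) = 0 := by
    intro u
    refine IsAlgClosed.exists_aeval_eq_zero _ _ ?_
    rw [degree_eq_natDegree (monic_ff _ _ _ _ _).ne_zero, natDegree_ff]
    exact_mod_cast (by omega : n ≠ 0)
  choose Φ hΦ using hex
  have hinj : Function.Injective Φ := by
    intro u v huv
    have h1 := eq_of_root (monic_ff _ _ _ _ _) (monic_ff _ _ _ _ _) (hI _ _ _) (hI _ _ _)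
      (hΦ u) (by rw [huv]; exact hΦ v)
    obtain ⟨h2, h3⟩ := ff_inj hn h1
    exact ext_inj h3
  refine ⟨Finset.univ.image Φ, ?_, ?_⟩
  · rw [Finset.card_image_of_injective _ hinj, Finset.card_univ,
      Fintype.card_fun, Fintype.card_fin, Fintype.card_fin]
    push_cast
    have h1 : B ^ ((n : ℝ) - 2) = B ^ (n - 2) := by
      rw [← Real.rpow_natCast, Nat.cast_sub (by omega)]
      norm_num
    rw [h1, ← mul_pow]
    exact pow_le_pow_left₀ (by positivity) hmge _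
  · intro x hx
    obtain ⟨u, -, rfl⟩ := Finset.mem_image.mp hx
    have hcb := coeff_bound (c := c) hn hm1 hc0 hc1 (ext_nonneg u) (ext_lt hm1 u) le_rfl
      (by exact_mod_cast hm1 : (0 : ℤ) < m)
    have hct := coeff_two (m := m) (s := 0) hn hc0 (ext_nonneg u)
    have hcoeff0 : (ff n m c (ext n m u) 0).coeff 0 = 1 := by
      rw [coeff_ff, if_pos (by omega)]; simp [aa]
    have : ∀ t : Fin 0, Fact ((Fin.elim0 : Fin 0 → ℕ) t).Prime := fun t => t.elim0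
    obtain ⟨h1, h2, -⟩ := root_prop (Fin.elim0 : Fin 0 → ℕ) (ff n m c (ext n m u) 0)
      (monic_ff _ _ _ _ _) (hI _ _ _) n (natDegree_ff _ _ _ _ _) (by omega)
      hcoeff0 (4 * n * m) hcb (2 * m) (by linarith)
      ⟨2, hct⟩ (Φ u) (hΦ u)
    refine ⟨h1, ?_, eval_unit _ (monic_ff _ _ _ _ _) hcoeff0 (by rw [eval_ff hn]; norm_num) _
      (hΦ u)⟩
    refine h2.trans ?_
    rw [le_div_iff₀ (by positivity)] at hmle
    linarith

end Pool.Agent.AA
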