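import Pool.Agent.AA.Link

/-!
# The fields generated by the zeros of a form
-/

set_option autoImplicit false

open Polynomial NumberField IntermediateField Module Pool.Agent.RefW
open scoped Classical

namespace Pool.Agent.AA

/-- a primitive element generates -/
theorem adjoin_gen_top (k : Type) [Field k] [NumberField k] (β : AlgebraicClosure k) :
    IntermediateField.adjoin k {AdjoinSimple.gen k β} =
      (⊤ : IntermediateField k (IntermediateField.adjoin k {β})) := by
  have hint : IsIntegral k β := Algebra.IsIntegral.isIntegral β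
  have h1 := (adjoin.powerBasis hint).adjoin_gen_eq_top
  rw [adjoin.powerBasis_gen] at h1
  exact adjoin_eq_top_of_algebra k _ h1

private theorem family_dvd {k : Type} [Field k] (s : Finset k[X]) (hs : ∀ P ∈ s, Irreducible P ∧
    P.Monic) (D : k[X]) (h : ∀ P ∈ s, P ∣ D) : ∏ P ∈ s, P ∣ D := by
  refine Finset.prod_dvd_of_coprime ?_ h
  intro P hP Q hQ hPQ
  have h1 := (hs P hP).1
  have h2 := (hs Q hQ).1
  refine (h1.coprime_iff_not_dvd (n := Q)).2 fun h3 => hPQ ?_
  exact Polynomial.eq_of_monic_of_associated (hs P hP).2 (hs Q hQ).2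
    (h1.associated_of_dvd h2 h3)

theorem exists_family (k : Type) [Field k] [NumberField k] (g : k[X]) (hg : Squarefree g) (q : ℕ)
    (hq : q = g.natDegree ∨ q = g.natDegree + 1) (n : ℕ) :
    ∃ (ι : Type) (_ : Fintype ι) (β : ι → AlgebraicClosure k)
      (v : ∀ j, Fin (n + 1) → IntermediateField.adjoin k {β j}) (e : ι → ℕ) (P : ι → k[X])
      (c : k), c ≠ 0 ∧ (∀ j, Good k n (IntermediateField.adjoin k {β j}) (v j) (e j) (P j)) ∧
      g = C c * ∏ j, P j ∧ ∑ j, e j = q ∧
      ∀ F F' : Fin (n + 1) → 𝓞 k,
        (∀ j, ∑ i, algebraMap k (IntermediateField.adjoin k {β j}) (F i : k) * v j i =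
          ∑ i, algebraMap k (IntermediateField.adjoin k {β j}) (F' i : k) * v j i) →
        (∀ i : Fin (n + 1), g.natDegree ≤ i → (i : ℕ) < g.natDegree + (n + 1 - q) →
          F i = F' i) → F = F' := by
  have hg0 : g ≠ 0 := hg.ne_zero
  set S := (UniqueFactorizationMonoid.normalizedFactors g).toFinset with hS
  have hnd : (UniqueFactorizationMonoid.normalizedFactors g).Nodup :=
    (UniqueFactorizationMonoid.squarefree_iff_nodup_normalizedFactors hg0).1 hg
  have hmem : ∀ P ∈ S, Irreducible P ∧ P.Monic ∧ P ∣ g := fun P hP =>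
    (Polynomial.mem_normalizedFactors_iff hg0).1 (Multiset.mem_toFinset.1 hP)
  have hprod : ∏ P ∈ S, P = (UniqueFactorizationMonoid.normalizedFactors g).prod := by
    rw [Finset.prod, hS, Multiset.toFinset_val, hnd.dedup, Multiset.map_id']
  have hgS : g = C g.leadingCoeff * ∏ P ∈ S, P := by
    rw [hprod, Polynomial.leadingCoeff_mul_prod_normalizedFactors]
  have hroot : ∀ P : {P // P ∈ S}, ∃ b : AlgebraicClosure k, aeval b P.1 = 0 := by
    intro P
    have h1 := (hmem P.1 P.2).1
    exact IsAlgClosed.exists_aeval_eq_zero _ _ (Polynomial.degree_pos_of_irreducible h1).ne'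
  choose β₀ hβ₀ using hroot
  have hmin : ∀ P : {P // P ∈ S}, minpoly k (AdjoinSimple.gen k (β₀ P)) = P.1 := by
    intro P
    rw [minpoly_gen]
    exact (minpoly.eq_of_irreducible_of_monic (hmem P.1 P.2).1 (hβ₀ P) (hmem P.1 P.2).2.1).symm
  have hfin : ∀ P : {P // P ∈ S}, finrank k (IntermediateField.adjoin k {β₀ P}) =
      P.1.natDegree := by
    intro P
    rw [adjoin.finrank (Algebra.IsIntegral.isIntegral (β₀ P)), ← minpoly_gen, hmin]
  have hdegS : ∑ P : {P // P ∈ S}, P.1.natDegree = g.natDegree := by
    have h1 : g.natDegree = (∏ P ∈ S, P).natDegree := by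
      conv_lhs => rw [hgS]
      rw [natDegree_C_mul (leadingCoeff_ne_zero.2 hg0)]
    rw [h1, natDegree_prod_of_monic _ _ fun P hP => (hmem P hP).2.1]
    exact Finset.sum_coe_sort S fun P => P.natDegree
  refine ⟨{P // P ∈ S} ⊕ Fin (q - g.natDegree), inferInstance,
    fun j => Sum.elim β₀ (fun _ => 0) j, fun j => match j with
      | Sum.inl P => fun i => (AdjoinSimple.gen k (β₀ P)) ^ (i : ℕ)
      | Sum.inr _ => fun i => if i = Fin.last n then 1 else 0,
    fun j => Sum.elim (fun P => finrank k (IntermediateField.adjoin k {β₀ P})) (fun _ => 1) j,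
    fun j => Sum.elim (fun P => P.1) (fun _ => 1) j, g.leadingCoeff,
    leadingCoeff_ne_zero.2 hg0, ?_, ?_, ?_, ?_⟩
  · rintro (P | j)
    · have h1 := good_root k n (IntermediateField.adjoin k {β₀ P}) (AdjoinSimple.gen k (β₀ P))
        (adjoin_gen_top k (β₀ P))
      rw [hmin] at h1
      exact h1
    · refine good_inf k n (IntermediateField.adjoin k {(0 : AlgebraicClosure k)}) ?_
      rw [finrank_adjoin_simple_eq_one_iff]
      exact zero_mem _
  · rw [Fintype.prod_sum_type]
    simp only [Sum.elim_inl, Sum.elim_inr, Finset.prod_const_one, mul_one]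
    rw [Finset.prod_coe_sort S fun P => P]
    exact hgS
  · rw [Fintype.sum_sum_type]
    simp only [Sum.elim_inl, Sum.elim_inr, Finset.sum_const, Finset.card_univ, Fintype.card_fin,
      smul_eq_mul, mul_one]
    rw [Finset.sum_congr rfl fun P _ => hfin P, hdegS]
    omega
  · intro F F' h1 h2
    set D : k[X] := ∑ i : Fin (n + 1), C ((F i : k) - (F' i : k)) * X ^ (i : ℕ) with hD
    have hcoeff : ∀ i : Fin (n + 1), D.coeff i = (F i : k) - (F' i : k) := by
      intro i
      rw [hD, Polynomial.finsetSum_coeff, Finset.sum_eq_single i]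
      · rw [Polynomial.coeff_C_mul_X_pow, if_pos rfl]
      · intro j _ hj
        rw [Polynomial.coeff_C_mul_X_pow, if_neg]
        exact fun h => hj (Fin.ext h.symm)
      · intro h
        exact absurd (Finset.mem_univ i) h
    have hDdeg : D.natDegree ≤ n := by
      refine Polynomial.natDegree_sum_le_of_forall_le _ _ fun i _ => ?_
      refine (Polynomial.natDegree_C_mul_X_pow_le _ _).trans ?_
      omega
    suffices hD0 : D = 0 by
      funext i
      have h3 := hcoeff i
      rw [hD0, coeff_zero] at h3
      exact RingOfIntegers.ext (sub_eq_zero.1 h3.symm)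
    by_contra hD0
    have hdvd : g ∣ D := by
      have h3 : ∏ P ∈ S, P ∣ D := by
        refine family_dvd S (fun P hP => ⟨(hmem P hP).1, (hmem P hP).2.1⟩) D fun P hP => ?_
        have h4 := h1 (Sum.inl ⟨P, hP⟩)
        have h5 : aeval (AdjoinSimple.gen k (β₀ ⟨P, hP⟩)) D = 0 := by
          rw [hD, map_sum]
          simp only [map_mul, map_sub, aeval_C, map_pow, aeval_X, sub_mul,
            Finset.sum_sub_distrib]
          exact sub_eq_zero.2 h4
        have h6 := minpoly.dvd k _ h5
        rwa [hmin] at h6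
      rw [hgS]
      exact (Polynomial.C_mul_dvd (leadingCoeff_ne_zero.2 hg0)).2 h3
    have hle : g.natDegree ≤ D.natDegree := natDegree_le_of_dvd hdvd hD0
    have hlead : D.coeff D.natDegree ≠ 0 := leadingCoeff_ne_zero.2 hD0
    have h3 := hcoeff ⟨D.natDegree, Nat.lt_succ_of_le hDdeg⟩
    simp only at h3
    by_cases hcase : D.natDegree < g.natDegree + (n + 1 - q)
    · have h4 := h2 ⟨D.natDegree, Nat.lt_succ_of_le hDdeg⟩ hle hcase
      rw [h4, sub_self] at h3
      exact hlead h3
    · have hq1 : q = g.natDegree + 1 := by omega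
      have hdn : D.natDegree = n := by omega
      have h4 := h1 (Sum.inr ⟨0, by omega⟩)
      have h5 : ∀ G : Fin (n + 1) → 𝓞 k,
          ∑ i, algebraMap k (IntermediateField.adjoin k {(0 : AlgebraicClosure k)}) (G i : k) *
            (if i = Fin.last n then 1 else 0) =
          algebraMap k (IntermediateField.adjoin k {(0 : AlgebraicClosure k)})
            (G (Fin.last n) : k) := by
        intro G
        simp
      have h6 : algebraMap k (IntermediateField.adjoin k {(0 : AlgebraicClosure k)})
          (F (Fin.last n) : k) = algebraMap k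
          (IntermediateField.adjoin k {(0 : AlgebraicClosure k)}) (F' (Fin.last n) : k) := by
        rw [← h5 F, ← h5 F']
        exact h4
      have h7 := (algebraMap k _).injective h6
      have h8 : (⟨D.natDegree, Nat.lt_succ_of_le hDdeg⟩ : Fin (n + 1)) = Fin.last n :=
        Fin.ext hdn
      rw [h8, h7, sub_self] at h3
      exact hlead h3

end Pool.Agent.AA
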