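import Mathlib

/-!
# AA: the gap principle, abstract form
-/

set_option autoImplicit false

namespace Pool.Agent.AA

/-- counting by windows and cells -/
theorem gap_abstract (N M q : ℕ) (hN : 0 < N) (hM : 0 < M) (ε β C1 C2 : ℝ) (hε : 0 < ε)
    (hβ : 0 < β) (hC1 : 0 ≤ C1) (hC2 : 0 ≤ C2) :
    ∃ C T₀ : ℝ, 1 ≤ C ∧ 1 ≤ T₀ ∧ ∀ (K J : Type) [Fintype J], Fintype.card J = M →
      ∀ (P : K → Prop) (Lam : K → J → ℝ) (ι : K → J → Fin (q + 1)) (DL : K → K → J → ℝ)
        (ht : K → ℝ), (∀ x, P x → ∀ j, -C1 ≤ Lam x j) →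
      (∀ x y, x ≠ y → P x → P y → ∀ j, ι x j = ι y j →
        min (Lam x j) (Lam y j) ≤ DL x y j + C2) →
      (∀ x y, x ≠ y → ∑ j, DL x y j ≤ N * (ht x + ht y)) → ∀ T : ℝ, 1 ≤ T →
      {x : K | P x ∧ (2 + ε) * ht x ≤ (∑ j, Lam x j) / N ∧
        (∑ j, Lam x j) / N ≤ (2 + β) * ht x ∧ T₀ ≤ ht x ∧ ht x ≤ T}.Finite ∧
      ({x : K | P x ∧ (2 + ε) * ht x ≤ (∑ j, Lam x j) / N ∧
        (∑ j, Lam x j) / N ≤ (2 + β) * ht x ∧ T₀ ≤ ht x ∧ ht x ≤ T}.ncard : ℝ) ≤
        C * (1 + Real.log T) := by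
  classical
  have hN' : (0 : ℝ) < N := Nat.cast_pos.2 hN
  have hM' : (0 : ℝ) < M := Nat.cast_pos.2 hM
  set δ : ℝ := ε / 2 with hδ
  have hδ0 : 0 < δ := by positivity
  set δ' : ℝ := N * ε / (4 * M) with hδ'
  have hδ'0 : 0 < δ' := by positivity
  set T₀ : ℝ := 4 * C2 * M / (N * ε) + 1 with hT₀
  have hT₀1 : 1 ≤ T₀ := by
    have : 0 ≤ 4 * C2 * M / (N * ε) := by positivity
    linarith
  have hlog : 0 < Real.log (1 + δ) := Real.log_pos (by linarith)
  set A : ℝ := (N * (2 + β) * (1 + δ) + (M + 1) * C1) / δ' with hA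
  have hA0 : 0 ≤ A := by positivity
  set C : ℝ := (1 + 1 / Real.log (1 + δ)) * ((q + 1 : ℕ) : ℝ) ^ M *
    ((⌊A⌋₊ + 1 : ℕ) : ℝ) ^ M with hC
  have hC1' : 1 ≤ C := by
    have h1 : (1 : ℝ) ≤ 1 + 1 / Real.log (1 + δ) := by
      have : 0 < 1 / Real.log (1 + δ) := by positivity
      linarith
    have h2 : (1 : ℝ) ≤ ((q + 1 : ℕ) : ℝ) ^ M := by
      apply one_le_pow₀
      push_cast
      have : (0 : ℝ) ≤ q := Nat.cast_nonneg q
      linarith
    have h3 : (1 : ℝ) ≤ ((⌊A⌋₊ + 1 : ℕ) : ℝ) ^ M := by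
      apply one_le_pow₀
      push_cast
      have : (0 : ℝ) ≤ ⌊A⌋₊ := Nat.cast_nonneg _
      linarith
    rw [hC]
    nlinarith [mul_le_mul h1 h2 zero_le_one (by linarith)]
  refine ⟨C, T₀, hC1', hT₀1, ?_⟩
  intro K J _ hJ P Lam ι DL ht hb hc hd T hT
  set S : Set K := {x : K | P x ∧ (2 + ε) * ht x ≤ (∑ j, Lam x j) / N ∧
        (∑ j, Lam x j) / N ≤ (2 + β) * ht x ∧ T₀ ≤ ht x ∧ ht x ≤ T} with hS
  -- the window
  set win : K → ℕ := fun x => ⌊Real.log (ht x / T₀) / Real.log (1 + δ)⌋₊ with hwin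
  set Tj : ℕ → ℝ := fun j => T₀ * (1 + δ) ^ j with hTj
  have hTj1 : ∀ j, 1 ≤ Tj j := by
    intro j
    have : (1 : ℝ) ≤ (1 + δ) ^ j := one_le_pow₀ (by linarith)
    rw [hTj]
    nlinarith
  have hwin1 : ∀ x ∈ S, Tj (win x) ≤ ht x ∧ ht x ≤ (1 + δ) * Tj (win x) := by
    rintro x ⟨_, _, _, h4, _⟩
    have hpos : 0 < ht x / T₀ := div_pos (by linarith) (by linarith)
    have h1 : 1 ≤ ht x / T₀ := (one_le_div (by linarith)).2 h4
    have h0 : 0 ≤ Real.log (ht x / T₀) / Real.log (1 + δ) :=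
      div_nonneg (Real.log_nonneg h1) hlog.le
    have h2 : (win x : ℝ) ≤ Real.log (ht x / T₀) / Real.log (1 + δ) := Nat.floor_le h0
    have h3 : Real.log (ht x / T₀) / Real.log (1 + δ) < win x + 1 := Nat.lt_floor_add_one _
    rw [le_div_iff₀ hlog] at h2
    rw [div_lt_iff₀ hlog] at h3
    have h5 : (1 + δ) ^ (win x) ≤ ht x / T₀ := by
      rw [← Real.log_le_log_iff (by positivity) hpos, Real.log_pow]
      exact h2
    have h6 : ht x / T₀ < (1 + δ) ^ (win x + 1) := by
      rw [← Real.log_lt_log_iff hpos (by positivity), Real.log_pow]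
      push_cast
      exact h3
    have hT0 : 0 < T₀ := by linarith
    constructor
    · rw [le_div_iff₀ hT0] at h5
      rw [hTj]
      linarith
    · rw [div_lt_iff₀ hT0] at h6
      rw [hTj]
      have : (1 + δ) ^ (win x + 1) * T₀ = (1 + δ) * (T₀ * (1 + δ) ^ win x) := by ring
      linarith
  -- the levels
  set lev : K → J → ℕ := fun x j => ⌊(Lam x j + C1) / (δ' * Tj (win x))⌋₊ with hlev
  set key : K → ℕ × (J → Fin (q + 1)) × (J → ℕ) := fun x => (win x, ι x, lev x) with hkey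
  have hinj : Set.InjOn key S := by
    intro x hx y hy hxy
    by_contra hne
    obtain ⟨hPx, hx2, hx3, hx4, hx5⟩ := hx
    obtain ⟨hPy, hy2, hy3, hy4, hy5⟩ := hy
    have hw : win x = win y := congrArg Prod.fst hxy
    have hι : ι x = ι y := congrArg (fun z => z.2.1) hxy
    have hl : lev x = lev y := congrArg (fun z => z.2.2) hxy
    obtain ⟨wx1, wx2⟩ := hwin1 x ⟨hPx, hx2, hx3, hx4, hx5⟩
    obtain ⟨wy1, wy2⟩ := hwin1 y ⟨hPy, hy2, hy3, hy4, hy5⟩
    have hTx := hTj1 (win x)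
    have hpos : 0 < δ' * Tj (win x) := mul_pos hδ'0 (by linarith)
    have hclose : ∀ j, Lam x j - δ' * ht x ≤ min (Lam x j) (Lam y j) := by
      intro j
      have hlj : lev x j = lev y j := congrFun hl j
      have h0x : 0 ≤ (Lam x j + C1) / (δ' * Tj (win x)) :=
        div_nonneg (by linarith [hb x hPx j]) hpos.le
      have h0y : 0 ≤ (Lam y j + C1) / (δ' * Tj (win x)) :=
        div_nonneg (by linarith [hb y hPy j]) hpos.le
      have h1 : (Lam x j + C1) / (δ' * Tj (win x)) < lev x j + 1 := Nat.lt_floor_add_one _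
      have h2 : (lev y j : ℝ) ≤ (Lam y j + C1) / (δ' * Tj (win x)) := by
        have : lev y j = ⌊(Lam y j + C1) / (δ' * Tj (win x))⌋₊ := by rw [hlev, hw]
        rw [this]
        exact Nat.floor_le h0y
      rw [div_lt_iff₀ hpos] at h1
      rw [le_div_iff₀ hpos] at h2
      rw [hlj] at h1
      have h3 : Lam x j - Lam y j ≤ δ' * Tj (win x) := by nlinarith
      have h4 : δ' * Tj (win x) ≤ δ' * ht x := mul_le_mul_of_nonneg_left wx1 hδ'0.le
      refine le_min ?_ ?_
      · have : 0 ≤ δ' * ht x := mul_nonneg hδ'0.le (by linarith)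
        linarith
      · linarith
    have hsum : ∑ j, min (Lam x j) (Lam y j) ≤ N * (ht x + ht y) + M * C2 := by
      calc ∑ j, min (Lam x j) (Lam y j) ≤ ∑ j, (DL x y j + C2) :=
            Finset.sum_le_sum fun j _ => hc x y hne hPx hPy j (congrFun hι j)
        _ = ∑ j, DL x y j + M * C2 := by
            rw [Finset.sum_add_distrib, Finset.sum_const, Finset.card_univ, hJ, nsmul_eq_mul]
        _ ≤ _ := by linarith [hd x y hne]
    have hsum2 : ∑ j, Lam x j - M * (δ' * ht x) ≤ ∑ j, min (Lam x j) (Lam y j) := by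
      calc ∑ j, Lam x j - M * (δ' * ht x) = ∑ j, (Lam x j - δ' * ht x) := by
            rw [Finset.sum_sub_distrib, Finset.sum_const, Finset.card_univ, hJ, nsmul_eq_mul]
        _ ≤ _ := Finset.sum_le_sum fun j _ => hclose j
    have hhy : ht y ≤ (1 + δ) * ht x := by
      have h1 : ht y ≤ (1 + δ) * Tj (win x) := by rw [hw]; exact wy2
      have h2 : (1 + δ) * Tj (win x) ≤ (1 + δ) * ht x :=
        mul_le_mul_of_nonneg_left wx1 (by linarith)
      linarith
    rw [le_div_iff₀ hN'] at hx2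
    have hMδ : M * (δ' * ht x) = N * ε / 4 * ht x := by
      rw [hδ']
      field_simp
    have hfin : N * ε / 4 * ht x ≤ M * C2 := by
      have h1 : N * (ht x + ht y) ≤ N * ((2 + δ) * ht x) :=
        mul_le_mul_of_nonneg_left (by linarith) hN'.le
      have h2 : (N : ℝ) * ((2 + δ) * ht x) = N * 2 * ht x + N * ε / 2 * ht x := by
        rw [hδ]
        ring
      nlinarith
    have hfin2 : ht x ≤ 4 * C2 * M / (N * ε) := by
      rw [le_div_iff₀ (by positivity)]
      linarith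
    linarith
  -- the finite set of keys
  set W : ℕ := ⌊Real.log T / Real.log (1 + δ)⌋₊ + 1 with hW
  set F : Finset (ℕ × (J → Fin (q + 1)) × (J → ℕ)) :=
    Finset.range W ×ˢ ((Finset.univ : Finset (J → Fin (q + 1))) ×ˢ
      Fintype.piFinset fun _ : J => Finset.range (⌊A⌋₊ + 1)) with hF
  have hmaps : ∀ x ∈ S, key x ∈ F := by
    intro x hx
    obtain ⟨wx1, wx2⟩ := hwin1 x hx
    obtain ⟨hPx, hx2, hx3, hx4, hx5⟩ := hx
    have hTx := hTj1 (win x)
    rw [hF, Finset.mem_product, Finset.mem_product]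
    refine ⟨?_, Finset.mem_univ _, ?_⟩
    · rw [Finset.mem_range, hW, Nat.lt_succ_iff]
      apply Nat.floor_le_floor
      have h1 : Real.log (ht x / T₀) ≤ Real.log T := by
        apply Real.log_le_log (div_pos (by linarith) (by linarith))
        rw [div_le_iff₀ (by linarith)]
        nlinarith
      exact div_le_div_of_nonneg_right h1 hlog.le
    · rw [Fintype.mem_piFinset]
      intro j
      rw [Finset.mem_range, Nat.lt_succ_iff]
      change lev x j ≤ ⌊A⌋₊
      apply Nat.floor_le_floor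
      have hpos : 0 < δ' * Tj (win x) := mul_pos hδ'0 (by linarith)
      rw [div_le_iff₀ hpos, hA, div_mul_eq_mul_div, le_div_iff₀ hδ'0]
      have h1 : Lam x j ≤ ∑ i, Lam x i + M * C1 := by
        have h2 : Lam x j + C1 ≤ ∑ i, (Lam x i + C1) :=
          Finset.single_le_sum (f := fun i => Lam x i + C1)
            (fun i _ => by linarith [hb x hPx i]) (Finset.mem_univ j)
        rw [Finset.sum_add_distrib, Finset.sum_const, Finset.card_univ, hJ, nsmul_eq_mul] at h2
        linarith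
      rw [div_le_iff₀ hN'] at hx3
      have h3 : (2 + β) * ht x * N ≤ N * (2 + β) * (1 + δ) * Tj (win x) := by
        have h4 : (2 + β) * N * ht x ≤ (2 + β) * N * ((1 + δ) * Tj (win x)) :=
          mul_le_mul_of_nonneg_left wx2 (by positivity)
        linarith
      have h5 : (M + 1) * C1 ≤ (M + 1) * C1 * Tj (win x) := by
        have : 0 ≤ (M + 1) * C1 := by positivity
        nlinarith
      have h6 : Lam x j + C1 ≤ (N * (2 + β) * (1 + δ) + (M + 1) * C1) * Tj (win x) := by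
        nlinarith
      nlinarith
  have hfinite : S.Finite := by
    refine Set.Finite.of_injOn (f := key) (t := (F : Set _)) ?_ hinj (Finset.finite_toSet F)
    intro x hx
    exact hmaps x hx
  refine ⟨hfinite, ?_⟩
  have hcard : S.ncard ≤ F.card := by
    have h1 := Set.ncard_le_ncard_of_injOn key (t := (F : Set _)) (fun x hx => hmaps x hx) hinj
      (Finset.finite_toSet F)
    rwa [Set.ncard_coe_finset] at h1
  have hFcard : (F.card : ℝ) = W * (((q + 1 : ℕ) : ℝ) ^ M * ((⌊A⌋₊ + 1 : ℕ) : ℝ) ^ M) := by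
    rw [hF, Finset.card_product, Finset.card_product, Finset.card_range, Finset.card_univ,
      Fintype.card_piFinset]
    simp only [Fintype.card_pi, Fintype.card_fin, Finset.card_range, Finset.prod_const,
      Finset.card_univ, hJ]
    push_cast
    ring
  have hWle : (W : ℝ) ≤ (1 + 1 / Real.log (1 + δ)) * (1 + Real.log T) := by
    have hT0 : 0 ≤ Real.log T := Real.log_nonneg hT
    have h1 : (⌊Real.log T / Real.log (1 + δ)⌋₊ : ℝ) ≤ Real.log T / Real.log (1 + δ) :=
      Nat.floor_le (div_nonneg hT0 hlog.le)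
    rw [hW]
    push_cast
    have h2 : (1 + 1 / Real.log (1 + δ)) * (1 + Real.log T) = 1 + Real.log T +
        1 / Real.log (1 + δ) + Real.log T / Real.log (1 + δ) := by
      field_simp
      ring
    rw [h2]
    have h3 : 0 < 1 / Real.log (1 + δ) := by positivity
    linarith
  calc (S.ncard : ℝ) ≤ F.card := by exact_mod_cast hcard
    _ = W * (((q + 1 : ℕ) : ℝ) ^ M * ((⌊A⌋₊ + 1 : ℕ) : ℝ) ^ M) := hFcard
    _ ≤ ((1 + 1 / Real.log (1 + δ)) * (1 + Real.log T)) *
        (((q + 1 : ℕ) : ℝ) ^ M * ((⌊A⌋₊ + 1 : ℕ) : ℝ) ^ M) :=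
        mul_le_mul_of_nonneg_right hWle (by positivity)
    _ = C * (1 + Real.log T) := by
        rw [hC]
        ring

end Pool.Agent.AA
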