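import Pool.Agent.AA.Defs2

/-!
# AA: the chordal distance in a normed field
-/

set_option autoImplicit false

open Polynomial NumberField IntermediateField Module

namespace Pool.Agent.AA

/-- the chordal distance of two points with given homogeneous coordinates -/
private noncomputable def ch {A : Type} [NormedField A] (u v : A × A) : ℝ :=
  ‖u.1 * v.2 - u.2 * v.1‖ / (‖u‖ * ‖v‖)

private theorem ch_nonneg {A : Type} [NormedField A] (u v : A × A) : 0 ≤ ch u v := by
  unfold ch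
  positivity

private theorem ch_comm {A : Type} [NormedField A] (u v : A × A) : ch u v = ch v u := by
  unfold ch
  rw [← norm_neg (u.1 * v.2 - u.2 * v.1), mul_comm ‖u‖ ‖v‖]
  congr 2
  ring

private theorem ch_tri {A : Type} [NormedField A] (u v w : A × A) (hu : u ≠ 0) (hv : v ≠ 0)
    (hw : w ≠ 0) : ch u w ≤ ch u v + ch v w := by
  have h1 : 0 < ‖u‖ := norm_pos_iff.2 hu
  have h2 : 0 < ‖v‖ := norm_pos_iff.2 hv
  have h3 : 0 < ‖w‖ := norm_pos_iff.2 hw
  have hu1 : ‖u.1‖ ≤ ‖u‖ := norm_fst_le u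
  have hu2 : ‖u.2‖ ≤ ‖u‖ := norm_snd_le u
  have hw1 : ‖w.1‖ ≤ ‖w‖ := norm_fst_le w
  have hw2 : ‖w.2‖ ≤ ‖w‖ := norm_snd_le w
  have key : ‖v‖ * ‖u.1 * w.2 - u.2 * w.1‖ ≤ ‖u‖ * ‖v.1 * w.2 - v.2 * w.1‖ +
      ‖w‖ * ‖u.1 * v.2 - u.2 * v.1‖ := by
    rcases le_total ‖v.1‖ ‖v.2‖ with h | h
    · have h4 : ‖v‖ = ‖v.2‖ := by rw [Prod.norm_def, max_eq_right h]
      have h5 : v.2 * (u.1 * w.2 - u.2 * w.1) = u.2 * (v.1 * w.2 - v.2 * w.1) +
          w.2 * (u.1 * v.2 - u.2 * v.1) := by ring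
      rw [h4, ← norm_mul, h5]
      refine (norm_add_le _ _).trans ?_
      rw [norm_mul, norm_mul]
      exact add_le_add (mul_le_mul_of_nonneg_right hu2 (norm_nonneg _))
        (mul_le_mul_of_nonneg_right hw2 (norm_nonneg _))
    · have h4 : ‖v‖ = ‖v.1‖ := by rw [Prod.norm_def, max_eq_left h]
      have h5 : v.1 * (u.1 * w.2 - u.2 * w.1) = u.1 * (v.1 * w.2 - v.2 * w.1) +
          w.1 * (u.1 * v.2 - u.2 * v.1) := by ring
      rw [h4, ← norm_mul, h5]
      refine (norm_add_le _ _).trans ?_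
      rw [norm_mul, norm_mul]
      exact add_le_add (mul_le_mul_of_nonneg_right hu1 (norm_nonneg _))
        (mul_le_mul_of_nonneg_right hw1 (norm_nonneg _))
  unfold ch
  rw [div_add_div _ _ (by positivity) (by positivity), div_le_div_iff₀ (by positivity)
    (by positivity)]
  calc ‖u.1 * w.2 - u.2 * w.1‖ * (‖u‖ * ‖v‖ * (‖v‖ * ‖w‖))
      = (‖v‖ * ‖u.1 * w.2 - u.2 * w.1‖) * (‖u‖ * ‖v‖ * ‖w‖) := by ring
    _ ≤ (‖u‖ * ‖v.1 * w.2 - v.2 * w.1‖ + ‖w‖ * ‖u.1 * v.2 - u.2 * v.1‖) *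
        (‖u‖ * ‖v‖ * ‖w‖) := mul_le_mul_of_nonneg_right key (by positivity)
    _ = _ := by ring

private theorem vec_ne {A : Type} [NormedField A] (z : A) : ((z, 1) : A × A) ≠ 0 := by
  intro h
  exact one_ne_zero (congrArg Prod.snd h)

private theorem vec_norm {A : Type} [NormedField A] (z : A) : ‖((z, 1) : A × A)‖ = max 1 ‖z‖ := by
  rw [Prod.norm_mk, norm_one, max_comm]

private theorem ch_vec {A : Type} [NormedField A] (z w : A) :
    ch ((z, 1) : A × A) (w, 1) = dst z w := by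
  rw [ch, dst, vec_norm, vec_norm]
  simp

private theorem ch_inf {A : Type} [NormedField A] (z : A) :
    ch ((z, 1) : A × A) (1, 0) = 1 / max 1 ‖z‖ := by
  rw [ch, vec_norm, Prod.norm_mk, norm_one, norm_zero]
  simp

/-- the nearest zero -/
private theorem exists_near {A : Type} [NormedField A] (J : Type) [Fintype J] [Nonempty J]
    (w : J → A × A) (hw : ∀ j, w j ≠ 0)
    (hne : ∀ i j, i ≠ j → (w i).1 * (w j).2 - (w i).2 * (w j).1 ≠ 0) :
    ∃ K : ℝ, 0 < K ∧ ∃ ι : A → J, ∀ z : A,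
      ch ((z, 1) : A × A) (w (ι z)) ≤ K * ∏ j, ch ((z, 1) : A × A) (w j) := by
  classical
  have hpos : ∀ i j, i ≠ j → 0 < ch (w i) (w j) := by
    intro i j hij
    unfold ch
    have h1 := norm_pos_iff.2 (hw i)
    have h2 := norm_pos_iff.2 (hw j)
    have h3 := norm_pos_iff.2 (hne i j hij)
    positivity
  -- a lower bound for the distances of the zeros
  obtain ⟨κ, hκ0, hκ1, hκ⟩ : ∃ κ : ℝ, 0 < κ ∧ κ ≤ 1 ∧ ∀ i j, i ≠ j → 2 * κ ≤ ch (w i) (w j) := by
    set f : J × J → ℝ := fun x => if x.1 = x.2 then 2 else ch (w x.1) (w x.2) with hf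
    obtain ⟨x, hx⟩ := Finite.exists_min f
    have hfpos : 0 < f x := by
      rw [hf]
      simp only
      split_ifs with h
      · norm_num
      · exact hpos _ _ h
    have j0 : J := Classical.arbitrary J
    refine ⟨min 1 (f x / 2), by positivity, min_le_left _ _, ?_⟩
    intro i j hij
    have h1 := hx (i, j)
    have h2 : f (i, j) = ch (w i) (w j) := by
      rw [hf]
      simp only
      rw [if_neg hij]
    have h3 := min_le_right 1 (f x / 2)
    rw [h2] at h1
    linarith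
  have hmin : ∀ z : A, ∃ j, ∀ i, ch ((z, 1) : A × A) (w j) ≤ ch ((z, 1) : A × A) (w i) :=
    fun z => Finite.exists_min fun j => ch ((z, 1) : A × A) (w j)
  choose ι hι using hmin
  refine ⟨(κ ^ Fintype.card J)⁻¹, by positivity, ι, ?_⟩
  intro z
  have h1 : ∀ j, j ≠ ι z → κ ≤ ch ((z, 1) : A × A) (w j) := by
    intro j hj
    have h2 := ch_tri (w j) (z, 1) (w (ι z)) (hw j) (vec_ne z) (hw _)
    have h3 := hκ j (ι z) hj
    have h4 := hι z j
    rw [ch_comm (w j) (z, 1)] at h2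
    linarith
  have h2 : κ ^ Fintype.card J * ch ((z, 1) : A × A) (w (ι z)) ≤
      ∏ j, ch ((z, 1) : A × A) (w j) := by
    rw [← Finset.mul_prod_erase Finset.univ _ (Finset.mem_univ (ι z)), mul_comm]
    refine mul_le_mul_of_nonneg_left ?_ (ch_nonneg _ _)
    calc κ ^ Fintype.card J ≤ κ ^ (Finset.univ.erase (ι z)).card := by
          refine pow_le_pow_of_le_one hκ0.le hκ1 ?_
          rw [← Finset.card_univ]
          exact Finset.card_le_card (Finset.erase_subset _ _)
      _ = ∏ j ∈ Finset.univ.erase (ι z), κ := by rw [Finset.prod_const]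
      _ ≤ _ := Finset.prod_le_prod (fun _ _ => hκ0.le)
          fun j hj => h1 j (Finset.ne_of_mem_erase hj)
  rw [inv_mul_eq_div, le_div_iff₀ (by positivity), mul_comm]
  exact h2

/-- the value of a form in terms of the distances -/
private theorem close_aux {A : Type} [NormedField A] (g : A[X]) (q : ℕ) (J : Type) [Fintype J]
    (w : J → A × A) (hw : ∀ j, w j ≠ 0)
    (hne : ∀ i j, i ≠ j → (w i).1 * (w j).2 - (w i).2 * (w j).1 ≠ 0) (hJ : Fintype.card J = q)
    (c : ℝ) (hc : 0 < c) (hE : ∀ z : A, c * ∏ j, ch ((z, 1) : A × A) (w j) =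
      ‖g.eval z‖ / max 1 ‖z‖ ^ q) :
    ∃ (C : ℝ) (ι : A → Fin (q + 1)), ∀ z w : A, z ≠ w → g.eval z ≠ 0 → g.eval w ≠ 0 →
      ι z = ι w → min (lam g q z) (lam g q w) ≤ -Real.log (dst z w) + C := by
  have hdpos : ∀ z w : A, z ≠ w → 0 < dst z w := by
    intro z w hzw
    unfold dst
    have h1 := norm_pos_iff.2 (sub_ne_zero.2 hzw)
    have h2 : 0 < max 1 ‖z‖ := lt_of_lt_of_le one_pos (le_max_left _ _)
    have h3 : 0 < max 1 ‖w‖ := lt_of_lt_of_le one_pos (le_max_left _ _)
    positivity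
  -- reduction to an inequality without logarithms
  have hred : (∃ K : ℝ, 0 < K ∧ ∃ ι : A → Fin (q + 1), ∀ z w : A, ι z = ι w →
      dst z w ≤ K * (‖g.eval z‖ / max 1 ‖z‖ ^ q + ‖g.eval w‖ / max 1 ‖w‖ ^ q)) →
      ∃ (C : ℝ) (ι : A → Fin (q + 1)), ∀ z w : A, z ≠ w → g.eval z ≠ 0 → g.eval w ≠ 0 →
      ι z = ι w → min (lam g q z) (lam g q w) ≤ -Real.log (dst z w) + C := by
    rintro ⟨K, hK, ι, h⟩
    refine ⟨Real.log (2 * K), ι, ?_⟩
    intro z w hzw hz hw' hι
    have h1 := h z w hι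
    have h2 : 0 < max 1 ‖z‖ := lt_of_lt_of_le one_pos (le_max_left _ _)
    have h3 : 0 < max 1 ‖w‖ := lt_of_lt_of_le one_pos (le_max_left _ _)
    have h4 : 0 < ‖g.eval z‖ / max 1 ‖z‖ ^ q := by
      have := norm_pos_iff.2 hz
      positivity
    have h5 : 0 < ‖g.eval w‖ / max 1 ‖w‖ ^ q := by
      have := norm_pos_iff.2 hw'
      positivity
    unfold lam
    have h6 := hdpos z w hzw
    rcases le_total (‖g.eval z‖ / max 1 ‖z‖ ^ q) (‖g.eval w‖ / max 1 ‖w‖ ^ q) with h7 | h7
    · refine (min_le_right _ _).trans ?_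
      have h8 : dst z w ≤ 2 * K * (‖g.eval w‖ / max 1 ‖w‖ ^ q) := by nlinarith
      have h9 := Real.log_le_log h6 h8
      rw [Real.log_mul (by positivity) h5.ne'] at h9
      linarith
    · refine (min_le_left _ _).trans ?_
      have h8 : dst z w ≤ 2 * K * (‖g.eval z‖ / max 1 ‖z‖ ^ q) := by nlinarith
      have h9 := Real.log_le_log h6 h8
      rw [Real.log_mul (by positivity) h4.ne'] at h9
      linarith
  apply hred
  rcases isEmpty_or_nonempty J with hJe | hJe
  · refine ⟨c⁻¹, by positivity, fun _ => 0, ?_⟩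
    intro z w _
    rw [← hE z, ← hE w]
    simp only [Finset.univ_eq_empty, Finset.prod_empty, mul_one]
    rw [mul_add, inv_mul_cancel₀ hc.ne']
    unfold dst
    have h2 : 1 ≤ max 1 ‖z‖ := le_max_left _ _
    have h3 : 1 ≤ max 1 ‖w‖ := le_max_left _ _
    rw [div_le_iff₀ (by positivity)]
    have h4 : ‖z‖ ≤ max 1 ‖z‖ := le_max_right _ _
    have h5 : ‖w‖ ≤ max 1 ‖w‖ := le_max_right _ _
    have h6 := norm_sub_le z w
    nlinarith
  · obtain ⟨K, hK, ι, hι⟩ := exists_near J w hw hne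
    have e : J ≃ Fin q := Fintype.equivFinOfCardEq hJ
    refine ⟨K / c, by positivity, fun z => (e (ι z)).castSucc, ?_⟩
    intro x y hxy
    have h0 : ι x = ι y := e.injective (Fin.castSucc_injective _ hxy)
    have h1 := ch_tri ((x, 1) : A × A) (w (ι x)) (y, 1) (vec_ne x) (hw _) (vec_ne y)
    rw [ch_vec, ch_comm (w (ι x)) (y, 1)] at h1
    have h2 := hι x
    have h3 := hι y
    rw [← h0] at h3
    rw [← hE x, ← hE y]
    have h4 : K / c * (c * ∏ j, ch ((x, 1) : A × A) (w j) + c * ∏ j, ch ((y, 1) : A × A) (w j)) =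
        K * ∏ j, ch ((x, 1) : A × A) (w j) + K * ∏ j, ch ((y, 1) : A × A) (w j) := by
      field_simp
    rw [h4]
    linarith

/-- two points with the same nearest zero are close to each other -/
theorem local_close {A : Type} [NormedField A] [IsAlgClosed A] (g : A[X]) (hg : Squarefree g)
    (q : ℕ) (hq : q = g.natDegree ∨ q = g.natDegree + 1) :
    ∃ (C : ℝ) (ι : A → Fin (q + 1)), ∀ z w : A, z ≠ w → g.eval z ≠ 0 → g.eval w ≠ 0 →
      ι z = ι w → min (lam g q z) (lam g q w) ≤ -Real.log (dst z w) + C := by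
  classical
  have hg0 : g ≠ 0 := hg.ne_zero
  have hsep : g.Separable := PerfectField.separable_iff_squarefree.2 hg
  have hnd : g.roots.Nodup := nodup_roots hsep
  have hspl : g.Splits := IsAlgClosed.splits g
  have hcard : g.roots.toFinset.card = g.natDegree := by
    rw [Multiset.toFinset_card_of_nodup hnd]
    exact (splits_iff_card_roots.1 hspl)
  have hprod : ∀ z : A, ‖g.eval z‖ = ‖g.leadingCoeff‖ * ∏ a : g.roots.toFinset, ‖z - (a : A)‖ := by
    intro z
    have h1 := hspl.eval_eq_prod_roots z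
    have h2 : (g.roots.map fun a => z - a).prod = ∏ a ∈ g.roots.toFinset, (z - a) := by
      rw [Finset.prod, Multiset.toFinset_val, Multiset.dedup_eq_self.2 hnd]
    rw [h1, h2, norm_mul, norm_prod, Finset.prod_coe_sort g.roots.toFinset fun a => ‖z - a‖]
  have hlc : 0 < ‖g.leadingCoeff‖ := norm_pos_iff.2 (leadingCoeff_ne_zero.2 hg0)
  have hdst : ∀ z a : A, ‖z - a‖ = ch ((z, 1) : A × A) (a, 1) * (max 1 ‖z‖ * max 1 ‖a‖) := by
    intro z a
    rw [ch_vec, dst]
    have h2 : 0 < max 1 ‖z‖ := lt_of_lt_of_le one_pos (le_max_left _ _)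
    have h3 : 0 < max 1 ‖a‖ := lt_of_lt_of_le one_pos (le_max_left _ _)
    rw [div_mul_cancel₀ _ (by positivity)]
  have hcard' : Fintype.card g.roots.toFinset = g.natDegree := by
    rw [Fintype.card_coe, hcard]
  have hval : ∀ z : A, ‖g.leadingCoeff‖ * (∏ a : g.roots.toFinset, max 1 ‖(a : A)‖) *
      ∏ a : g.roots.toFinset, ch ((z, 1) : A × A) ((a : A), 1) =
      ‖g.eval z‖ / max 1 ‖z‖ ^ g.natDegree := by
    intro z
    have h2 : 0 < max 1 ‖z‖ := lt_of_lt_of_le one_pos (le_max_left _ _)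
    rw [eq_div_iff (by positivity), hprod z]
    have h3 : ∏ a : g.roots.toFinset, ‖z - (a : A)‖ =
        (∏ a : g.roots.toFinset, ch ((z, 1) : A × A) ((a : A), 1)) *
        (max 1 ‖z‖ ^ g.natDegree * ∏ a : g.roots.toFinset, max 1 ‖(a : A)‖) := by
      rw [← hcard', ← Finset.card_univ, ← Finset.prod_const, ← Finset.prod_mul_distrib,
        ← Finset.prod_mul_distrib]
      exact Finset.prod_congr rfl fun a _ => hdst z a
    rw [h3]
    ring
  have hcpos : 0 < ‖g.leadingCoeff‖ * ∏ a : g.roots.toFinset, max 1 ‖(a : A)‖ := by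
    refine mul_pos hlc (Finset.prod_pos fun a _ => ?_)
    exact lt_of_lt_of_le one_pos (le_max_left _ _)
  rcases hq with hq | hq
  · subst hq
    refine close_aux g g.natDegree g.roots.toFinset (fun a => ((a : A), 1)) (fun a => vec_ne _)
      ?_ hcard' _ hcpos hval
    intro i j hij h
    apply hij
    apply Subtype.ext
    simpa [sub_eq_zero] using h
  · subst hq
    refine close_aux g (g.natDegree + 1) (Option g.roots.toFinset)
      (fun o => o.elim (1, 0) fun a => ((a : A), 1)) ?_ ?_ ?_ _ hcpos ?_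
    · rintro (_ | a)
      · intro h
        exact one_ne_zero (congrArg Prod.fst h)
      · exact vec_ne _
    · rintro (_ | i) (_ | j) hij
      · exact absurd rfl hij
      · simp
      · simp
      · intro h
        apply hij
        congr 1
        apply Subtype.ext
        simpa [sub_eq_zero] using h
    · rw [Fintype.card_option, hcard']
    · intro z
      rw [Fintype.prod_option]
      simp only [Option.elim_none, Option.elim_some]
      rw [ch_inf, mul_left_comm, hval z, pow_succ]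
      have h2 : 0 < max 1 ‖z‖ := lt_of_lt_of_le one_pos (le_max_left _ _)
      field_simp

theorem local_lower {A : Type} [NormedField A] (g : A[X]) (q : ℕ)
    (hq : q = g.natDegree ∨ q = g.natDegree + 1) :
    ∃ C : ℝ, ∀ z : A, g.eval z ≠ 0 → -C ≤ lam g q z := by
  set S : ℝ := ∑ i ∈ Finset.range (g.natDegree + 1), ‖g.coeff i‖ with hS
  have hS0 : 0 ≤ S := Finset.sum_nonneg fun i _ => norm_nonneg _
  refine ⟨Real.log (S + 1), ?_⟩
  intro z hz
  have h1 : 1 ≤ max 1 ‖z‖ := le_max_left _ _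
  have h2 : ‖g.eval z‖ ≤ S * max 1 ‖z‖ ^ q := by
    rw [eval_eq_sum_range, hS, Finset.sum_mul]
    refine (norm_sum_le _ _).trans (Finset.sum_le_sum fun i hi => ?_)
    rw [norm_mul, norm_pow]
    refine mul_le_mul_of_nonneg_left ?_ (norm_nonneg _)
    calc ‖z‖ ^ i ≤ max 1 ‖z‖ ^ i := pow_le_pow_left₀ (norm_nonneg _) (le_max_right _ _) _
      _ ≤ max 1 ‖z‖ ^ q := by
        refine pow_le_pow_right₀ h1 ?_
        have := Finset.mem_range.1 hi
        omega
  have h3 : 0 < ‖g.eval z‖ / max 1 ‖z‖ ^ q := by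
    have := norm_pos_iff.2 hz
    positivity
  have h4 : ‖g.eval z‖ / max 1 ‖z‖ ^ q ≤ S + 1 := by
    rw [div_le_iff₀ (by positivity)]
    have : 0 ≤ max 1 ‖z‖ ^ q := by positivity
    linarith
  unfold lam
  have h5 := Real.log_le_log h3 h4
  linarith

end Pool.Agent.AA
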