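import Pool.Agent.AA.Defs2
import Pool.Agent.RefW.DenIdeal
import Pool.Agent.RefW.NormProd

/-!
# AA: the product formula for a difference
-/

set_option autoImplicit false

open Polynomial NumberField IntermediateField Module

namespace Pool.Agent.AA

/-- the norm of an ideal is a combination of the norms of its elements -/
theorem norm_induction {K : Type} [Field K] [NumberField K] (I : Ideal (𝓞 K)) (P : ℤ → Prop)
    (h0 : P 0) (hadd : ∀ a b, P a → P b → P (a + b)) (hmul : ∀ r a, P a → P (r * a))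
    (h : ∀ c ∈ I, P (Algebra.norm ℤ c)) : P (Ideal.absNorm I : ℤ) := by
  have h1 : (Ideal.absNorm I : ℤ) ∈ Ideal.relNorm ℤ I := by
    rw [Ideal.relNorm_int]
    exact Ideal.mem_span_singleton_self _
  rw [Ideal.relNorm_apply] at h1
  generalize (Ideal.absNorm I : ℤ) = m at h1 ⊢
  induction h1 using Submodule.span_induction with
  | mem y hy =>
    obtain ⟨b, hb, rfl⟩ := hy
    rw [Algebra.intNorm_eq_norm]
    exact h b hb
  | zero => exact h0
  | add y z _ _ hy hz => exact hadd _ _ hy hz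
  | smul r y _ hy => exact hmul _ _ hy

/-- the product of the conjugates is the norm -/
theorem prod_embeddings_eq {K : Type} [Field K] [NumberField K] (A : Type) [NormedField A]
    [CharZero A] [IsAlgClosed A] (z : K) :
    ∏ σ : K →+* A, ‖σ z‖ = ‖((Algebra.norm ℚ z : ℚ) : A)‖ := by
  have h1 := Algebra.norm_eq_prod_embeddings ℚ A z
  have h2 : ∏ σ : K →ₐ[ℚ] A, σ z = ∏ ρ : K →+* A, ρ z :=
    (Fintype.prod_equiv (RingHom.equivRatAlgHom K A) _ _ fun ρ => rfl).symm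
  rw [h2, eq_ratCast] at h1
  rw [← norm_prod, ← h1]

theorem padic_norm_int {p : ℕ} [Fact p.Prime] (m : ℤ) : ‖(m : ℂ_[p])‖ = ‖(m : ℚ_[p])‖ := by
  have h4 : (((m : ℤ) : ℚ_[p]) : ℂ_[p]) = ((m : ℤ) : ℂ_[p]) :=
    map_intCast (algebraMap ℚ_[p] ℂ_[p]) m
  rw [← h4, PadicComplex.norm_extends']

/-- the denominator ideal at a prime number -/
theorem denIdeal_padic {K : Type} [Field K] [NumberField K] (p : ℕ) [Fact p.Prime] (x : K) :
    ‖((Ideal.absNorm (RefW.denIdealOf x) : ℤ) : ℂ_[p])‖ * ∏ σ : K →+* ℂ_[p], max 1 ‖σ x‖ ≤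
      1 := by
  have hQ : 0 ≤ ∏ σ : K →+* ℂ_[p], max 1 ‖σ x‖ :=
    Finset.prod_nonneg fun σ _ => le_trans zero_le_one (le_max_left _ _)
  refine norm_induction (RefW.denIdealOf x)
    (fun m => ‖(m : ℂ_[p])‖ * ∏ σ : K →+* ℂ_[p], max 1 ‖σ x‖ ≤ 1) ?_ ?_ ?_ ?_
  · simp
  · intro a b ha hb
    push_cast
    refine (mul_le_mul_of_nonneg_right (IsUltrametricDist.norm_add_le_max _ _) hQ).trans ?_
    rcases le_total ‖(a : ℂ_[p])‖ ‖(b : ℂ_[p])‖ with h | h
    · rw [max_eq_right h]; exact hb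
    · rw [max_eq_left h]; exact ha
  · intro r a ha
    push_cast
    rw [norm_mul]
    have h1 : ‖(r : ℂ_[p])‖ ≤ 1 := by
      rw [padic_norm_int]
      exact Padic.norm_int_le_one r
    have h2 : 0 ≤ ‖(a : ℂ_[p])‖ * ∏ σ : K →+* ℂ_[p], max 1 ‖σ x‖ := by positivity
    calc ‖(r : ℂ_[p])‖ * ‖(a : ℂ_[p])‖ * ∏ σ : K →+* ℂ_[p], max 1 ‖σ x‖
        = ‖(r : ℂ_[p])‖ * (‖(a : ℂ_[p])‖ * ∏ σ : K →+* ℂ_[p], max 1 ‖σ x‖) := by ring
      _ ≤ 1 * (‖(a : ℂ_[p])‖ * ∏ σ : K →+* ℂ_[p], max 1 ‖σ x‖) :=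
        mul_le_mul_of_nonneg_right h1 h2
      _ ≤ 1 := by rw [one_mul]; exact ha
  · rintro c ⟨t, ht⟩
    have h1 : ‖((Algebra.norm ℤ c : ℤ) : ℂ_[p])‖ = ∏ σ : K →+* ℂ_[p], ‖σ (c : K)‖ :=
      (SST.prodK_norm_prod ℂ_[p] c).symm
    rw [h1, ← Finset.prod_mul_distrib]
    refine Finset.prod_le_one (fun σ _ => by positivity) fun σ _ => ?_
    rw [mul_max_of_nonneg _ _ (norm_nonneg _), mul_one, ← norm_mul, ← map_mul, ← ht]
    exact max_le (RefW.norm_le_one_of_ringOfIntegers p σ c)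
      (RefW.norm_le_one_of_ringOfIntegers p σ t)

/-- the product of the differences over one completion -/
private theorem sum_dst_eq {K : Type} [Field K] [NumberField K] (A : Type) [NormedField A]
    [CharZero A] [IsAlgClosed A] (x y : K) (hxy : x ≠ y) :
    ∑ σ : K →+* A, -Real.log (dst (σ x) (σ y)) =
      -Real.log ‖((Algebra.norm ℚ (x - y) : ℚ) : A)‖ +
      Real.log (∏ σ : K →+* A, max 1 ‖σ x‖) + Real.log (∏ σ : K →+* A, max 1 ‖σ y‖) := by
  rw [← prod_embeddings_eq A (x - y), Real.log_prod, Real.log_prod, Real.log_prod,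
    ← Finset.sum_neg_distrib, ← Finset.sum_add_distrib, ← Finset.sum_add_distrib]
  · refine Finset.sum_congr rfl fun σ _ => ?_
    have h1 : 0 < ‖σ x - σ y‖ := by
      rw [norm_pos_iff, sub_ne_zero]
      exact fun h => hxy (σ.injective h)
    have h2 : 0 < max 1 ‖σ x‖ := lt_of_lt_of_le one_pos (le_max_left _ _)
    have h3 : 0 < max 1 ‖σ y‖ := lt_of_lt_of_le one_pos (le_max_left _ _)
    rw [dst, Real.log_div h1.ne' (by positivity), Real.log_mul h2.ne' h3.ne', map_sub]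
    ring
  · intro σ _
    exact (lt_of_lt_of_le one_pos (le_max_left _ _)).ne'
  · intro σ _
    exact (lt_of_lt_of_le one_pos (le_max_left _ _)).ne'
  · intro σ _
    rw [norm_ne_zero_iff, Ne, map_eq_zero, sub_eq_zero]
    exact hxy

/-- the product formula for a difference -/
theorem sum_dst_le (K : Type) [Field K] [NumberField K] {r : ℕ} (p : Fin r → ℕ)
    [∀ t, Fact (p t).Prime] (hp : Function.Injective p) (x y : K) (hxy : x ≠ y) :
    (∑ σ : K →+* ℂ, -Real.log (dst (σ x) (σ y))) +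
      ∑ t, ∑ σ : K →+* ℂ_[p t], -Real.log (dst (σ x) (σ y)) ≤
      finrank ℚ K * (SST.ht K x + SST.ht K y) := by
  classical
  set w : ℚ := Algebra.norm ℚ (x - y) with hw
  have hw0 : w ≠ 0 := by
    rw [hw, Algebra.norm_ne_zero_iff, sub_ne_zero]
    exact hxy
  obtain ⟨ha0, ha⟩ := RefW.denIdeal_norm_le x
  obtain ⟨hb0, hb⟩ := RefW.denIdeal_norm_le y
  set a : ℕ := Ideal.absNorm (RefW.denIdealOf x) with hadef
  set b : ℕ := Ideal.absNorm (RefW.denIdealOf y) with hbdef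
  have ha1 : a ≠ 0 := by rw [hadef, Ne, Ideal.absNorm_eq_zero_iff]; exact ha0
  have hb1 : b ≠ 0 := by rw [hbdef, Ne, Ideal.absNorm_eq_zero_iff]; exact hb0
  -- an integer
  obtain ⟨j, hj⟩ : ∃ j : ℤ, (j : ℚ) = w * (((a * b : ℕ) : ℤ) : ℚ) := by
    have h1 := norm_induction (RefW.denIdealOf x * RefW.denIdealOf y)
      (fun m => ∃ j : ℤ, (j : ℚ) = w * (m : ℚ)) ⟨0, by simp⟩ ?_ ?_ ?_
    · rwa [map_mul] at h1
    · rintro m n ⟨i, hi⟩ ⟨j, hj⟩
      refine ⟨i + j, ?_⟩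
      push_cast
      rw [hi, hj]
      ring
    · rintro m n ⟨i, hi⟩
      refine ⟨m * i, ?_⟩
      push_cast
      rw [hi]
      ring
    · intro c hc
      obtain ⟨s, hs⟩ := Ideal.mul_le_left hc
      obtain ⟨t, ht⟩ := Ideal.mul_le_right hc
      refine ⟨Algebra.norm ℤ (s - t), ?_⟩
      rw [Algebra.coe_norm_int, Algebra.coe_norm_int, hw, ← map_mul]
      congr 1
      have e1 : ((s - t : 𝓞 K) : K) = (s : K) - (t : K) := rfl
      rw [e1, hs, ht]
      ring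
  have hjne : j ≠ 0 := by
    intro h
    rw [h, Int.cast_zero] at hj
    have h1 : (((a * b : ℕ) : ℤ) : ℚ) ≠ 0 := by
      have := Nat.mul_ne_zero ha1 hb1
      exact_mod_cast this
    exact mul_ne_zero hw0 h1 hj.symm
  have hjA : ∀ (A : Type) [NormedField A] [CharZero A],
      ‖(j : A)‖ = ‖(w : A)‖ * ‖((a : ℤ) : A)‖ * ‖((b : ℤ) : A)‖ := by
    intro A _ _
    have h1 : (((j : ℤ) : ℚ) : A) = ((w * (((a * b : ℕ) : ℤ) : ℚ) : ℚ) : A) := by rw [hj]
    push_cast at h1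
    rw [h1, norm_mul, norm_mul]
    push_cast
    ring
  have hprod := SST.sk_prod_ge p hp j hjne
  have hj0 : 0 < |(j : ℝ)| := by
    rw [abs_pos]
    exact_mod_cast hjne
  have hjt : ∀ t, 0 < ‖(j : ℚ_[p t])‖ := by
    intro t
    rw [norm_pos_iff]
    exact_mod_cast hjne
  have hlog : 0 ≤ Real.log |(j : ℝ)| + ∑ t, Real.log ‖(j : ℚ_[p t])‖ := by
    rw [← Real.log_prod fun t _ => (hjt t).ne',
      ← Real.log_mul hj0.ne' (Finset.prod_pos fun t _ => hjt t).ne']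
    exact Real.log_nonneg hprod
  have hX : ∀ (A : Type) [NormedField A] [CharZero A] [IsAlgClosed A] (z : K),
      0 < ∏ σ : K →+* A, max 1 ‖σ z‖ := fun A _ _ _ z =>
    Finset.prod_pos fun σ _ => lt_of_lt_of_le one_pos (le_max_left _ _)
  have hwA : ∀ (A : Type) [NormedField A] [CharZero A], 0 < ‖(w : A)‖ := by
    intro A _ _
    rw [norm_pos_iff]
    exact_mod_cast hw0
  have haA : ∀ (A : Type) [NormedField A] [CharZero A] (c : ℕ), c ≠ 0 → 0 < ‖((c : ℤ) : A)‖ := by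
    intro A _ _ c hc
    rw [norm_pos_iff]
    exact_mod_cast hc
  -- the infinite part
  have hinf : ∀ (z : K) (c : ℕ), c ≠ 0 →
      (c : ℝ) * ∏ σ : K →+* ℂ, max 1 ‖σ z‖ ≤ Height.mulHeight₁ z →
      Real.log (∏ σ : K →+* ℂ, max 1 ‖σ z‖) ≤ finrank ℚ K * SST.ht K z -
        Real.log ‖((c : ℤ) : ℂ)‖ := by
    intro z c hc hle
    have h0 : (finrank ℚ K : ℝ) ≠ 0 := Nat.cast_ne_zero.2 finrank_pos.ne'
    have h1 : (0 : ℝ) < c := Nat.cast_pos.2 (Nat.pos_of_ne_zero hc)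
    have h2 := Real.log_le_log (mul_pos h1 (hX ℂ z)) hle
    rw [Real.log_mul h1.ne' (hX ℂ z).ne'] at h2
    rw [SST.ht, mul_div_cancel₀ _ h0, Height.logHeight₁, Int.cast_natCast, Complex.norm_natCast]
    linarith
  have hfin : ∀ t (z : K), Real.log (∏ σ : K →+* ℂ_[p t], max 1 ‖σ z‖) ≤
      -Real.log ‖((Ideal.absNorm (RefW.denIdealOf z) : ℤ) : ℂ_[p t])‖ := by
    intro t z
    have h0 : Ideal.absNorm (RefW.denIdealOf z) ≠ 0 := by
      rw [Ne, Ideal.absNorm_eq_zero_iff]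
      exact (RefW.denIdeal_norm_le z).1
    have h1 := haA ℂ_[p t] _ h0
    have h2 := Real.log_le_log (mul_pos h1 (hX ℂ_[p t] z)) (denIdeal_padic (p t) z)
    rw [Real.log_mul h1.ne' (hX ℂ_[p t] z).ne', Real.log_one] at h2
    linarith
  have e1 := sum_dst_eq ℂ x y hxy
  have e2 := fun t => sum_dst_eq ℂ_[p t] x y hxy
  have i1 := hinf x a ha1 ha
  have i2 := hinf y b hb1 hb
  have i3 : Real.log |(j : ℝ)| = Real.log ‖(w : ℂ)‖ + Real.log ‖((a : ℤ) : ℂ)‖ +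
      Real.log ‖((b : ℤ) : ℂ)‖ := by
    rw [← Complex.norm_intCast, hjA ℂ, Real.log_mul (mul_pos (hwA ℂ) (haA ℂ a ha1)).ne'
      (haA ℂ b hb1).ne', Real.log_mul (hwA ℂ).ne' (haA ℂ a ha1).ne']
  have i4 : ∀ t, ∑ σ : K →+* ℂ_[p t], -Real.log (dst (σ x) (σ y)) ≤
      -Real.log ‖(j : ℚ_[p t])‖ := by
    intro t
    have h1 : Real.log ‖(j : ℚ_[p t])‖ = Real.log ‖(w : ℂ_[p t])‖ +
        Real.log ‖((a : ℤ) : ℂ_[p t])‖ + Real.log ‖((b : ℤ) : ℂ_[p t])‖ := by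
      rw [← padic_norm_int, hjA ℂ_[p t], Real.log_mul
        (mul_pos (hwA ℂ_[p t]) (haA ℂ_[p t] a ha1)).ne' (haA ℂ_[p t] b hb1).ne',
        Real.log_mul (hwA ℂ_[p t]).ne' (haA ℂ_[p t] a ha1).ne']
    have h2 := hfin t x
    have h3 := hfin t y
    rw [e2 t, h1]
    linarith
  have i5 := Finset.sum_le_sum fun t (_ : t ∈ Finset.univ) => i4 t
  rw [Finset.sum_neg_distrib] at i5
  rw [e1]
  linarith

end Pool.Agent.AA
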