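import Pool.Agent.AA.Defs2
import Pool.Agent.AA.GapAbs
import Pool.Agent.AA.Local
import Pool.Agent.AA.ProdF

/-!
# AA: the gap principle
-/

set_option autoImplicit false

open Polynomial NumberField IntermediateField Module

namespace Pool.Agent.AA

namespace GapAux

theorem eval_map_comp {k K A : Type} [Field k] [Field K] [Algebra k K] [NormedField A] (g : k[X])
    (σ : K →+* A) (x : K) :
    (g.map (σ.comp (algebraMap k K))).eval (σ x) = σ (aeval x g) := by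
  rw [eval_map, aeval_def, hom_eval₂]

theorem lam_comp {k K A : Type} [Field k] [Field K] [Algebra k K] [NormedField A] (g : k[X])
    (q : ℕ) (σ : K →+* A) (x : K) :
    lam (g.map (σ.comp (algebraMap k K))) q (σ x) =
      -Real.log (‖σ (aeval x g)‖ / max 1 ‖σ x‖ ^ q) := by
  rw [lam, eval_map_comp]

theorem squarefree_map {k A : Type} [Field k] [CharZero k] [Field A] (g : k[X])
    (hg : Squarefree g) (ρ : k →+* A) : Squarefree (g.map ρ) := by
  have h1 : g.Separable := PerfectField.separable_iff_squarefree.2 hg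
  exact (h1.map (f := ρ)).squarefree

end GapAux

open GapAux in
theorem gap_count (k : Type) [Field k] [NumberField k] {r : ℕ} (p : Fin r → ℕ)
    [∀ t, Fact (p t).Prime] (hp : Function.Injective p) (g : k[X]) (hg : Squarefree g) (q : ℕ)
    (hq : q = g.natDegree ∨ q = g.natDegree + 1) (n : ℕ) (hn : 0 < n) (ε β : ℝ) (hε : 0 < ε)
    (hβ : 0 < β) :
    ∃ C T₀ : ℝ, 1 ≤ C ∧ 1 ≤ T₀ ∧ ∀ (K : Type) [Field K] [NumberField K] [Algebra k K],
      finrank k K = n → ∀ T : ℝ, 1 ≤ T →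
      {x : K | aeval x g ≠ 0 ∧ (2 + ε) * SST.ht K x ≤ SST.proxK p g q K x ∧
        SST.proxK p g q K x ≤ (2 + β) * SST.ht K x ∧ T₀ ≤ SST.ht K x ∧
        SST.ht K x ≤ T}.Finite ∧
      ({x : K | aeval x g ≠ 0 ∧ (2 + ε) * SST.ht K x ≤ SST.proxK p g q K x ∧
        SST.proxK p g q K x ≤ (2 + β) * SST.ht K x ∧ T₀ ≤ SST.ht K x ∧
        SST.ht K x ≤ T}.ncard : ℝ) ≤ C * (1 + Real.log T) := by
  classical
  have hqI : ∀ ρ : k →+* ℂ, q = (g.map ρ).natDegree ∨ q = (g.map ρ).natDegree + 1 := by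
    intro ρ
    rw [natDegree_map]
    exact hq
  have hqP : ∀ (t : Fin r) (ρ : k →+* ℂ_[p t]),
      q = (g.map ρ).natDegree ∨ q = (g.map ρ).natDegree + 1 := by
    intro t ρ
    rw [natDegree_map]
    exact hq
  choose aI ha using fun ρ : k →+* ℂ => local_lower (g.map ρ) q (hqI ρ)
  choose aP haP using fun (t : Fin r) (ρ : k →+* ℂ_[p t]) => local_lower (g.map ρ) q (hqP t ρ)
  choose bI iI hI using fun ρ : k →+* ℂ =>
    local_close (g.map ρ) (squarefree_map g hg ρ) q (hqI ρ)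
  choose bP iP hP using fun (t : Fin r) (ρ : k →+* ℂ_[p t]) =>
    local_close (g.map ρ) (squarefree_map g hg ρ) q (hqP t ρ)
  set C1 : ℝ := (∑ ρ : k →+* ℂ, |aI ρ|) + ∑ t, ∑ ρ : k →+* ℂ_[p t], |aP t ρ| with hC1
  set C2 : ℝ := (∑ ρ : k →+* ℂ, |bI ρ|) + ∑ t, ∑ ρ : k →+* ℂ_[p t], |bP t ρ| with hC2
  have haI1 : ∀ ρ, aI ρ ≤ C1 := by
    intro ρ
    have h1 : |aI ρ| ≤ ∑ ρ : k →+* ℂ, |aI ρ| :=
      Finset.single_le_sum (fun ρ _ => abs_nonneg (aI ρ)) (Finset.mem_univ ρ)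
    have h2 : 0 ≤ ∑ t, ∑ ρ : k →+* ℂ_[p t], |aP t ρ| :=
      Finset.sum_nonneg fun t _ => Finset.sum_nonneg fun ρ _ => abs_nonneg _
    have h3 := le_abs_self (aI ρ)
    rw [hC1]
    linarith
  have hbI1 : ∀ ρ, bI ρ ≤ C2 := by
    intro ρ
    have h1 : |bI ρ| ≤ ∑ ρ : k →+* ℂ, |bI ρ| :=
      Finset.single_le_sum (fun ρ _ => abs_nonneg (bI ρ)) (Finset.mem_univ ρ)
    have h2 : 0 ≤ ∑ t, ∑ ρ : k →+* ℂ_[p t], |bP t ρ| :=
      Finset.sum_nonneg fun t _ => Finset.sum_nonneg fun ρ _ => abs_nonneg _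
    have h3 := le_abs_self (bI ρ)
    rw [hC2]
    linarith
  have haP1 : ∀ t ρ, aP t ρ ≤ C1 := by
    intro t ρ
    have h1 : |aP t ρ| ≤ ∑ ρ : k →+* ℂ_[p t], |aP t ρ| :=
      Finset.single_le_sum (fun ρ _ => abs_nonneg (aP t ρ)) (Finset.mem_univ ρ)
    have h2 : ∑ ρ : k →+* ℂ_[p t], |aP t ρ| ≤ ∑ t, ∑ ρ : k →+* ℂ_[p t], |aP t ρ| :=
      Finset.single_le_sum (f := fun t => ∑ ρ : k →+* ℂ_[p t], |aP t ρ|)
        (fun t _ => Finset.sum_nonneg fun ρ _ => abs_nonneg _) (Finset.mem_univ t)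
    have h3 := le_abs_self (aP t ρ)
    have h4 : 0 ≤ ∑ ρ : k →+* ℂ, |aI ρ| := Finset.sum_nonneg fun ρ _ => abs_nonneg _
    rw [hC1]
    linarith
  have hbP1 : ∀ t ρ, bP t ρ ≤ C2 := by
    intro t ρ
    have h1 : |bP t ρ| ≤ ∑ ρ : k →+* ℂ_[p t], |bP t ρ| :=
      Finset.single_le_sum (fun ρ _ => abs_nonneg (bP t ρ)) (Finset.mem_univ ρ)
    have h2 : ∑ ρ : k →+* ℂ_[p t], |bP t ρ| ≤ ∑ t, ∑ ρ : k →+* ℂ_[p t], |bP t ρ| :=
      Finset.single_le_sum (f := fun t => ∑ ρ : k →+* ℂ_[p t], |bP t ρ|)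
        (fun t _ => Finset.sum_nonneg fun ρ _ => abs_nonneg _) (Finset.mem_univ t)
    have h3 := le_abs_self (bP t ρ)
    have h4 : 0 ≤ ∑ ρ : k →+* ℂ, |bI ρ| := Finset.sum_nonneg fun ρ _ => abs_nonneg _
    rw [hC2]
    linarith
  have hC1' : 0 ≤ C1 := add_nonneg (Finset.sum_nonneg fun ρ _ => abs_nonneg _)
    (Finset.sum_nonneg fun t _ => Finset.sum_nonneg fun ρ _ => abs_nonneg _)
  have hC2' : 0 ≤ C2 := add_nonneg (Finset.sum_nonneg fun ρ _ => abs_nonneg _)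
    (Finset.sum_nonneg fun t _ => Finset.sum_nonneg fun ρ _ => abs_nonneg _)
  set N : ℕ := finrank ℚ k * n with hN
  have hN0 : 0 < N := Nat.mul_pos finrank_pos hn
  obtain ⟨C, T₀, hC, hT₀, H⟩ := gap_abstract N (N + r * N) q hN0 (by omega) ε β C1 C2 hε hβ
    hC1' hC2'
  refine ⟨C, T₀, hC, hT₀, ?_⟩
  intro K _ _ _ hK T hT
  have hKN : finrank ℚ K = N := by
    rw [hN, ← hK, finrank_mul_finrank ℚ k K]
  set Lam : K → (K →+* ℂ) ⊕ (Σ t, K →+* ℂ_[p t]) → ℝ := fun x => Sum.elim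
    (fun σ => lam (g.map (σ.comp (algebraMap k K))) q (σ x))
    (fun s => lam (g.map (s.2.comp (algebraMap k K))) q (s.2 x)) with hLam
  set ι : K → (K →+* ℂ) ⊕ (Σ t, K →+* ℂ_[p t]) → Fin (q + 1) := fun x => Sum.elim
    (fun σ => iI (σ.comp (algebraMap k K)) (σ x))
    (fun s => iP s.1 (s.2.comp (algebraMap k K)) (s.2 x)) with hι
  set DL : K → K → (K →+* ℂ) ⊕ (Σ t, K →+* ℂ_[p t]) → ℝ := fun x y => Sum.elim
    (fun σ => -Real.log (dst (σ x) (σ y)))
    (fun s => -Real.log (dst (s.2 x) (s.2 y))) with hDL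
  have hsum : ∀ x, (∑ j, Lam x j) / N = SST.proxK p g q K x := by
    intro x
    rw [SST.proxK, hKN, Fintype.sum_sum_type, Fintype.sum_sigma]
    congr 2
    · refine Finset.sum_congr rfl fun σ _ => ?_
      simp only [hLam, Sum.elim_inl]
      exact lam_comp g q σ x
    · refine Finset.sum_congr rfl fun t _ => Finset.sum_congr rfl fun σ _ => ?_
      simp only [hLam, Sum.elim_inr]
      exact lam_comp g q σ x
  have hcard : Fintype.card ((K →+* ℂ) ⊕ (Σ t, K →+* ℂ_[p t])) = N + r * N := by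
    rw [Fintype.card_sum, Fintype.card_sigma, NumberField.Embeddings.card, hKN]
    congr 1
    rw [Finset.sum_congr rfl (g := fun _ => N)]
    · simp
    · intro t _
      rw [NumberField.Embeddings.card, hKN]
  have hne : ∀ {A : Type} [NormedField A] (σ : K →+* A) (x : K), aeval x g ≠ 0 →
      (g.map (σ.comp (algebraMap k K))).eval (σ x) ≠ 0 := by
    intro A _ σ x hx
    rw [eval_map_comp]
    exact (map_ne_zero σ).2 hx
  have key := H K ((K →+* ℂ) ⊕ (Σ t, K →+* ℂ_[p t])) hcard (fun x => aeval x g ≠ 0) Lam ι DL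
    (SST.ht K) ?_ ?_ ?_ T hT
  · simp only [hsum] at key
    exact key
  · rintro x hx (σ | ⟨t, σ⟩)
    · simp only [hLam, Sum.elim_inl]
      have h1 := ha (σ.comp (algebraMap k K)) (σ x) (hne σ x hx)
      have h2 := haI1 (σ.comp (algebraMap k K))
      linarith
    · simp only [hLam, Sum.elim_inr]
      have h1 := haP t (σ.comp (algebraMap k K)) (σ x) (hne σ x hx)
      have h2 := haP1 t (σ.comp (algebraMap k K))
      linarith
  · rintro x y hxy hx hy (σ | ⟨t, σ⟩) hj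
    · simp only [hLam, hι, hDL, Sum.elim_inl] at hj ⊢
      have h1 := hI (σ.comp (algebraMap k K)) (σ x) (σ y) (fun h => hxy (σ.injective h))
        (hne σ x hx) (hne σ y hy) hj
      have h2 := hbI1 (σ.comp (algebraMap k K))
      linarith
    · simp only [hLam, hι, hDL, Sum.elim_inr] at hj ⊢
      have h1 := hP t (σ.comp (algebraMap k K)) (σ x) (σ y) (fun h => hxy (σ.injective h))
        (hne σ x hx) (hne σ y hy) hj
      have h2 := hbP1 t (σ.comp (algebraMap k K))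
      linarith
  · intro x y hxy
    have h1 := sum_dst_le K p hp x y hxy
    rw [hKN] at h1
    rw [Fintype.sum_sum_type, Fintype.sum_sigma]
    simpa only [hDL, Sum.elim_inl, Sum.elim_inr] using h1

end Pool.Agent.AA
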