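import Pool.Agent.AA.Defs2
import Mathlib.FieldTheory.Finite.GaloisField
import Mathlib.FieldTheory.PrimitiveElement
import Mathlib.Algebra.Polynomial.Eval.Irreducible

/-!
# Irreducible polynomials modulo two
-/

set_option autoImplicit false

open Polynomial NumberField IntermediateField Module

namespace Pool.Agent.AA

private theorem exists_irred (n : ℕ) (hn : 2 ≤ n) :
    ∃ φ : (ZMod 2)[X], φ.Monic ∧ Irreducible φ ∧ φ.natDegree = n := by
  have : Fact (Nat.Prime 2) := ⟨Nat.prime_two⟩
  have hfin : FiniteDimensional (ZMod 2) (GaloisField 2 n) := inferInstance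
  obtain ⟨a, ha⟩ := Field.exists_primitive_element (ZMod 2) (GaloisField 2 n)
  have hint : IsIntegral (ZMod 2) a := Algebra.IsIntegral.isIntegral a
  refine ⟨minpoly (ZMod 2) a, minpoly.monic hint, minpoly.irreducible hint, ?_⟩
  rw [← IntermediateField.adjoin.finrank hint, ha, IntermediateField.finrank_top',
    GaloisField.finrank 2 (by omega)]

private theorem zmod_two (a : ZMod 2) : a = 0 ∨ a = 1 := by
  fin_cases a
  · exact Or.inl rfl
  · exact Or.inr rfl

private def toFin (a : ZMod 2) : Fin 2 := a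

private theorem toFin_cast (a : ZMod 2) : ((toFin a : ℕ) : ZMod 2) = a := by
  rcases zmod_two a with h | h <;> rw [h] <;> rfl

/-- an irreducible polynomial modulo two, and its lifts -/
theorem exists_residues (n : ℕ) (hn : 2 ≤ n) : ∃ c : Fin (n + 1) → Fin 2, c 0 = 1 ∧
    c (Fin.last n) = 1 ∧ (∑ i, (c i : ℕ)) % 2 = 1 ∧
    ∀ f : ℤ[X], f.Monic → f.natDegree = n → (∀ i : Fin (n + 1), (2 : ℤ) ∣ f.coeff i - (c i : ℕ)) →
      Irreducible f := by
  obtain ⟨φ, hm, hirr, hd⟩ := exists_irred n hn
  have hroot : ∀ a : ZMod 2, φ.eval a ≠ 0 := by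
    have : Fact (Nat.Prime 2) := ⟨Nat.prime_two⟩
    intro a h
    have := Polynomial.degree_eq_one_of_irreducible_of_root hirr h
    rw [Polynomial.degree_eq_natDegree hirr.ne_zero, hd] at this
    have h2 : n = 1 := by exact_mod_cast this
    omega
  refine ⟨fun i => toFin (φ.coeff i), ?_, ?_, ?_, ?_⟩
  · rcases zmod_two (φ.coeff 0) with h | h
    · exact absurd (by rw [← Polynomial.coeff_zero_eq_eval_zero]; exact h) (hroot 0)
    · exact h
  · have : φ.coeff n = 1 := by rw [← hd]; exact hm.coeff_natDegree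
    exact this
  · have h1 : φ.eval 1 = 1 := (zmod_two _).resolve_left (hroot 1)
    rw [Polynomial.eval_eq_sum_range, hd] at h1
    simp only [one_pow, mul_one] at h1
    rw [Finset.sum_range] at h1
    have h2 : ((∑ i : Fin (n + 1), (toFin (φ.coeff i) : ℕ) : ℕ) : ZMod 2) = 1 := by
      rw [Nat.cast_sum, ← h1]
      exact Finset.sum_congr rfl fun i _ => toFin_cast _
    exact (ZMod.natCast_eq_natCast_iff' _ 1 2).mp (by rw [h2, Nat.cast_one])
  · intro f hf hfd hfc
    have hmap : f.map (Int.castRingHom (ZMod 2)) = φ := by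
      ext i
      rw [Polynomial.coeff_map]
      by_cases hi : i < n + 1
      · have h1 := hfc ⟨i, hi⟩
        have h2 : ((f.coeff i - ((toFin (φ.coeff i) : ℕ) : ℤ) : ℤ) : ZMod 2) = 0 :=
          (ZMod.intCast_zmod_eq_zero_iff_dvd _ 2).mpr (by exact_mod_cast h1)
        rw [Int.cast_sub, sub_eq_zero] at h2
        rw [eq_intCast, h2, Int.cast_natCast]
        exact toFin_cast _
      · rw [Polynomial.coeff_eq_zero_of_natDegree_lt (by omega),
          Polynomial.coeff_eq_zero_of_natDegree_lt (by omega), map_zero]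
    refine Polynomial.Monic.irreducible_of_irreducible_map (Int.castRingHom (ZMod 2)) f hf ?_
    rw [hmap]
    exact hirr

end Pool.Agent.AA
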