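import Pool.Agent.AA.Defs2
import Pool.Agent.RefW.Fibre
import Pool.Agent.RefW.Final
import Pool.Agent.RefW.Height
import Pool.Agent.RefW.Mahler

/-!
# The values of a polynomial at algebraic numbers and the proximity function of its roots
-/

set_option autoImplicit false

open Polynomial NumberField IntermediateField Module Pool.Agent.RefW
open scoped Classical

namespace Pool.Agent.AA

section fibres

variable {k : Type} [Field k] [NumberField k] {n : ℕ} {F : Fin (n + 1) → 𝓞 k}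
  {K : Type} [Field K] [NumberField K] [Algebra k K] {x : K}

omit [NumberField k] in
theorem link_coeff (F : Fin (n + 1) → 𝓞 k) (i : Fin (n + 1)) :
    (polyOf F).coeff i = F i := by
  unfold polyOf
  rw [Polynomial.finsetSum_coeff, Finset.sum_eq_single i]
  · rw [Polynomial.coeff_C_mul_X_pow, if_pos rfl]
  · intro j _ hj
    rw [Polynomial.coeff_C_mul_X_pow, if_neg]
    exact fun h => hj (Fin.ext h.symm)
  · intro h
    exact absurd (Finset.mem_univ i) h

theorem link_last (hF : F ≠ 0) (h : RootOf F K x) : F (Fin.last n) ≠ 0 := by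
  intro h0
  apply hF
  obtain ⟨a, ha⟩ := final_coeff h
  have hint : IsIntegral k x := IsIntegral.of_finite k x
  have hdeg : (minpoly k x).natDegree = n := by
    rw [← IntermediateField.adjoin.finrank hint, h.gen, IntermediateField.finrank_top', h.deg]
  have h1 := ha n
  have h2 : (polyOf F).coeff n = F (Fin.last n) := link_coeff F (Fin.last n)
  have h3 : (minpoly k x).coeff n = 1 := by
    have := (minpoly.monic hint).coeff_natDegree
    rwa [hdeg] at this
  rw [h2, h0, h3, mul_one] at h1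
  have ha0 : a = 0 := h1.symm
  funext i
  have h4 := ha i
  rw [link_coeff, ha0, zero_mul] at h4
  exact RingOfIntegers.ext h4

/-- the values of the polynomial at `z` -/
theorem link_eval (hF : F ≠ 0) (h : RootOf F K x) {A : Type} [Field A] [IsAlgClosed A]
    [CharZero A] (ρ : k →+* A) (z : A) :
    ∑ i, ρ (F i : k) * z ^ (i : ℕ) = ρ (F (Fin.last n) : k) *
      ∏ σ : {σ : K →+* A // σ.comp (algebraMap k K) = ρ}, (z - σ.1 x) := by
  obtain ⟨e, he⟩ := exists_fibre_equiv hF h ρ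
  have h1 := congrArg (Polynomial.eval z) he
  rw [Polynomial.eval_finsetSum, Polynomial.eval_mul, Polynomial.eval_C, Polynomial.eval_prod]
    at h1
  simp only [Polynomial.eval_mul, Polynomial.eval_C, Polynomial.eval_pow, Polynomial.eval_X,
    Polynomial.eval_sub] at h1
  rw [h1]
  congr 1
  exact e.prod_comp fun σ : {σ : K →+* A // σ.comp (algebraMap k K) = ρ} => (z - σ.1 x)

theorem link_minpoly (hx : IntermediateField.adjoin k {x} = ⊤) {A : Type} [Field A]
    [IsAlgClosed A] [CharZero A] (ρ : k →+* A) (z : A) :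
    (minpoly k x).eval₂ ρ z =
      ∏ σ : {σ : K →+* A // σ.comp (algebraMap k K) = ρ}, (z - σ.1 x) := by
  obtain ⟨C, _, hC⟩ := exists_supMin k (finrank k K)
  obtain ⟨G, hG, hGr, _⟩ := hC K x hx rfl
  obtain ⟨a, ha⟩ := final_coeff hGr
  have hint : IsIntegral k x := IsIntegral.of_finite k x
  have hdeg : (minpoly k x).natDegree = finrank k K := by
    rw [← IntermediateField.adjoin.finrank hint, hx, IntermediateField.finrank_top']
  have h3 : (minpoly k x).coeff (finrank k K) = 1 := by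
    have := (minpoly.monic hint).coeff_natDegree
    rwa [hdeg] at this
  have h1 := ha (finrank k K)
  have h2 : (polyOf G).coeff (finrank k K) = G (Fin.last _) := link_coeff G (Fin.last _)
  rw [h2, h3, mul_one] at h1
  have hl := link_last hG.1 hGr
  have ha0 : ρ a ≠ 0 := by
    rw [← h1, Ne, map_eq_zero]
    exact fun h => hl (RingOfIntegers.ext h)
  have h4 := link_eval hG.1 hGr ρ z
  rw [h1] at h4
  have h5 : ∑ i, ρ (G i : k) * z ^ (i : ℕ) = ρ a * (minpoly k x).eval₂ ρ z := by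
    rw [Polynomial.eval₂_eq_sum_range, hdeg, Finset.mul_sum, ← Fin.sum_univ_eq_sum_range
      (fun i => ρ a * (ρ ((minpoly k x).coeff i) * z ^ i))]
    refine Finset.sum_congr rfl fun i _ => ?_
    have h6 := ha i
    rw [link_coeff] at h6
    rw [h6, map_mul, mul_assoc]
  rw [h5] at h4
  exact mul_left_cancel₀ ha0 h4

end fibres

/-- The product of the conjugates of the values `∑ F i v i` is a power of the leading coefficient
times the product of the conjugates of `P x`, `x` the root of `F`. -/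
def Good (k : Type) [Field k] [NumberField k] (n : ℕ) (L : Type) [Field L] [NumberField L]
    [Algebra k L] (v : Fin (n + 1) → L) (e : ℕ) (P : k[X]) : Prop :=
  ∀ F : Fin (n + 1) → 𝓞 k, F ≠ 0 → ∀ (K : Type) [Field K] [NumberField K] [Algebra k K] (x : K),
    RootOf F K x → ∀ (A : Type) [NormedField A] [IsAlgClosed A] [CharZero A],
    ∏ φ : L →+* A, ‖φ (∑ i, algebraMap k L (F i : k) * v i)‖ =
      (∏ ρ : k →+* A, ‖ρ (F (Fin.last n) : k)‖) ^ e * ∏ σ : K →+* A, ‖σ (aeval x P)‖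

theorem good_root (k : Type) [Field k] [NumberField k] (n : ℕ) (L : Type) [Field L]
    [NumberField L] [Algebra k L] (α : L) (hα : IntermediateField.adjoin k {α} = ⊤) :
    Good k n L (fun i => α ^ (i : ℕ)) (finrank k L) (minpoly k α) := by
  intro F hF K _ _ _ x h A _ _ _
  rw [← Fintype.prod_fiberwise (fun φ : L →+* A => φ.comp (algebraMap k L)),
    ← Fintype.prod_fiberwise (fun σ : K →+* A => σ.comp (algebraMap k K)),
    ← Finset.prod_pow, ← Finset.prod_mul_distrib]
  refine Finset.prod_congr rfl fun ρ _ => ?_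
  have h1 : ∀ φ : {φ : L →+* A // φ.comp (algebraMap k L) = ρ},
      ‖φ.1 (∑ i, algebraMap k L (F i : k) * α ^ (i : ℕ))‖ = ‖ρ (F (Fin.last n) : k)‖ *
        ∏ σ : {σ : K →+* A // σ.comp (algebraMap k K) = ρ}, ‖φ.1 α - σ.1 x‖ := by
    intro φ
    rw [map_sum]
    have h2 : ∀ i, φ.1 (algebraMap k L (F i : k) * α ^ (i : ℕ)) =
        ρ (F i : k) * φ.1 α ^ (i : ℕ) := by
      intro i
      rw [map_mul, map_pow]
      congr 1
      exact congrArg (fun f : k →+* A => f (F i : k)) φ.2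
    rw [Finset.sum_congr rfl fun i _ => h2 i, link_eval hF h ρ, norm_mul, norm_prod]
  have h3 : ∀ σ : {σ : K →+* A // σ.comp (algebraMap k K) = ρ},
      ‖σ.1 (aeval x (minpoly k α))‖ =
        ∏ φ : {φ : L →+* A // φ.comp (algebraMap k L) = ρ}, ‖φ.1 α - σ.1 x‖ := by
    intro σ
    have h4 : σ.1 (aeval x (minpoly k α)) = (minpoly k α).eval₂ ρ (σ.1 x) := by
      rw [aeval_def, Polynomial.hom_eval₂, σ.2]
    rw [h4, link_minpoly hα ρ, norm_prod]
    exact Finset.prod_congr rfl fun φ _ => norm_sub_rev _ _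
  rw [Finset.prod_congr rfl fun φ _ => h1 φ, Finset.prod_congr rfl fun σ _ => h3 σ,
    Finset.prod_mul_distrib, Finset.prod_comm, Finset.prod_const, Finset.card_univ]
  congr 2
  obtain ⟨C, _, hC⟩ := exists_supMin k (finrank k L)
  obtain ⟨G, hG, hGr, _⟩ := hC L α hα rfl
  obtain ⟨e, _⟩ := exists_fibre_equiv hG.1 hGr ρ
  rw [← Fintype.card_congr e, Fintype.card_fin]

theorem good_inf (k : Type) [Field k] [NumberField k] (n : ℕ) (L : Type) [Field L]
    [NumberField L] [Algebra k L] (hL : finrank k L = 1) :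
    Good k n L (fun i => if i = Fin.last n then 1 else 0) 1 1 := by
  intro F hF K _ _ _ x h A _ _ _
  have hfd : FiniteDimensional k L := FiniteDimensional.right ℚ k L
  have h1 : ∑ i, algebraMap k L (F i : k) * (if i = Fin.last n then 1 else 0) =
      algebraMap k L (F (Fin.last n) : k) := by
    simp
  have hbij : Function.Bijective (algebraMap k L) := by
    refine ⟨(algebraMap k L).injective, ?_⟩
    have := Subalgebra.bot_eq_top_of_finrank_eq_one hL
    exact Algebra.surjective_algebraMap_iff.2 this.symm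
  set ε : k ≃+* L := RingEquiv.ofBijective (algebraMap k L) hbij with hε
  simp only [map_one, norm_one, Finset.prod_const_one, mul_one, pow_one]
  rw [h1]
  refine Fintype.prod_bijective (fun φ : L →+* A => φ.comp (algebraMap k L)) ?_ _ _ fun φ => rfl
  constructor
  · intro φ ψ hφψ
    ext y
    obtain ⟨z, rfl⟩ := hbij.2 y
    exact congrArg (fun f : k →+* A => f z) hφψ
  · intro ρ
    refine ⟨ρ.comp (ε.symm : L →+* k), ?_⟩
    ext z
    have : ε.symm (algebraMap k L z) = z := ε.symm_apply_apply z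
    simp [this]

section prox

variable {k : Type} [Field k] [NumberField k] {n : ℕ} {F : Fin (n + 1) → 𝓞 k}
  {K : Type} [Field K] [NumberField K] [Algebra k K] {x : K}

theorem link_const (hF : F ≠ 0) (h : RootOf F K x) (c : k) (A : Type) [NormedField A]
    [IsAlgClosed A] [CharZero A] :
    ∏ σ : K →+* A, ‖σ (algebraMap k K c)‖ = (∏ ρ : k →+* A, ‖ρ c‖) ^ n := by
  rw [← Fintype.prod_fiberwise (fun σ : K →+* A => σ.comp (algebraMap k K)), ← Finset.prod_pow]
  refine Finset.prod_congr rfl fun ρ _ => ?_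
  have h1 : ∀ σ : {σ : K →+* A // σ.comp (algebraMap k K) = ρ},
      ‖σ.1 (algebraMap k K c)‖ = ‖ρ c‖ := fun σ =>
    congrArg norm (congrArg (fun f : k →+* A => f c) σ.2)
  rw [Finset.prod_congr rfl fun σ _ => h1 σ, Finset.prod_const, Finset.card_univ]
  congr 1
  obtain ⟨e, _⟩ := exists_fibre_equiv hF h ρ
  rw [← Fintype.card_congr e, Fintype.card_fin]

theorem link_arch (hF : F ≠ 0) (h : RootOf F K x) :
    (∏ ρ : k →+* ℂ, ‖ρ (F (Fin.last n) : k)‖) * ∏ σ : K →+* ℂ, max 1 ‖σ x‖ ≤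
      ((n + 1) * hs F) ^ finrank ℚ k := by
  rw [← Fintype.prod_fiberwise (fun σ : K →+* ℂ => σ.comp (algebraMap k K)),
    ← Finset.prod_mul_distrib]
  have hcard : Fintype.card (k →+* ℂ) = finrank ℚ k := Embeddings.card k ℂ
  rw [← hcard, ← Finset.card_univ, ← Finset.prod_const]
  refine Finset.prod_le_prod (fun ρ _ => mul_nonneg (norm_nonneg _)
    (Finset.prod_nonneg fun σ _ => zero_le_one.trans (le_max_left _ _))) fun ρ _ => ?_
  obtain ⟨e, he⟩ := exists_fibre_equiv hF h ρ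
  have h1 := (mahler_le (fun i => ρ (F i : k)) _ (fun l => (e l).1 x) he).1
  have h2 := e.prod_comp fun σ : {σ : K →+* ℂ // σ.comp (algebraMap k K) = ρ} => max 1 ‖σ.1 x‖
  rw [h2] at h1
  have hs0 : 0 ≤ hs F := norm_nonneg _
  exact h1.trans (mul_le_mul_of_nonneg_left
    ((pi_norm_le_iff_of_nonneg hs0).2 fun i => coord_le_hs F ρ i) (by positivity))

theorem link_padic (hF : F ≠ 0) (h : RootOf F K x) (p : ℕ) [Fact p.Prime] :
    (∏ ρ : k →+* ℂ_[p], ‖ρ (F (Fin.last n) : k)‖) * ∏ σ : K →+* ℂ_[p], max 1 ‖σ x‖ ≤ 1 := by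
  rw [← Fintype.prod_fiberwise (fun σ : K →+* ℂ_[p] => σ.comp (algebraMap k K)),
    ← Finset.prod_mul_distrib]
  refine Finset.prod_le_one (fun ρ _ => mul_nonneg (norm_nonneg _)
    (Finset.prod_nonneg fun σ _ => zero_le_one.trans (le_max_left _ _))) fun ρ _ => ?_
  obtain ⟨e, he⟩ := exists_fibre_equiv hF h ρ
  have h1 := gauss_eq (fun i => ρ (F i : k)) _ (fun l => (e l).1 x) he
  have h2 := e.prod_comp fun σ : {σ : K →+* ℂ_[p] // σ.comp (algebraMap k K) = ρ} =>
    max 1 ‖σ.1 x‖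
  rw [h2] at h1
  rw [h1, pi_norm_le_iff_of_nonneg zero_le_one]
  exact fun i => norm_le_one_of_ringOfIntegers p ρ (F i)

/-- the values at all places over one place of `ℚ` -/
theorem link_value {ι : Type} [Fintype ι] {L : ι → Type} [∀ j, Field (L j)]
    [∀ j, NumberField (L j)] [∀ j, Algebra k (L j)] {v : ∀ j, Fin (n + 1) → L j} {e : ι → ℕ}
    {P : ι → k[X]} (hgood : ∀ j, Good k n (L j) (v j) (e j) (P j)) {g : k[X]} {c : k}
    (hg : g = C c * ∏ j, P j) {q : ℕ} (hq : ∑ j, e j = q) (hF : F ≠ 0) (h : RootOf F K x)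
    (A : Type) [NormedField A] [IsAlgClosed A] [CharZero A] :
    (∏ j, ∏ φ : L j →+* A, ‖φ (∑ i, algebraMap k (L j) (F i : k) * v j i)‖) *
      (∏ ρ : k →+* A, ‖ρ c‖) ^ n =
      ((∏ ρ : k →+* A, ‖ρ (F (Fin.last n) : k)‖) * ∏ σ : K →+* A, max 1 ‖σ x‖) ^ q *
        ∏ σ : K →+* A, (‖σ (aeval x g)‖ / max 1 ‖σ x‖ ^ q) := by
  rw [Finset.prod_congr rfl fun j _ => hgood j F hF K x h A, Finset.prod_mul_distrib,
    Finset.prod_pow_eq_pow_sum, hq, Finset.prod_comm, ← link_const hF h c A, mul_assoc,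
    ← Finset.prod_mul_distrib, mul_pow (∏ ρ : k →+* A, ‖ρ (F (Fin.last n) : k)‖), mul_assoc]
  congr 1
  rw [← Finset.prod_pow, ← Finset.prod_mul_distrib]
  refine Finset.prod_congr rfl fun σ _ => ?_
  have h0 : (max 1 ‖σ x‖ : ℝ) ^ q ≠ 0 :=
    pow_ne_zero _ (lt_of_lt_of_le one_pos (le_max_left _ _)).ne'
  rw [mul_div_cancel₀ _ h0, hg, map_mul, aeval_C, map_mul, norm_mul, mul_comm, map_prod, map_prod,
    norm_prod]

end prox

theorem link_exp {k : Type} [Field k] [NumberField k] {r : ℕ} (p : Fin r → ℕ)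
    [∀ t, Fact (p t).Prime] (g : k[X]) (q : ℕ) (K : Type) [Field K] [NumberField K] [Algebra k K]
    (x : K) (hx : aeval x g ≠ 0) :
    (∏ σ : K →+* ℂ, (‖σ (aeval x g)‖ / max 1 ‖σ x‖ ^ q)) *
      ∏ t, ∏ σ : K →+* ℂ_[p t], (‖σ (aeval x g)‖ / max 1 ‖σ x‖ ^ q) =
      Real.exp (-(finrank ℚ K * SST.proxK p g q K x)) := by
  have hpos : ∀ {A : Type} [NormedField A] (σ : K →+* A),
      0 < ‖σ (aeval x g)‖ / max 1 ‖σ x‖ ^ q := by
    intro A _ σ
    refine div_pos (norm_pos_iff.2 ?_) (pow_pos (lt_of_lt_of_le one_pos (le_max_left _ _)) _)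
    rw [Ne, map_eq_zero]
    exact hx
  have hN : (finrank ℚ K : ℝ) ≠ 0 := by
    have := finrank_pos (R := ℚ) (M := K)
    positivity
  unfold SST.proxK
  rw [mul_div_cancel₀ _ hN, neg_add, Real.exp_add, ← Finset.sum_neg_distrib,
    ← Finset.sum_neg_distrib, Real.exp_sum, Real.exp_sum]
  congr 1
  · refine Finset.prod_congr rfl fun σ _ => ?_
    rw [neg_neg, Real.exp_log (hpos σ)]
  · refine Finset.prod_congr rfl fun t _ => ?_
    rw [← Finset.sum_neg_distrib, Real.exp_sum]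
    refine Finset.prod_congr rfl fun σ _ => ?_
    rw [neg_neg, Real.exp_log (hpos σ)]

theorem link (k : Type) [Field k] [NumberField k] {r : ℕ} (p : Fin r → ℕ)
    [∀ t, Fact (p t).Prime] (n : ℕ) {ι : Type} [Fintype ι] (L : ι → Type) [∀ j, Field (L j)]
    [∀ j, NumberField (L j)] [∀ j, Algebra k (L j)] (v : ∀ j, Fin (n + 1) → L j) (e : ι → ℕ)
    (P : ι → k[X]) (hgood : ∀ j, Good k n (L j) (v j) (e j) (P j)) (m : ℕ) (hm : m ≠ 0)
    (u : ∀ j, Fin (n + 1) → 𝓞 (L j)) (hu : ∀ j i, ((u j i : 𝓞 (L j)) : L j) = (m : L j) * v j i)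
    (g : k[X]) (c : k) (hc : c ≠ 0) (hg : g = C c * ∏ j, P j) (q : ℕ) (hq : ∑ j, e j = q) :
    ∃ C : ℝ, 0 < C ∧ ∀ (K : Type) [Field K] [NumberField K] [Algebra k K] (x : K),
      IntermediateField.adjoin k {x} = ⊤ → finrank k K = n → aeval x g ≠ 0 →
      ∃ F : Fin (n + 1) → 𝓞 k, F ≠ 0 ∧ RootOf F K x ∧ hs F ≤ C * Real.exp (n * SST.ht K x) ∧
        (∀ j, ∑ i, algebraMap k (L j) (F i : k) * (u j i : L j) ≠ 0) ∧
        ∏ j, ((∏ φ : L j →+* ℂ, ‖φ (∑ i, algebraMap k (L j) (F i : k) * (u j i : L j))‖) *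
          ∏ t, ∏ φ : L j →+* ℂ_[p t],
            ‖φ (∑ i, algebraMap k (L j) (F i : k) * (u j i : L j))‖) ≤
          C * Real.exp (finrank ℚ K * (q * SST.ht K x - SST.proxK p g q K x)) := by
  obtain ⟨C₀, hC₀, hsup⟩ := exists_supMin k n
  set γ : ℝ := (∏ ρ : k →+* ℂ, ‖ρ c‖) ^ n * ∏ t, (∏ ρ : k →+* ℂ_[p t], ‖ρ c‖) ^ n with hγ
  have hγ0 : 0 < γ := by
    refine mul_pos (pow_pos (Finset.prod_pos fun ρ _ => ?_) _)
      (Finset.prod_pos fun t _ => pow_pos (Finset.prod_pos fun ρ _ => ?_) _)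
    · rw [norm_pos_iff, Ne, map_eq_zero]
      exact hc
    · rw [norm_pos_iff, Ne, map_eq_zero]
      exact hc
  set C₁ : ℝ := (∏ j, (m : ℝ) ^ finrank ℚ (L j)) * (((n + 1) * C₀) ^ (finrank ℚ k * q) / γ)
    with hC₁
  have hC₁0 : 0 ≤ C₁ := by positivity
  refine ⟨max C₀ C₁, lt_max_of_lt_left hC₀, fun K _ _ _ x hx hn hgx => ?_⟩
  obtain ⟨F, hFs, hroot, hsF⟩ := hsup K x hx hn
  have hF : F ≠ 0 := hFs.1
  refine ⟨F, hF, hroot, hsF.trans (mul_le_mul_of_nonneg_right (le_max_left _ _)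
    (Real.exp_pos _).le), ?_, ?_⟩
  · intro j h0
    have h1 : ∑ i, algebraMap k (L j) (F i : k) * v j i = 0 := by
      have h2 : (m : L j) * ∑ i, algebraMap k (L j) (F i : k) * v j i = 0 := by
        rw [← h0, Finset.mul_sum]
        refine Finset.sum_congr rfl fun i _ => ?_
        rw [hu]
        ring
      exact (mul_eq_zero.1 h2).resolve_left (Nat.cast_ne_zero.2 hm)
    have h2 := hgood j F hF K x hroot ℂ
    rw [h1] at h2
    obtain ⟨φ⟩ : Nonempty (L j →+* ℂ) := inferInstance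
    rw [Finset.prod_eq_zero (Finset.mem_univ φ) (by rw [map_zero, norm_zero])] at h2
    rcases mul_eq_zero.1 h2.symm with h3 | h3
    · obtain ⟨ρ, _, hρ⟩ := Finset.prod_eq_zero_iff.1 (eq_zero_of_pow_eq_zero h3)
      rw [norm_eq_zero, map_eq_zero] at hρ
      exact link_last hF hroot (RingOfIntegers.ext hρ)
    · obtain ⟨σ, _, hσ⟩ := Finset.prod_eq_zero_iff.1 h3
      rw [norm_eq_zero, map_eq_zero] at hσ
      apply hgx
      rw [hg, map_mul, map_prod, Finset.prod_eq_zero (Finset.mem_univ j) hσ, mul_zero]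
  refine le_trans ?_ (mul_le_mul_of_nonneg_right (le_max_right C₀ C₁) (Real.exp_pos _).le)
  -- remove the common denominator
  have h1 : ∀ j, (∏ φ : L j →+* ℂ, ‖φ (∑ i, algebraMap k (L j) (F i : k) * (u j i : L j))‖) *
      (∏ t, ∏ φ : L j →+* ℂ_[p t], ‖φ (∑ i, algebraMap k (L j) (F i : k) * (u j i : L j))‖) ≤
      (m : ℝ) ^ finrank ℚ (L j) *
      ((∏ φ : L j →+* ℂ, ‖φ (∑ i, algebraMap k (L j) (F i : k) * v j i)‖) *
      ∏ t, ∏ φ : L j →+* ℂ_[p t], ‖φ (∑ i, algebraMap k (L j) (F i : k) * v j i)‖) := by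
    intro j
    have h2 : ∑ i, algebraMap k (L j) (F i : k) * (u j i : L j) =
        (m : L j) * ∑ i, algebraMap k (L j) (F i : k) * v j i := by
      rw [Finset.mul_sum]
      refine Finset.sum_congr rfl fun i _ => ?_
      rw [hu]
      ring
    have h3 : ∏ φ : L j →+* ℂ, ‖φ (∑ i, algebraMap k (L j) (F i : k) * (u j i : L j))‖ =
        (m : ℝ) ^ finrank ℚ (L j) *
          ∏ φ : L j →+* ℂ, ‖φ (∑ i, algebraMap k (L j) (F i : k) * v j i)‖ := by
      rw [← Embeddings.card (L j) ℂ, ← Finset.card_univ, ← Finset.prod_const,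
        ← Finset.prod_mul_distrib]
      refine Finset.prod_congr rfl fun φ _ => ?_
      rw [h2, map_mul, norm_mul, map_natCast, Complex.norm_natCast]
    have h4 : ∏ t, ∏ φ : L j →+* ℂ_[p t],
        ‖φ (∑ i, algebraMap k (L j) (F i : k) * (u j i : L j))‖ ≤
        ∏ t, ∏ φ : L j →+* ℂ_[p t], ‖φ (∑ i, algebraMap k (L j) (F i : k) * v j i)‖ := by
      refine Finset.prod_le_prod (fun t _ => Finset.prod_nonneg fun φ _ => norm_nonneg _)
        fun t _ => Finset.prod_le_prod (fun φ _ => norm_nonneg _) fun φ _ => ?_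
      rw [h2, map_mul, norm_mul]
      refine mul_le_of_le_one_left (norm_nonneg _) ?_
      have h5 := norm_le_one_of_ringOfIntegers (p t) φ ((m : ℕ) : 𝓞 (L j))
      simpa using h5
    rw [h3, mul_assoc]
    exact mul_le_mul_of_nonneg_left (mul_le_mul_of_nonneg_left h4
      (Finset.prod_nonneg fun φ _ => norm_nonneg _)) (by positivity)
  refine (Finset.prod_le_prod (fun j _ => mul_nonneg (Finset.prod_nonneg fun φ _ =>
    norm_nonneg _) (Finset.prod_nonneg fun t _ => Finset.prod_nonneg fun φ _ => norm_nonneg _))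
    fun j _ => h1 j).trans ?_
  rw [Finset.prod_mul_distrib, hC₁, mul_assoc]
  refine mul_le_mul_of_nonneg_left ?_ (by positivity)
  rw [div_mul_eq_mul_div, le_div_iff₀ hγ0, Finset.prod_mul_distrib, Finset.prod_comm (s := Finset.univ)
    (t := Finset.univ) (f := fun j t => ∏ φ : L j →+* ℂ_[p t],
      ‖φ (∑ i, algebraMap k (L j) (F i : k) * v j i)‖), hγ, mul_mul_mul_comm,
    ← Finset.prod_mul_distrib, link_value hgood hg hq hF hroot ℂ,
    Finset.prod_congr rfl fun t _ => link_value hgood hg hq hF hroot ℂ_[p t],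
    Finset.prod_mul_distrib, mul_mul_mul_comm, link_exp p g q K x hgx]
  have hN : finrank ℚ K = finrank ℚ k * n := by rw [← hn, Module.finrank_mul_finrank]
  have h6 : ((∏ ρ : k →+* ℂ, ‖ρ (F (Fin.last n) : k)‖) * ∏ σ : K →+* ℂ, max 1 ‖σ x‖) ^ q ≤
      ((n + 1) * C₀) ^ (finrank ℚ k * q) * Real.exp (q * (finrank ℚ K * SST.ht K x)) := by
    have h7 := link_arch hF hroot
    have h8 : ((n + 1) * hs F) ^ finrank ℚ k ≤
        ((n + 1) * (C₀ * Real.exp (n * SST.ht K x))) ^ finrank ℚ k :=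
      pow_le_pow_left₀ (mul_nonneg (by positivity) (norm_nonneg _))
        (mul_le_mul_of_nonneg_left hsF (by positivity)) _
    refine (pow_le_pow_left₀ (mul_nonneg (Finset.prod_nonneg fun ρ _ => norm_nonneg _)
      (Finset.prod_nonneg fun σ _ => zero_le_one.trans (le_max_left _ _))) (h7.trans h8) q).trans
      (le_of_eq ?_)
    rw [← mul_assoc, mul_pow, mul_pow, ← pow_mul, ← Real.exp_nat_mul, ← Real.exp_nat_mul, hN]
    congr 2
    push_cast
    ring
  have h9 : ∏ t, ((∏ ρ : k →+* ℂ_[p t], ‖ρ (F (Fin.last n) : k)‖) *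
      ∏ σ : K →+* ℂ_[p t], max 1 ‖σ x‖) ^ q ≤ 1 := by
    refine Finset.prod_le_one (fun t _ => pow_nonneg (mul_nonneg (Finset.prod_nonneg fun ρ _ =>
      norm_nonneg _) (Finset.prod_nonneg fun σ _ => zero_le_one.trans (le_max_left _ _))) _)
      fun t _ => ?_
    exact pow_le_one₀ (mul_nonneg (Finset.prod_nonneg fun ρ _ =>
      norm_nonneg _) (Finset.prod_nonneg fun σ _ => zero_le_one.trans (le_max_left _ _)))
      (link_padic hF hroot (p t))
  have h11 : Real.exp (finrank ℚ K * (q * SST.ht K x - SST.proxK p g q K x)) =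
      Real.exp (q * (finrank ℚ K * SST.ht K x)) *
        Real.exp (-(finrank ℚ K * SST.proxK p g q K x)) := by
    rw [← Real.exp_add]
    congr 1
    ring
  rw [h11, ← mul_assoc]
  refine mul_le_mul_of_nonneg_right ?_ (Real.exp_pos _).le
  refine (mul_le_mul h6 h9 (Finset.prod_nonneg fun t _ => pow_nonneg (mul_nonneg
    (Finset.prod_nonneg fun ρ _ => norm_nonneg _) (Finset.prod_nonneg fun σ _ =>
    zero_le_one.trans (le_max_left _ _))) _) (by positivity)).trans (le_of_eq (mul_one _))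

end Pool.Agent.AA
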