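import Pool.Agent.AA.Defs2
import Pool.Agent.RefW.DenIdeal
import Pool.Agent.RefW.NormProd

/-!
# Heights and proximity of a unit with small `f 1`
-/

set_option autoImplicit false

open Polynomial NumberField IntermediateField Module

namespace Pool.Agent.AA

theorem mulHeight_int (K : Type) [Field K] [NumberField K] (y : 𝓞 K) :
    Height.mulHeight₁ (y : K) = ∏ σ : K →+* ℂ, max 1 ‖σ (y : K)‖ := by
  rw [NumberField.mulHeight₁_eq]
  have h1 : ∏ᶠ v : FinitePlace K, max (v (y : K)) 1 = 1 := by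
    refine finprod_eq_one_of_forall_eq_one fun v => max_eq_right ?_
    exact FinitePlace.norm_embedding_eq v (y : K) ▸
      FinitePlace.norm_le_one K v.maximalIdeal y
  rw [h1, mul_one, RefW.denIdeal_prod_infinite K (fun v => max (v (y : K)) 1)]
  refine Finset.prod_congr rfl fun σ _ => ?_
  rw [InfinitePlace.apply, max_comm]

private theorem prod_roots (K : Type) [Field K] [NumberField K] (y : K) (f : ℤ[X]) (hf : f.Monic)
    (hirr : Irreducible f) (hK : finrank ℚ K = f.natDegree) (hy : aeval y f = 0) :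
    f.map (Int.castRingHom ℂ) = ∏ σ : K →+* ℂ, (X - C (σ y)) := by
  have hint : IsIntegral ℚ y := Algebra.IsIntegral.isIntegral y
  have hmin : f.map (algebraMap ℤ ℚ) = minpoly ℚ y := by
    refine minpoly.eq_of_irreducible_of_monic ?_ ?_ (hf.map _)
    · exact (hf.irreducible_iff_irreducible_map_fraction_map (K := ℚ)).mp hirr
    · rw [aeval_map_algebraMap]
      exact hy
  have hdeg : (minpoly ℚ y).natDegree = finrank ℚ K := by
    rw [← hmin, hf.natDegree_map, hK]
  have htop : IntermediateField.adjoin ℚ {y} = ⊤ :=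
    (Field.primitive_element_iff_minpoly_natDegree_eq ℚ y).mpr hdeg
  have hinj : Function.Injective fun σ : K →ₐ[ℚ] ℂ => σ y := by
    intro σ τ h
    have h1 : ∀ z : K, z ∈ IntermediateField.adjoin ℚ {y} → σ z = τ z := by
      intro z hz
      induction hz using IntermediateField.adjoin_induction with
      | mem z hz =>
        rw [Set.mem_singleton_iff] at hz
        rw [hz]
        exact h
      | algebraMap a => simp
      | add a b _ _ ha hb => rw [map_add, map_add, ha, hb]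
      | inv a _ ha => rw [map_inv₀, map_inv₀, ha]
      | mul a b _ _ ha hb => rw [map_mul, map_mul, ha, hb]
    ext z
    exact h1 z (by rw [htop]; exact IntermediateField.mem_top)
  have hmap : f.map (Int.castRingHom ℂ) = (minpoly ℚ y).map (algebraMap ℚ ℂ) := by
    rw [← hmin, Polynomial.map_map]
    congr 1
  rw [hmap]
  have hprod : ∏ σ : K →+* ℂ, (X - C (σ y)) = ∏ σ : K →ₐ[ℚ] ℂ, (X - C (σ y)) :=
    Fintype.prod_equiv (RingHom.equivRatAlgHom K ℂ) _ _ fun ρ => rfl
  rw [hprod]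
  refine (Polynomial.eq_of_monic_of_dvd_of_natDegree_le ?_ ?_ ?_ ?_)
  · exact Polynomial.monic_prod_of_monic _ _ fun σ _ => monic_X_sub_C _
  · exact (minpoly.monic hint).map _
  · refine Finset.prod_dvd_of_coprime ?_ ?_
    · intro σ _ τ _ hne
      exact Polynomial.isCoprime_X_sub_C_of_isUnit_sub
        (isUnit_iff_ne_zero.2 (sub_ne_zero.2 fun h => hne (hinj h)))
    · intro σ _
      rw [Polynomial.dvd_iff_isRoot, Polynomial.IsRoot.def, Polynomial.eval_map,
        ← Polynomial.aeval_def, Polynomial.aeval_algHom_apply, minpoly.aeval, map_zero]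
  · rw [(minpoly.monic hint).natDegree_map, Polynomial.natDegree_prod_of_monic _ _
      fun σ _ => monic_X_sub_C _]
    simp only [Polynomial.natDegree_X_sub_C, Finset.sum_const, smul_eq_mul, mul_one,
      Finset.card_univ]
    rw [AlgHom.card, hdeg]

private theorem unit_main {r : ℕ} (p : Fin r → ℕ) [∀ t, Fact (p t).Prime] (K : Type) [Field K]
    [NumberField K] (y : K) (f : ℤ[X]) (hf : f.Monic) (hirr : Irreducible f) (n : ℕ)
    (hn : f.natDegree = n) (hn2 : 2 ≤ n) (hK : finrank ℚ K = n) (hy : aeval y f = 0)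
    (h0 : f.coeff 0 = 1)
    (M : ℝ) (hM : ∀ i, (|f.coeff i| : ℝ) ≤ M) (M' : ℝ)
    (hM1 : ∃ i, M' ≤ (|f.coeff i| : ℝ)) :
    Height.mulHeight₁ y ≤ (n + 1) * M ∧ M' / 2 ^ n ≤ Height.mulHeight₁ y ∧
      Height.mulHeight₁ y = Real.exp (n * SST.ht K y) ∧
      3 * SST.ht K y - Real.log |((f.eval 1 : ℤ) : ℝ)| / n ≤
        ((∑ σ : K →+* ℂ, -Real.log (‖σ (y * (y - 1))‖ / max 1 ‖σ y‖ ^ 3)) +
          ∑ t, ∑ σ : K →+* ℂ_[p t], -Real.log (‖σ (y * (y - 1))‖ / max 1 ‖σ y‖ ^ 3)) /
          finrank ℚ K := by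
  have hyint : IsIntegral ℤ y := ⟨f, hf, by rw [← aeval_def]; exact hy⟩
  obtain ⟨b, hb⟩ : ∃ b : 𝓞 K, (b : K) = y := ⟨⟨y, hyint⟩, rfl⟩
  have hprod := prod_roots K y f hf hirr (by rw [hK, hn]) hy
  have hH : Height.mulHeight₁ y = ∏ σ : K →+* ℂ, max 1 ‖σ y‖ := by
    rw [← hb]; exact mulHeight_int K b
  have hnpos : (0 : ℝ) < n := by
    have : 0 < n := by omega
    exact_mod_cast this
  have hMah : (f.map (Int.castRingHom ℂ)).mahlerMeasure = Height.mulHeight₁ y := by
    rw [hprod, hH]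
    have h2 := prod_mahlerMeasure_eq_mahlerMeasure_prod
      ((Finset.univ.val).map fun σ : K →+* ℂ => (X - C (σ y)))
    rw [Multiset.map_map] at h2
    have h3 : (Multiset.map (Polynomial.mahlerMeasure ∘ fun σ : K →+* ℂ => (X - C (σ y)))
        Finset.univ.val).prod = ∏ σ : K →+* ℂ, (X - C (σ y)).mahlerMeasure := rfl
    have h4 : ((Finset.univ.val).map fun σ : K →+* ℂ => (X - C (σ y))).prod =
      ∏ σ : K →+* ℂ, (X - C (σ y)) := rfl
    rw [h3, h4] at h2
    rw [h2]
    exact Finset.prod_congr rfl fun σ _ => mahlerMeasure_X_sub_C _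
  have hinjC : Function.Injective (Int.castRingHom ℂ) := Int.cast_injective
  have hdegC : (f.map (Int.castRingHom ℂ)).natDegree = n := by
    rw [natDegree_map_eq_of_injective hinjC, hn]
  have hcoef : ∀ i, ‖(f.map (Int.castRingHom ℂ)).coeff i‖ = (|f.coeff i| : ℝ) := by
    intro i
    rw [coeff_map, eq_intCast, Complex.norm_intCast]
  have hpos : 0 < Height.mulHeight₁ y := by
    rw [hH]; exact Finset.prod_pos fun σ _ => lt_of_lt_of_le one_pos (le_max_left _ _)
  have hlog : Real.log (Height.mulHeight₁ y) = n * SST.ht K y := by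
    rw [SST.ht, hK, Height.logHeight₁_eq_log_mulHeight₁]
    field_simp
  -- values at 0 and 1
  have heval0 : ∏ σ : K →+* ℂ, ‖σ y‖ = 1 := by
    have h1 := congrArg (Polynomial.eval 0) hprod
    rw [eval_prod, ← coeff_zero_eq_eval_zero, coeff_map, h0] at h1
    have h2 := congrArg norm h1
    rw [norm_prod] at h2
    simpa using h2.symm
  have heval1 : ∏ σ : K →+* ℂ, ‖σ y - 1‖ = |((f.eval 1 : ℤ) : ℝ)| := by
    have h1 := congrArg (Polynomial.eval 1) hprod
    rw [eval_prod, eval_one_map] at h1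
    have h2 := congrArg norm h1
    rw [norm_prod, eq_intCast, Complex.norm_intCast] at h2
    rw [h2]
    refine Finset.prod_congr rfl fun σ _ => ?_
    rw [eval_sub, eval_X, eval_C, norm_sub_rev]
  refine ⟨?_, ?_, ?_, ?_⟩
  · rw [← hMah]
    refine (mahlerMeasure_le_sum_norm_coeff _).trans ?_
    rw [Polynomial.sum_over_range' _ (fun n => norm_zero) (n + 1) (by rw [hdegC]; omega)]
    calc ∑ i ∈ Finset.range (n + 1), ‖(f.map (Int.castRingHom ℂ)).coeff i‖
        ≤ ∑ i ∈ Finset.range (n + 1), M :=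
          Finset.sum_le_sum fun i _ => by rw [hcoef]; exact hM i
      _ = (n + 1) * M := by simp
  · obtain ⟨i, hi⟩ := hM1
    rw [div_le_iff₀ (by positivity), ← hMah]
    refine hi.trans ?_
    rw [← hcoef i]
    refine (norm_coeff_le_choose_mul_mahlerMeasure i _).trans ?_
    rw [hdegC, mul_comm]
    refine mul_le_mul_of_nonneg_left ?_ (mahlerMeasure_nonneg _)
    exact_mod_cast Nat.choose_le_two_pow n i
  · rw [← hlog, Real.exp_log hpos]
  · have hy0 : ∀ σ : K →+* ℂ, ‖σ y‖ ≠ 0 := by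
      intro σ h
      have : ∏ σ : K →+* ℂ, ‖σ y‖ = 0 := Finset.prod_eq_zero (Finset.mem_univ σ) h
      rw [heval0] at this
      exact one_ne_zero this
    have hf1 : f.eval 1 ≠ 0 := by
      intro h
      have h1 : f.natDegree = 1 := natDegree_eq_of_degree_eq_some
        (degree_eq_one_of_irreducible_of_root hirr h)
      omega
    have hy1 : ∀ σ : K →+* ℂ, ‖σ y - 1‖ ≠ 0 := by
      intro σ h
      have : ∏ σ : K →+* ℂ, ‖σ y - 1‖ = 0 := Finset.prod_eq_zero (Finset.mem_univ σ) h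
      rw [heval1, abs_eq_zero] at this
      exact hf1 (by exact_mod_cast this)
    have hC : ∑ σ : K →+* ℂ, -Real.log (‖σ (y * (y - 1))‖ / max 1 ‖σ y‖ ^ 3) =
        3 * (n * SST.ht K y) - Real.log |((f.eval 1 : ℤ) : ℝ)| := by
      have h1 : ∀ σ : K →+* ℂ, -Real.log (‖σ (y * (y - 1))‖ / max 1 ‖σ y‖ ^ 3) =
          3 * Real.log (max 1 ‖σ y‖) - Real.log ‖σ y‖ - Real.log ‖σ y - 1‖ := by
        intro σ
        have hm : (max 1 ‖σ y‖ : ℝ) ≠ 0 := (lt_of_lt_of_le one_pos (le_max_left _ _)).ne'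
        rw [map_mul, map_sub, map_one, norm_mul,
          Real.log_div (mul_ne_zero (hy0 σ) (hy1 σ)) (pow_ne_zero _ hm),
          Real.log_mul (hy0 σ) (hy1 σ), Real.log_pow]
        push_cast
        ring
      rw [Finset.sum_congr rfl fun σ _ => h1 σ, Finset.sum_sub_distrib, Finset.sum_sub_distrib,
        ← Finset.mul_sum, ← Real.log_prod (fun σ _ => hy0 σ), ← Real.log_prod (fun σ _ => hy1 σ),
        ← Real.log_prod
          (fun σ _ => (lt_of_lt_of_le one_pos (le_max_left (1 : ℝ) ‖σ y‖)).ne'),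
        heval0, heval1, ← hH, hlog, Real.log_one]
      ring
    have hP : 0 ≤ ∑ t, ∑ σ : K →+* ℂ_[p t],
        -Real.log (‖σ (y * (y - 1))‖ / max 1 ‖σ y‖ ^ 3) := by
      refine Finset.sum_nonneg fun t _ => Finset.sum_nonneg fun σ _ => ?_
      rw [neg_nonneg]
      refine Real.log_nonpos (by positivity) ?_
      have h1 : ‖σ (y * (y - 1))‖ ≤ 1 := by
        have := RefW.norm_le_one_of_ringOfIntegers (p t) σ (b * (b - 1))
        rw [← hb]
        simpa using this
      have h2 : (1 : ℝ) ≤ max 1 ‖σ y‖ ^ 3 := one_le_pow₀ (le_max_left _ _)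
      exact (div_le_one (by positivity)).mpr (h1.trans h2)
    rw [hC, hK, le_div_iff₀ hnpos, sub_mul, div_mul_cancel₀ _ hnpos.ne']
    linarith

private theorem adjoin_aux (Ω : Type) [Field Ω] [Algebra ℚ Ω] (f : ℤ[X]) (hf : f.Monic)
    (hirr : Irreducible f) (x : Ω) (hx : aeval x f = 0) :
    finrank ℚ (IntermediateField.adjoin ℚ {x}) = f.natDegree ∧
      aeval (AdjoinSimple.gen ℚ x) f = 0 := by
  have hmin : f.map (algebraMap ℤ ℚ) = minpoly ℚ x := by
    refine minpoly.eq_of_irreducible_of_monic ?_ ?_ (hf.map _)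
    · exact (hf.irreducible_iff_irreducible_map_fraction_map (K := ℚ)).mp hirr
    · rw [aeval_map_algebraMap]
      exact hx
  have hint : IsIntegral ℚ x := by
    refine ⟨f.map (algebraMap ℤ ℚ), hf.map _, ?_⟩
    rw [hmin, ← aeval_def, minpoly.aeval]
  refine ⟨?_, ?_⟩
  · rw [IntermediateField.adjoin.finrank hint, ← hmin, hf.natDegree_map]
  · apply (algebraMap (IntermediateField.adjoin ℚ {x}) Ω).injective
    rw [map_zero, ← aeval_algebraMap_apply, AdjoinSimple.algebraMap_gen]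
    exact hx

/-- a zero of a polynomial with `f 0 = 1` and small `f 1` -/
theorem root_prop {r : ℕ} (p : Fin r → ℕ) [∀ t, Fact (p t).Prime] (f : ℤ[X]) (hf : f.Monic)
    (hirr : Irreducible f) (n : ℕ) (hn : f.natDegree = n) (hn2 : 2 ≤ n) (h0 : f.coeff 0 = 1)
    (M : ℝ) (hM : ∀ i, (|f.coeff i| : ℝ) ≤ M) (M' : ℝ) (hM' : 1 ≤ M')
    (hM1 : ∃ i, M' ≤ (|f.coeff i| : ℝ)) (x : AlgebraicClosure ℚ) (hx : aeval x f = 0) :
    finrank ℚ (IntermediateField.adjoin ℚ {x}) = n ∧ relHeight x ≤ (n + 1) * M ∧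
      aeval x (X * (X - 1) : ℚ[X]) ≠ 0 ∧ M' / 2 ^ n ≤ relHeight x ∧
      relHeight x = Real.exp (n * height x) ∧
      3 * height x - Real.log |((f.eval 1 : ℤ) : ℝ)| / n ≤
        proximity p (X * (X - 1) : ℚ[X]) 3 x := by
  have hne : ∀ a : ℤ, x ≠ a := by
    intro a ha
    have h1 : f.eval a = 0 := by
      rw [ha] at hx
      have h2 : aeval ((a : ℤ) : AlgebraicClosure ℚ) f = ((f.eval a : ℤ) : AlgebraicClosure ℚ) := by
        rw [← eq_intCast (algebraMap ℤ (AlgebraicClosure ℚ)) a, aeval_algebraMap_apply]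
        simp
      rw [h2] at hx
      exact_mod_cast hx
    have h3 : f.natDegree = 1 := natDegree_eq_of_degree_eq_some
      (degree_eq_one_of_irreducible_of_root hirr h1)
    omega
  obtain ⟨hfin, -⟩ := adjoin_aux (AlgebraicClosure ℚ) f hf hirr x hx
  obtain ⟨hfin', hgen⟩ := @adjoin_aux (AlgebraicClosure ℚ) _ (AlgebraicClosure.instAlgebra ℚ) f hf
    hirr x hx
  obtain ⟨h1, h2, h3, h4⟩ := unit_main p _ _ f
    hf hirr n hn hn2 (by rw [← hn, ← hfin']) hgen h0 M hM M' hM1
  refine ⟨hfin.trans hn, h1, ?_, h2, h3, ?_⟩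
  · rw [map_mul, map_sub, aeval_X, map_one]
    refine mul_ne_zero (by exact_mod_cast hne 0) (sub_ne_zero.mpr (by exact_mod_cast hne 1))
  · refine h4.trans (le_of_eq ?_)
    rw [proximity, SST.proxK]
    congr! 2 <;> simp

end Pool.Agent.AA
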