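import Pool.Agent.AA.Irred
import Pool.Agent.AA.Unit

/-!
# Many points which are close to `0`, `1` and `∞`
-/

set_option autoImplicit false

open Polynomial NumberField IntermediateField Module

namespace Pool.Agent.AA

namespace Lower

/-- the coefficients of degree at least two -/
def bb (m : ℕ) (c t : ℕ → ℤ) (j : ℕ) : ℤ :=
  c j + 2 * t j + if j = 2 then 2 * (m : ℤ) else 0

/-- the coefficients -/
def aa (n m : ℕ) (c t : ℕ → ℤ) (s : ℤ) (i : ℕ) : ℤ :=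
  if i = 0 ∨ i = n then 1 else if i = 1 then 2 * s - 1 - ∑ j ∈ Finset.Ico 2 n, bb m c t j
  else bb m c t i

/-- the polynomial -/
noncomputable def ff (n m : ℕ) (c t : ℕ → ℤ) (s : ℤ) : ℤ[X] :=
  ∑ i ∈ Finset.range (n + 1), monomial i (aa n m c t s i)

theorem coeff_ff (n m : ℕ) (c t : ℕ → ℤ) (s : ℤ) (i : ℕ) :
    (ff n m c t s).coeff i = if i < n + 1 then aa n m c t s i else 0 := by
  simp [ff, coeff_monomial]

theorem natDegree_ff (n m : ℕ) (c t : ℕ → ℤ) (s : ℤ) : (ff n m c t s).natDegree = n := by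
  refine natDegree_eq_of_le_of_coeff_ne_zero ?_ ?_
  · rw [natDegree_le_iff_coeff_eq_zero]
    intro N hN
    rw [coeff_ff, if_neg (by omega)]
  · rw [coeff_ff, if_pos (by omega)]
    simp [aa]

theorem monic_ff (n m : ℕ) (c t : ℕ → ℤ) (s : ℤ) : (ff n m c t s).Monic := by
  rw [Monic, leadingCoeff, natDegree_ff, coeff_ff, if_pos (by omega)]
  simp [aa]

theorem range_split {n : ℕ} (hn : 3 ≤ n) (g : ℕ → ℤ) :
    ∑ i ∈ Finset.range (n + 1), g i = g 0 + g 1 + ∑ i ∈ Finset.Ico 2 n, g i + g n := by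
  rw [Finset.sum_range_succ, Finset.range_eq_Ico,
    ← Finset.sum_Ico_consecutive g (by omega : 0 ≤ 2) (by omega : 2 ≤ n)]
  congr 2
  rw [← Finset.range_eq_Ico]
  simp [Finset.sum_range_succ]

theorem eval_ff {n : ℕ} (hn : 3 ≤ n) (m : ℕ) (c t : ℕ → ℤ) (s : ℤ) :
    (ff n m c t s).eval 1 = 2 * s + 1 := by
  rw [ff, eval_finsetSum]
  simp only [eval_monomial, one_pow, mul_one]
  rw [range_split hn]
  have h : ∑ i ∈ Finset.Ico 2 n, aa n m c t s i = ∑ i ∈ Finset.Ico 2 n, bb m c t i := by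
    refine Finset.sum_congr rfl fun i hi => ?_
    rw [Finset.mem_Ico] at hi
    rw [aa, if_neg (by omega), if_neg (by omega)]
  rw [h]
  simp only [aa, true_or, or_true, if_true]
  rw [if_neg (by omega)]
  ring

variable {n m : ℕ} {c t : ℕ → ℤ} {s : ℤ}

theorem bb_bound (hm : 1 ≤ m) (hc0 : ∀ j, 0 ≤ c j) (hc1 : ∀ j, c j ≤ 1)
    (ht0 : ∀ j, 0 ≤ t j) (ht1 : ∀ j, t j < m) (j : ℕ) : 0 ≤ bb m c t j ∧ bb m c t j ≤ 4 * m := by
  have h1 := hc0 j
  have h2 := hc1 j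
  have h3 := ht0 j
  have h4 := ht1 j
  unfold bb
  split_ifs <;> constructor <;> omega

theorem aa_bound (hn : 3 ≤ n) (hm : 1 ≤ m) (hc0 : ∀ j, 0 ≤ c j) (hc1 : ∀ j, c j ≤ 1)
    (ht0 : ∀ j, 0 ≤ t j) (ht1 : ∀ j, t j < m) (hs0 : 0 ≤ s) (hs1 : s < m) (i : ℕ) :
    |aa n m c t s i| ≤ 4 * n * m := by
  have hb := bb_bound hm hc0 hc1 ht0 ht1
  have hnm : (3 : ℤ) * m ≤ n * m := by
    have : (3 : ℤ) ≤ n := by exact_mod_cast hn
    have hm0 : (0 : ℤ) ≤ m := by positivity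
    nlinarith
  have hm' : (1 : ℤ) ≤ m := by exact_mod_cast hm
  have hsum : ∑ j ∈ Finset.Ico 2 n, bb m c t j ≤ (n - 2 : ℕ) * (4 * m) := by
    have := Finset.sum_le_card_nsmul (Finset.Ico 2 n) (bb m c t) (4 * m) fun j _ => (hb j).2
    simpa using this
  have hsum0 : 0 ≤ ∑ j ∈ Finset.Ico 2 n, bb m c t j := Finset.sum_nonneg fun j _ => (hb j).1
  rw [Nat.cast_sub (by omega)] at hsum
  push_cast at hsum
  unfold aa
  split_ifs
  · rw [abs_one]; linarith
  · rw [abs_le]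
    constructor <;> nlinarith
  · rw [abs_of_nonneg (hb i).1]
    linarith [(hb i).2]

theorem coeff_bound (hn : 3 ≤ n) (hm : 1 ≤ m) (hc0 : ∀ j, 0 ≤ c j) (hc1 : ∀ j, c j ≤ 1)
    (ht0 : ∀ j, 0 ≤ t j) (ht1 : ∀ j, t j < m) (hs0 : 0 ≤ s) (hs1 : s < m) (i : ℕ) :
    (|(ff n m c t s).coeff i| : ℝ) ≤ 4 * n * m := by
  rw [coeff_ff]
  split_ifs
  · exact_mod_cast aa_bound hn hm hc0 hc1 ht0 ht1 hs0 hs1 i
  · simp
    positivity

theorem coeff_two (hn : 3 ≤ n) (hc0 : ∀ j, 0 ≤ c j) (ht0 : ∀ j, 0 ≤ t j) :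
    (2 * m : ℝ) ≤ (|(ff n m c t s).coeff 2| : ℝ) := by
  rw [coeff_ff, if_pos (by omega), aa, if_neg (by omega), if_neg (by omega)]
  have h1 := hc0 2
  have h2 := ht0 2
  have h3 : (2 * m : ℤ) ≤ |bb m c t 2| := by
    unfold bb
    rw [if_pos rfl]
    refine le_trans ?_ (le_abs_self _)
    omega
  exact_mod_cast h3

theorem ff_inj (hn : 3 ≤ n) {t' : ℕ → ℤ} {s' : ℤ} (h : ff n m c t s = ff n m c t' s') :
    s = s' ∧ ∀ j, 2 ≤ j → j < n → t j = t' j := by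
  constructor
  · have h1 := congrArg (Polynomial.eval 1) h
    rw [eval_ff hn, eval_ff hn] at h1
    omega
  · intro j hj hjn
    have h1 := congrArg (fun g => Polynomial.coeff g j) h
    simp only [coeff_ff] at h1
    rw [if_pos (by omega), if_pos (by omega), aa, aa, if_neg (by omega), if_neg (by omega),
      if_neg (by omega), if_neg (by omega)] at h1
    unfold bb at h1
    omega

theorem irr_ff (hn : 3 ≤ n) (e : Fin (n + 1) → Fin 2) (he0 : e 0 = 1)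
    (hen : e (Fin.last n) = 1) (hes : (∑ i, (e i : ℕ)) % 2 = 1)
    (hirr : ∀ f : ℤ[X], f.Monic → f.natDegree = n →
      (∀ i : Fin (n + 1), (2 : ℤ) ∣ f.coeff i - (e i : ℕ)) → Irreducible f)
    (hce : ∀ i : Fin (n + 1), c i = ((e i : ℕ) : ℤ)) : Irreducible (ff n m c t s) := by
  refine hirr _ (monic_ff _ _ _ _ _) (natDegree_ff _ _ _ _ _) fun i => ?_
  rw [coeff_ff, if_pos i.2, ← hce i]
  have h0 : c 0 = 1 := by
    have := hce 0
    rw [he0] at this
    simpa using this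
  have hN : c n = 1 := by
    have := hce (Fin.last n)
    rw [hen] at this
    simpa using this
  have hsum : (∑ j ∈ Finset.range (n + 1), c j) % 2 = 1 := by
    rw [Finset.sum_range]
    have : ∑ i : Fin (n + 1), c i = ((∑ i, (e i : ℕ) : ℕ) : ℤ) := by
      rw [Nat.cast_sum]
      exact Finset.sum_congr rfl fun i _ => hce i
    rw [this]
    exact_mod_cast hes
  rw [range_split hn, h0, hN] at hsum
  have hbb : ∑ j ∈ Finset.Ico 2 n, bb m c t j = ∑ j ∈ Finset.Ico 2 n, c j +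
      2 * ∑ j ∈ Finset.Ico 2 n, (t j + if j = 2 then (m : ℤ) else 0) := by
    rw [Finset.mul_sum, ← Finset.sum_add_distrib]
    refine Finset.sum_congr rfl fun j _ => ?_
    unfold bb
    split_ifs <;> ring
  unfold aa
  split_ifs with h1 h2
  · rcases h1 with h1 | h1
    · rw [h1, h0]; simp
    · rw [h1, hN]; simp
  · rw [h2, hbb]
    omega
  · unfold bb
    split_ifs <;> omega

/-- extension of a function by zero -/
def ext (n m : ℕ) (τ : Fin (n - 2) → Fin m) (j : ℕ) : ℤ :=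
  if h : j - 2 < n - 2 then ((τ ⟨j - 2, h⟩ : ℕ) : ℤ) else 0

theorem ext_nonneg (τ : Fin (n - 2) → Fin m) (j : ℕ) : 0 ≤ ext n m τ j := by
  unfold ext
  split_ifs <;> simp

theorem ext_lt (hm : 1 ≤ m) (τ : Fin (n - 2) → Fin m) (j : ℕ) : ext n m τ j < m := by
  unfold ext
  split_ifs with h
  · exact_mod_cast (τ ⟨j - 2, h⟩).2
  · exact_mod_cast hm

theorem ext_inj {τ τ' : Fin (n - 2) → Fin m}
    (h : ∀ j, 2 ≤ j → j < n → ext n m τ j = ext n m τ' j) : τ = τ' := by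
  funext i
  have h1 := h (i + 2) (by omega) (by omega)
  unfold ext at h1
  have h2 : (i : ℕ) + 2 - 2 < n - 2 := by omega
  rw [dif_pos h2, dif_pos h2] at h1
  have h3 : (⟨(i : ℕ) + 2 - 2, h2⟩ : Fin (n - 2)) = i := Fin.ext (by simp)
  rw [h3] at h1
  exact Fin.ext (by exact_mod_cast h1)

theorem eq_of_root {f g : ℤ[X]} (hf : f.Monic) (hg : g.Monic) (hfi : Irreducible f)
    (hgi : Irreducible g) {x : AlgebraicClosure ℚ} (hx : aeval x f = 0) (hy : aeval x g = 0) :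
    f = g := by
  have key : ∀ h : ℤ[X], h.Monic → Irreducible h → aeval x h = 0 →
      h.map (algebraMap ℤ ℚ) = minpoly ℚ x := by
    intro h hm hi hx
    refine minpoly.eq_of_irreducible_of_monic ?_ ?_ (hm.map _)
    · exact (hm.irreducible_iff_irreducible_map_fraction_map (K := ℚ)).mp hi
    · rw [aeval_map_algebraMap]
      exact hx
  have h1 := (key f hf hfi hx).trans (key g hg hgi hy).symm
  exact Polynomial.map_injective _ (by exact Int.cast_injective) h1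

end Lower

open Lower

theorem lower {r : ℕ} (p : Fin r → ℕ) [∀ t, Fact (p t).Prime] (n : ℕ) (hn : 3 ≤ n) (δ : ℝ)
    (hδ0 : 0 < δ) (hδ1 : δ < 1) : ∃ c B₀ : ℝ, 0 < c ∧ ∀ B : ℝ, B₀ ≤ B →
    ∃ S : Finset (AlgebraicClosure ℚ), c * B ^ ((n : ℝ) - 1 - δ) ≤ (S.card : ℝ) ∧
      ∀ x ∈ S, finrank ℚ (IntermediateField.adjoin ℚ {x}) = n ∧ relHeight x ≤ B ∧
        aeval x (X * (X - 1) : ℚ[X]) ≠ 0 ∧
        (2 + δ) * height x ≤ proximity p (X * (X - 1) : ℚ[X]) 3 x := by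
  classical
  obtain ⟨e, he0, hen, hes, hirr⟩ := exists_residues n (by omega)
  obtain ⟨c, hc⟩ : ∃ c : ℕ → ℤ, ∀ j, c j = if h : j < n + 1 then ((e ⟨j, h⟩ : ℕ) : ℤ) else 0 :=
    ⟨fun j => if h : j < n + 1 then ((e ⟨j, h⟩ : ℕ) : ℤ) else 0, fun _ => rfl⟩
  have hc0 : ∀ j, 0 ≤ c j := fun j => by
    rw [hc]; split_ifs <;> simp
  have hc1 : ∀ j, c j ≤ 1 := fun j => by
    rw [hc]
    split_ifs with h
    · have := (e ⟨j, h⟩).2
      omega
    · simp
  have hce : ∀ i : Fin (n + 1), c i = ((e i : ℕ) : ℤ) := fun i => by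
    rw [hc, dif_pos i.2]
  have hI : ∀ (m : ℕ) (t : ℕ → ℤ) (s : ℤ), Irreducible (ff n m c t s) := fun m t s =>
    irr_ff hn e he0 hen hes hirr hce
  have hnR : (3 : ℝ) ≤ n := by exact_mod_cast hn
  set κ : ℝ := 1 / (8 * n * (n + 1)) with hκ
  have hκ0 : 0 < κ := by positivity
  have hδ' : 0 < 1 - δ := by linarith
  set y₀ : ℝ := (2 : ℝ) ^ (1 / (1 - δ)) with hy₀
  have hy₀1 : 0 < y₀ := by positivity
  refine ⟨κ ^ (n - 2) * ((1 / 4) * (2 * κ / 2 ^ n) ^ (1 - δ)),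
    max (4 * n * (n + 1)) (y₀ * 2 ^ n / (2 * κ)), by positivity, ?_⟩
  intro B hB
  have hB1 : 4 * n * (n + 1) ≤ B := (le_max_left _ _).trans hB
  have hB2 : y₀ * 2 ^ n / (2 * κ) ≤ B := (le_max_right _ _).trans hB
  have hB0 : 0 < B := lt_of_lt_of_le (by positivity) hB1
  obtain ⟨m, hm⟩ : ∃ m : ℕ, m = ⌊B / (4 * n * (n + 1))⌋₊ := ⟨_, rfl⟩
  have hx1 : 1 ≤ B / (4 * n * (n + 1)) := by
    rw [le_div_iff₀ (by positivity)]; linarith
  have hm1 : 1 ≤ m := by
    rw [hm]; exact Nat.le_floor (by simpa using hx1)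
  have hm1R : (1 : ℝ) ≤ m := by exact_mod_cast hm1
  have hmle : (m : ℝ) ≤ B / (4 * n * (n + 1)) := by
    rw [hm]; exact Nat.floor_le (by positivity)
  have hmge : κ * B ≤ m := by
    have h1 : B / (4 * n * (n + 1)) < m + 1 := by rw [hm]; exact Nat.lt_floor_add_one _
    have h2 : κ * B = (B / (4 * n * (n + 1))) / 2 := by
      rw [hκ]; field_simp; ring
    rw [h2]
    linarith
  have h2n : (0 : ℝ) < 2 ^ n := by positivity
  obtain ⟨k, hk⟩ : ∃ k : ℕ, k = ⌊((2 * m / 2 ^ n : ℝ) ^ (1 - δ)) / 2⌋₊ := ⟨_, rfl⟩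
  have hyge : y₀ ≤ 2 * m / 2 ^ n := by
    rw [le_div_iff₀ h2n]
    rw [div_le_iff₀ (by positivity)] at hB2
    linarith
  have hy2 : 2 ≤ (2 * m / 2 ^ n : ℝ) ^ (1 - δ) := by
    calc (2 : ℝ) = y₀ ^ (1 - δ) := by
          rw [hy₀, ← Real.rpow_mul (by norm_num), one_div_mul_cancel hδ'.ne', Real.rpow_one]
      _ ≤ _ := Real.rpow_le_rpow hy₀1.le hyge hδ'.le
  have hkle : (k : ℝ) ≤ ((2 * m / 2 ^ n : ℝ) ^ (1 - δ)) / 2 := by
    rw [hk]; exact Nat.floor_le (by positivity)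
  have hkge : (1 / 4) * (2 * m / 2 ^ n : ℝ) ^ (1 - δ) ≤ k := by
    have h1 : ((2 * m / 2 ^ n : ℝ) ^ (1 - δ)) / 2 < k + 1 := by
      rw [hk]; exact Nat.lt_floor_add_one _
    have h2 : (1 : ℝ) ≤ k := by
      have : 1 ≤ k := by rw [hk]; exact Nat.le_floor (by push_cast; linarith)
      exact_mod_cast this
    linarith
  have hkm : k ≤ m := by
    have h1 : (2 * m / 2 ^ n : ℝ) ≤ m := by
      rw [div_le_iff₀ h2n]
      have : (2 : ℝ) ≤ 2 ^ n := by
        calc (2 : ℝ) = 2 ^ 1 := by norm_num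
          _ ≤ 2 ^ n := pow_le_pow_right₀ (by norm_num) (by omega)
      nlinarith
    have h2 : (2 * m / 2 ^ n : ℝ) ^ (1 - δ) ≤ m := by
      calc (2 * m / 2 ^ n : ℝ) ^ (1 - δ) ≤ (m : ℝ) ^ (1 - δ) :=
            Real.rpow_le_rpow (by positivity) h1 hδ'.le
        _ ≤ (m : ℝ) ^ (1 : ℝ) := Real.rpow_le_rpow_of_exponent_le hm1R (by linarith)
        _ = m := Real.rpow_one _
    have h3 : (k : ℝ) ≤ m := by linarith [hkle, hm1R]
    exact_mod_cast h3
  have hex : ∀ u : (Fin (n - 2) → Fin m) × Fin k, ∃ x : AlgebraicClosure ℚ,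
      aeval x (ff n m c (ext n m u.1) ((u.2 : ℕ) : ℤ)) = 0 := by
    intro u
    refine IsAlgClosed.exists_aeval_eq_zero _ _ ?_
    rw [degree_eq_natDegree (monic_ff _ _ _ _ _).ne_zero, natDegree_ff]
    exact_mod_cast (by omega : n ≠ 0)
  choose Φ hΦ using hex
  have hinj : Function.Injective Φ := by
    intro u v huv
    have h1 := eq_of_root (monic_ff _ _ _ _ _) (monic_ff _ _ _ _ _) (hI _ _ _) (hI _ _ _)
      (hΦ u) (by rw [huv]; exact hΦ v)
    obtain ⟨h2, h3⟩ := ff_inj hn h1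
    exact Prod.ext (ext_inj h3) (Fin.ext (by exact_mod_cast h2))
  refine ⟨Finset.univ.image Φ, ?_, ?_⟩
  · rw [Finset.card_image_of_injective _ hinj, Finset.card_univ, Fintype.card_prod,
      Fintype.card_fun, Fintype.card_fin, Fintype.card_fin, Fintype.card_fin]
    push_cast
    have h1 : B ^ ((n : ℝ) - 1 - δ) = B ^ (n - 2) * B ^ (1 - δ) := by
      rw [← Real.rpow_natCast, ← Real.rpow_add hB0, Nat.cast_sub (by omega)]
      congr 1
      push_cast
      ring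
    rw [h1]
    have h2 : (1 / 4) * (2 * κ / 2 ^ n) ^ (1 - δ) * B ^ (1 - δ) ≤ k := by
      refine le_trans ?_ hkge
      rw [mul_assoc, ← Real.mul_rpow (by positivity) hB0.le]
      refine mul_le_mul_of_nonneg_left ?_ (by norm_num)
      refine Real.rpow_le_rpow (by positivity) ?_ hδ'.le
      rw [div_mul_eq_mul_div]
      refine div_le_div_of_nonneg_right ?_ h2n.le
      linarith
    have h3 : κ ^ (n - 2) * B ^ (n - 2) ≤ (m : ℝ) ^ (n - 2) := by
      rw [← mul_pow]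
      exact pow_le_pow_left₀ (by positivity) hmge _
    calc κ ^ (n - 2) * (1 / 4 * (2 * κ / 2 ^ n) ^ (1 - δ)) * (B ^ (n - 2) * B ^ (1 - δ))
        = (κ ^ (n - 2) * B ^ (n - 2)) * ((1 / 4) * (2 * κ / 2 ^ n) ^ (1 - δ) * B ^ (1 - δ)) := by
          ring
      _ ≤ (m : ℝ) ^ (n - 2) * k := mul_le_mul h3 h2 (by positivity) (by positivity)
  · intro x hx
    obtain ⟨u, -, rfl⟩ := Finset.mem_image.mp hx
    have hs0 : (0 : ℤ) ≤ ((u.2 : ℕ) : ℤ) := by positivity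
    have hs1 : ((u.2 : ℕ) : ℤ) < m := by exact_mod_cast lt_of_lt_of_le u.2.2 hkm
    have hcb := coeff_bound (c := c) hn hm1 hc0 hc1 (ext_nonneg u.1) (ext_lt hm1 u.1) hs0 hs1
    have hct := coeff_two (m := m) (s := ((u.2 : ℕ) : ℤ)) hn hc0 (ext_nonneg u.1)
    obtain ⟨h1, h2, h3, h4, h5, h6⟩ := root_prop p (ff n m c (ext n m u.1) ((u.2 : ℕ) : ℤ))
      (monic_ff _ _ _ _ _) (hI _ _ _) n (natDegree_ff _ _ _ _ _) (by omega)
      (by rw [coeff_ff, if_pos (by omega)]; simp [aa]) (4 * n * m) hcb (2 * m) (by linarith)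
      ⟨2, hct⟩ (Φ u) (hΦ u)
    refine ⟨h1, ?_, h3, ?_⟩
    · refine h2.trans ?_
      rw [le_div_iff₀ (by positivity)] at hmle
      linarith
    · refine le_trans ?_ h6
      have hnpos : (0 : ℝ) < n := by positivity
      have h7 : Real.log ((2 * m / 2 ^ n : ℝ)) ≤ n * height (Φ u) := by
        rw [← Real.log_exp (n * height (Φ u)), ← h5]
        exact Real.log_le_log (by positivity) h4
      have h8 : Real.log |(((ff n m c (ext n m u.1) ((u.2 : ℕ) : ℤ)).eval 1 : ℤ) : ℝ)| ≤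
          (1 - δ) * (n * height (Φ u)) := by
        rw [eval_ff hn]
        push_cast
        have h9 : (0 : ℝ) ≤ (u.2 : ℕ) := by positivity
        rw [abs_of_pos (by positivity)]
        calc Real.log (2 * ((u.2 : ℕ) : ℝ) + 1)
            ≤ Real.log ((2 * m / 2 ^ n : ℝ) ^ (1 - δ)) := by
              refine Real.log_le_log (by positivity) ?_
              have h10 : ((u.2 : ℕ) : ℝ) + 1 ≤ k := by exact_mod_cast u.2.2
              linarith
          _ = (1 - δ) * Real.log (2 * m / 2 ^ n : ℝ) := Real.log_rpow (by positivity) _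
          _ ≤ _ := mul_le_mul_of_nonneg_left h7 hδ'.le
      have h11 : Real.log |(((ff n m c (ext n m u.1) ((u.2 : ℕ) : ℤ)).eval 1 : ℤ) : ℝ)| / n ≤
          (1 - δ) * height (Φ u) := by
        rw [div_le_iff₀ hnpos]
        linarith
      linarith

/-- many exceptional units -/
theorem lower_one {r : ℕ} (p : Fin r → ℕ) [∀ t, Fact (p t).Prime] (n : ℕ) (hn : 3 ≤ n) :
    ∃ c B₀ : ℝ, 0 < c ∧ ∀ B : ℝ, B₀ ≤ B →
    ∃ S : Finset (AlgebraicClosure ℚ), c * B ^ ((n : ℝ) - 2) ≤ (S.card : ℝ) ∧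
      ∀ x ∈ S, finrank ℚ (IntermediateField.adjoin ℚ {x}) = n ∧ relHeight x ≤ B ∧
        aeval x (X * (X - 1) : ℚ[X]) ≠ 0 ∧
        3 * height x ≤ proximity p (X * (X - 1) : ℚ[X]) 3 x := by
  classical
  obtain ⟨e, he0, hen, hes, hirr⟩ := exists_residues n (by omega)
  obtain ⟨c, hc⟩ : ∃ c : ℕ → ℤ, ∀ j, c j = if h : j < n + 1 then ((e ⟨j, h⟩ : ℕ) : ℤ) else 0 :=
    ⟨fun j => if h : j < n + 1 then ((e ⟨j, h⟩ : ℕ) : ℤ) else 0, fun _ => rfl⟩
  have hc0 : ∀ j, 0 ≤ c j := fun j => by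
    rw [hc]; split_ifs <;> simp
  have hc1 : ∀ j, c j ≤ 1 := fun j => by
    rw [hc]
    split_ifs with h
    · have := (e ⟨j, h⟩).2
      omega
    · simp
  have hce : ∀ i : Fin (n + 1), c i = ((e i : ℕ) : ℤ) := fun i => by
    rw [hc, dif_pos i.2]
  have hI : ∀ (m : ℕ) (t : ℕ → ℤ) (s : ℤ), Irreducible (ff n m c t s) := fun m t s =>
    irr_ff hn e he0 hen hes hirr hce
  have hnR : (3 : ℝ) ≤ n := by exact_mod_cast hn
  set κ : ℝ := 1 / (8 * n * (n + 1)) with hκ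
  have hκ0 : 0 < κ := by positivity
  refine ⟨κ ^ (n - 2), 4 * n * (n + 1), by positivity, ?_⟩
  intro B hB1
  have hB0 : 0 < B := lt_of_lt_of_le (by positivity) hB1
  obtain ⟨m, hm⟩ : ∃ m : ℕ, m = ⌊B / (4 * n * (n + 1))⌋₊ := ⟨_, rfl⟩
  have hx1 : 1 ≤ B / (4 * n * (n + 1)) := by
    rw [le_div_iff₀ (by positivity)]; linarith
  have hm1 : 1 ≤ m := by
    rw [hm]; exact Nat.le_floor (by simpa using hx1)
  have hm1R : (1 : ℝ) ≤ m := by exact_mod_cast hm1
  have hmle : (m : ℝ) ≤ B / (4 * n * (n + 1)) := by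
    rw [hm]; exact Nat.floor_le (by positivity)
  have hmge : κ * B ≤ m := by
    have h1 : B / (4 * n * (n + 1)) < m + 1 := by rw [hm]; exact Nat.lt_floor_add_one _
    have h2 : κ * B = (B / (4 * n * (n + 1))) / 2 := by
      rw [hκ]; field_simp; ring
    rw [h2]
    linarith
  have h2n : (0 : ℝ) < 2 ^ n := by positivity
  obtain ⟨k, hk⟩ : ∃ k : ℕ, k = 1 := ⟨1, rfl⟩
  have hkm : k ≤ m := by omega
  have hex : ∀ u : (Fin (n - 2) → Fin m) × Fin k, ∃ x : AlgebraicClosure ℚ,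
      aeval x (ff n m c (ext n m u.1) ((u.2 : ℕ) : ℤ)) = 0 := by
    intro u
    refine IsAlgClosed.exists_aeval_eq_zero _ _ ?_
    rw [degree_eq_natDegree (monic_ff _ _ _ _ _).ne_zero, natDegree_ff]
    exact_mod_cast (by omega : n ≠ 0)
  choose Φ hΦ using hex
  have hinj : Function.Injective Φ := by
    intro u v huv
    have h1 := eq_of_root (monic_ff _ _ _ _ _) (monic_ff _ _ _ _ _) (hI _ _ _) (hI _ _ _)
      (hΦ u) (by rw [huv]; exact hΦ v)
    obtain ⟨h2, h3⟩ := ff_inj hn h1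
    exact Prod.ext (ext_inj h3) (Fin.ext (by exact_mod_cast h2))
  refine ⟨Finset.univ.image Φ, ?_, ?_⟩
  · rw [Finset.card_image_of_injective _ hinj, Finset.card_univ, Fintype.card_prod,
      Fintype.card_fun, Fintype.card_fin, Fintype.card_fin, Fintype.card_fin]
    push_cast
    have h1 : B ^ ((n : ℝ) - 2) = B ^ (n - 2) := by
      rw [← Real.rpow_natCast, Nat.cast_sub (by omega)]
      norm_num
    rw [h1, hk, Nat.cast_one, mul_one, ← mul_pow]
    exact pow_le_pow_left₀ (by positivity) hmge _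
  · intro x hx
    obtain ⟨u, -, rfl⟩ := Finset.mem_image.mp hx
    have hs0 : (0 : ℤ) ≤ ((u.2 : ℕ) : ℤ) := by positivity
    have hs1 : ((u.2 : ℕ) : ℤ) < m := by exact_mod_cast lt_of_lt_of_le u.2.2 hkm
    have hcb := coeff_bound (c := c) hn hm1 hc0 hc1 (ext_nonneg u.1) (ext_lt hm1 u.1) hs0 hs1
    have hct := coeff_two (m := m) (s := ((u.2 : ℕ) : ℤ)) hn hc0 (ext_nonneg u.1)
    obtain ⟨h1, h2, h3, h4, h5, h6⟩ := root_prop p (ff n m c (ext n m u.1) ((u.2 : ℕ) : ℤ))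
      (monic_ff _ _ _ _ _) (hI _ _ _) n (natDegree_ff _ _ _ _ _) (by omega)
      (by rw [coeff_ff, if_pos (by omega)]; simp [aa]) (4 * n * m) hcb (2 * m) (by linarith)
      ⟨2, hct⟩ (Φ u) (hΦ u)
    refine ⟨h1, ?_, h3, ?_⟩
    · refine h2.trans ?_
      rw [le_div_iff₀ (by positivity)] at hmle
      linarith
    · refine le_trans ?_ h6
      have hnpos : (0 : ℝ) < n := by positivity
      have h7 : ((u.2 : ℕ) : ℤ) = 0 := by
        have := u.2.2
        omega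
      rw [eval_ff hn, h7]
      simp

end Pool.Agent.AA
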