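import Pool.Agent.AA.BoxCount
import Pool.Agent.AA.Family
import Pool.Agent.AA.Upper

/-!
# The number of the points which are close to the divisor
-/

set_option autoImplicit false

open Polynomial NumberField IntermediateField Module Pool.Agent.RefW
open scoped Classical

namespace Pool.Agent.AA

/-- common denominators -/
private theorem exists_den {ι : Type} [Fintype ι] {n : ℕ} (L : ι → Type) [∀ j, Field (L j)]
    [∀ j, NumberField (L j)] (v : ∀ j, Fin (n + 1) → L j) :
    ∃ (m : ℕ) (u : ∀ j, Fin (n + 1) → 𝓞 (L j)), m ≠ 0 ∧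
      ∀ j i, ((u j i : 𝓞 (L j)) : L j) = (m : L j) * v j i := by
  have h1 : ∀ j, ∃ y : ℤ, y ≠ 0 ∧ ∀ x ∈ Finset.univ.image (v j), IsIntegral ℤ (y • x) :=
    fun j => exists_integral_multiples ℤ ℚ (L := L j) (Finset.univ.image (v j))
  choose y hy0 hy using h1
  have hint : ∀ j i, IsIntegral ℤ (((∏ j, (y j).natAbs : ℕ) : L j) * v j i) := by
    intro j i
    have h2 : (y j : ℤ) ∣ ((∏ j, (y j).natAbs : ℕ) : ℤ) := by
      rw [← Int.natAbs_dvd_natAbs, Int.natAbs_natCast]
      exact Finset.dvd_prod_of_mem (fun j => (y j).natAbs) (Finset.mem_univ j)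
    obtain ⟨z, hz⟩ := h2
    have h3 : ((∏ j, (y j).natAbs : ℕ) : L j) * v j i = (z : L j) * (y j • v j i) := by
      have h4 : ((∏ j, (y j).natAbs : ℕ) : L j) = ((y j * z : ℤ) : L j) := by
        rw [← hz, Int.cast_natCast]
      rw [h4, zsmul_eq_mul]
      push_cast
      ring
    rw [h3]
    exact (isIntegral_algebraMap (R := ℤ) (A := L j) (x := z)).mul
      (hy j _ (Finset.mem_image_of_mem _ (Finset.mem_univ i)))
  refine ⟨∏ j, (y j).natAbs, fun j i => ⟨_, hint j i⟩, ?_, fun j i => rfl⟩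
  exact Finset.prod_ne_zero_iff.2 fun j _ => Int.natAbs_ne_zero.2 (hy0 j)

/-- The polynomials `F` and the values in the fields generated by the zeros of `g`. -/
private structure Data (k : Type) [Field k] [NumberField k] {r : ℕ} (p : Fin r → ℕ)
    [∀ t, Fact (p t).Prime] (g : k[X]) (q n : ℕ) where
  ι : Type
  fι : Fintype ι
  β : ι → AlgebraicClosure k
  u : ∀ j, Fin (n + 1) → 𝓞 (IntermediateField.adjoin k {β j})
  C : ℝ
  pos : 0 < C
  inj : ∀ F F' : Fin (n + 1) → 𝓞 k,
    (∀ j, ∑ i, algebraMap k (IntermediateField.adjoin k {β j}) (F i : k) *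
        (u j i : IntermediateField.adjoin k {β j}) =
      ∑ i, algebraMap k (IntermediateField.adjoin k {β j}) (F' i : k) *
        (u j i : IntermediateField.adjoin k {β j})) →
    (∀ i : Fin (n + 1), g.natDegree ≤ i → (i : ℕ) < g.natDegree + (n + 1 - q) →
      F i = F' i) → F = F'
  link : ∀ (K : Type) [Field K] [NumberField K] [Algebra k K] (x : K),
    IntermediateField.adjoin k {x} = ⊤ → finrank k K = n → aeval x g ≠ 0 →
    ∃ F : Fin (n + 1) → 𝓞 k, F ≠ 0 ∧ RootOf F K x ∧ hs F ≤ C * Real.exp (n * SST.ht K x) ∧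
      (∀ j, ∑ i, algebraMap k (IntermediateField.adjoin k {β j}) (F i : k) *
        (u j i : IntermediateField.adjoin k {β j}) ≠ 0) ∧
      ∏ j, ((∏ φ : (IntermediateField.adjoin k {β j}) →+* ℂ,
        ‖φ (∑ i, algebraMap k (IntermediateField.adjoin k {β j}) (F i : k) *
          (u j i : IntermediateField.adjoin k {β j}))‖) *
        ∏ t, ∏ φ : (IntermediateField.adjoin k {β j}) →+* ℂ_[p t],
          ‖φ (∑ i, algebraMap k (IntermediateField.adjoin k {β j}) (F i : k) *
            (u j i : IntermediateField.adjoin k {β j}))‖) ≤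
        C * Real.exp (finrank ℚ K * (q * SST.ht K x - SST.proxK p g q K x))

private theorem exists_data (k : Type) [Field k] [NumberField k] {r : ℕ} (p : Fin r → ℕ)
    [∀ t, Fact (p t).Prime] (g : k[X]) (hg : Squarefree g) (q : ℕ)
    (hq : q = g.natDegree ∨ q = g.natDegree + 1) (n : ℕ) : Nonempty (Data k p g q n) := by
  obtain ⟨ι, hι, β, v, e, P, c, hc, hgood, hgc, hsum, hinj⟩ := exists_family k g hg q hq n
  obtain ⟨m, u, hm, hu⟩ := exists_den (fun j => IntermediateField.adjoin k {β j}) v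
  obtain ⟨C, hC, hlink⟩ := link k p n (fun j => IntermediateField.adjoin k {β j}) v e P hgood m hm
    u hu g c hc hgc q hsum
  refine ⟨⟨ι, hι, β, u, C, hC, fun F F' h1 h2 => hinj F F' (fun j => ?_) h2, hlink⟩⟩
  have h3 := h1 j
  have h4 : ∀ G : Fin (n + 1) → 𝓞 k,
      ∑ i, algebraMap k (IntermediateField.adjoin k {β j}) (G i : k) *
        (u j i : IntermediateField.adjoin k {β j}) =
      (m : IntermediateField.adjoin k {β j}) *
        ∑ i, algebraMap k (IntermediateField.adjoin k {β j}) (G i : k) * v j i := by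
    intro G
    rw [Finset.mul_sum]
    refine Finset.sum_congr rfl fun i _ => ?_
    rw [hu]
    ring
  rw [h4, h4] at h3
  exact mul_left_cancel₀ (Nat.cast_ne_zero.2 hm) h3

/-- the trivial upper bound of the proximity function -/
theorem prox_upper (k : Type) [Field k] [NumberField k] {r : ℕ} (p : Fin r → ℕ)
    [∀ t, Fact (p t).Prime] (hp : Function.Injective p) (g : k[X]) (hg : Squarefree g) (q : ℕ)
    (hq : q = g.natDegree ∨ q = g.natDegree + 1) (n : ℕ) :
    ∃ C : ℝ, ∀ (K : Type) [Field K] [NumberField K] [Algebra k K] (x : K),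
      IntermediateField.adjoin k {x} = ⊤ → finrank k K = n → aeval x g ≠ 0 →
      SST.proxK p g q K x ≤ q * SST.ht K x + C := by
  obtain ⟨D⟩ := exists_data k p g hg q hq n
  obtain ⟨ι, hι, β, u, C, hC, _, hlink⟩ := D
  refine ⟨|Real.log C|, fun K _ _ _ x hx hn hgx => ?_⟩
  obtain ⟨F, hF, hroot, _, hne, hprod⟩ := hlink K x hx hn hgx
  have h1 : (1 : ℝ) ≤ ∏ j, ((∏ φ : (IntermediateField.adjoin k {β j}) →+* ℂ,
        ‖φ (∑ i, algebraMap k (IntermediateField.adjoin k {β j}) (F i : k) *
          (u j i : IntermediateField.adjoin k {β j}))‖) *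
        ∏ t, ∏ φ : (IntermediateField.adjoin k {β j}) →+* ℂ_[p t],
          ‖φ (∑ i, algebraMap k (IntermediateField.adjoin k {β j}) (F i : k) *
            (u j i : IntermediateField.adjoin k {β j}))‖) := by
    refine Finset.one_le_prod fun j _ => ?_
    have h2 : ((∑ i, algebraMap (𝓞 k) (𝓞 (IntermediateField.adjoin k {β j})) (F i) * u j i :
        𝓞 (IntermediateField.adjoin k {β j})) : IntermediateField.adjoin k {β j}) =
        ∑ i, algebraMap k (IntermediateField.adjoin k {β j}) (F i : k) *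
          (u j i : IntermediateField.adjoin k {β j}) := by
      change algebraMap _ _ _ = _
      rw [map_sum]
      refine Finset.sum_congr rfl fun i _ => ?_
      rw [map_mul]
      rfl
    have h3 := one_le_prod_embeddings (IntermediateField.adjoin k {β j}) p hp
      (∑ i, algebraMap (𝓞 k) (𝓞 (IntermediateField.adjoin k {β j})) (F i) * u j i) (fun h => by
        apply hne j
        rw [← h2, h]
        rfl)
    rw [h2] at h3
    exact h3
  have h2 := h1.trans hprod
  have h3 : 0 ≤ Real.log C + finrank ℚ K * (q * SST.ht K x - SST.proxK p g q K x) := by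
    have := Real.log_nonneg h2
    rwa [Real.log_mul hC.ne' (Real.exp_pos _).ne', Real.log_exp] at this
  have hN : (1 : ℝ) ≤ finrank ℚ K := by
    have := finrank_pos (R := ℚ) (M := K)
    exact_mod_cast this
  by_contra hcon
  push Not at hcon
  have h4 : |Real.log C| < SST.proxK p g q K x - q * SST.ht K x := by linarith
  have h5 := le_abs_self (Real.log C)
  have h6 := abs_nonneg (Real.log C)
  nlinarith

private theorem near_log (η : ℝ) (hη : 0 < η) (e : ℕ) : ∃ C : ℝ, 0 < C ∧ ∀ B : ℝ, 1 ≤ B →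
    (1 + Real.log B) ^ e ≤ C * B ^ η := by
  set η' : ℝ := η / (e + 1) with hη'
  have h0 : 0 < η' := by positivity
  refine ⟨(1 + 1 / η') ^ e, by positivity, fun B hB => ?_⟩
  have hL : 0 ≤ Real.log B := Real.log_nonneg hB
  have h2 : 1 + η' * Real.log B ≤ B ^ η' := by
    rw [Real.rpow_def_of_pos (by linarith), mul_comm]
    have := Real.add_one_le_exp (Real.log B * η')
    linarith
  have h3 : 1 + Real.log B ≤ (1 + 1 / η') * (1 + η' * Real.log B) := by
    have h4 : (1 + 1 / η') * (1 + η' * Real.log B) =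
        1 + Real.log B + (η' * Real.log B + 1 / η') := by
      field_simp
      ring
    rw [h4]
    have : 0 ≤ η' * Real.log B + 1 / η' := by positivity
    linarith
  have h5 : 0 < 1 + 1 / η' := by positivity
  have h6 : 1 + Real.log B ≤ (1 + 1 / η') * B ^ η' :=
    h3.trans (mul_le_mul_of_nonneg_left h2 h5.le)
  refine (pow_le_pow_left₀ (by linarith) h6 e).trans ?_
  rw [mul_pow]
  refine mul_le_mul_of_nonneg_left ?_ (by positivity)
  rw [← Real.rpow_natCast, ← Real.rpow_mul (by linarith)]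
  refine Real.rpow_le_rpow_of_exponent_le hB ?_
  rw [hη', div_mul_eq_mul_div, div_le_iff₀ (by positivity)]
  nlinarith

theorem near_count (k : Type) [Field k] [NumberField k] {r : ℕ} (p : Fin r → ℕ)
    [∀ t, Fact (p t).Prime] (hp : Function.Injective p) (g : k[X]) (hg : Squarefree g) (q : ℕ)
    (hq : q = g.natDegree ∨ q = g.natDegree + 1) (n : ℕ) (hqn : q ≤ n + 1) (a η : ℝ)
    (ha : a ≤ q) (hη : 0 < η) :
    ∃ C : ℝ, ∀ B : ℝ, 1 ≤ B →
      {x : AlgebraicClosure k | finrank k (IntermediateField.adjoin k {x}) = n ∧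
        relHeight x ≤ B ∧ aeval x g ≠ 0 ∧ a * height x ≤ proximity p g q x}.Finite ∧
      ({x : AlgebraicClosure k | finrank k (IntermediateField.adjoin k {x}) = n ∧
        relHeight x ≤ B ∧ aeval x g ≠ 0 ∧ a * height x ≤ proximity p g q x}.ncard : ℝ) ≤
        C * B ^ ((n : ℝ) + 1 - a + η) := by
  obtain ⟨D⟩ := exists_data k p g hg q hq n
  obtain ⟨ι, hι, β, u, C₁, hC₁, hinj, hlink⟩ := D
  set L : ι → Type := fun j => IntermediateField.adjoin k {β j} with hL
  set Φ : ∀ j, (Fin (n + 1) → 𝓞 k) → 𝓞 (IntermediateField.adjoin k {β j}) := fun j F =>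
    ∑ i, algebraMap (𝓞 k) (𝓞 (IntermediateField.adjoin k {β j})) (F i) * u j i with hΦdef
  have hΦ : ∀ j F, ((Φ j F : 𝓞 (IntermediateField.adjoin k {β j})) :
      IntermediateField.adjoin k {β j}) =
      ∑ i, algebraMap k (IntermediateField.adjoin k {β j}) (F i : k) *
          (u j i : IntermediateField.adjoin k {β j}) := by
    intro j F
    change algebraMap _ _ _ = _
    rw [hΦdef, map_sum]
    refine Finset.sum_congr rfl fun i _ => ?_
    rw [map_mul]
    rfl
  set Ψ : Fin (n + 1 - q) → (Fin (n + 1) → 𝓞 k) → 𝓞 k := fun i F =>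
    F ⟨g.natDegree + i, by have := i.2; omega⟩ with hΨ
  have hinj' : ∀ F F' : Fin (n + 1) → 𝓞 k, (∀ j, Φ j F = Φ j F') → (∀ i, Ψ i F = Ψ i F') →
      F = F' := by
    intro F F' h1 h2
    refine hinj F F' (fun j => ?_) fun i hi1 hi2 => ?_
    · rw [← hΦ, ← hΦ, h1 j]
    · have h3 := h2 ⟨i - g.natDegree, by omega⟩
      have h4 : (⟨g.natDegree + (i - g.natDegree), by omega⟩ : Fin (n + 1)) = i :=
        Fin.ext (by simp only; omega)
      rw [hΨ] at h3
      simp only at h3
      rwa [h4] at h3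
  set U : ℝ := ∑ j, ∑ φ : (IntermediateField.adjoin k {β j}) →+* ℂ, ∑ i,
    ‖φ (u j i : IntermediateField.adjoin k {β j})‖ with hU
  have hUle : ∀ j (φ : (IntermediateField.adjoin k {β j}) →+* ℂ) i,
      ‖φ (u j i : IntermediateField.adjoin k {β j})‖ ≤ U := by
    intro j φ i
    refine le_trans ?_ (Finset.single_le_sum (f := fun j =>
      ∑ φ : (IntermediateField.adjoin k {β j}) →+* ℂ, ∑ i,
        ‖φ (u j i : IntermediateField.adjoin k {β j})‖)
      (fun j _ => Finset.sum_nonneg fun φ _ => Finset.sum_nonneg fun i _ => norm_nonneg _)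
      (Finset.mem_univ j))
    refine le_trans ?_ (Finset.single_le_sum (f := fun φ : (IntermediateField.adjoin k {β j}) →+* ℂ
      => ∑ i, ‖φ (u j i : IntermediateField.adjoin k {β j})‖)
      (fun φ _ => Finset.sum_nonneg fun i _ => norm_nonneg _) (Finset.mem_univ φ))
    exact Finset.single_le_sum (f := fun i => ‖φ (u j i : IntermediateField.adjoin k {β j})‖)
      (fun i _ => norm_nonneg _) (Finset.mem_univ i)
  have hU0 : 0 ≤ U := Finset.sum_nonneg fun j _ => Finset.sum_nonneg fun φ _ =>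
    Finset.sum_nonneg fun i _ => norm_nonneg _
  set A : ℝ := 1 + C₁ * (1 + (n + 1) * U) with hA
  have hA1 : 1 ≤ A := by
    rw [hA]
    have : 0 ≤ C₁ * (1 + (n + 1) * U) := by positivity
    linarith
  obtain ⟨C₂, e₂, hC₂, hbox⟩ := box_count L k p hp Φ Ψ hinj' A hA1
  obtain ⟨C₃, hC₃, hlog⟩ := near_log η hη e₂
  refine ⟨n * (C₂ * C₁ * C₃), fun B hB => ?_⟩
  have hB0 : 0 < B := by linarith
  set d := finrank ℚ k with hd
  have hd0 : 0 < d := finrank_pos
  set R : ℝ := B ^ (1 / (d : ℝ)) with hR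
  have hR1 : 1 ≤ R := Real.one_le_rpow hB (by positivity)
  have hRd : R ^ d = B := by
    rw [hR, ← Real.rpow_natCast, ← Real.rpow_mul hB0.le]
    have : 1 / (d : ℝ) * (d : ℝ) = 1 := by field_simp
    rw [this, Real.rpow_one]
  obtain ⟨hfin, hcard⟩ := hbox R hR1 (C₁ * B ^ ((q : ℝ) - a)) (by positivity)
  set XX := {F : Fin (n + 1) → 𝓞 k | (∀ j, Φ j F ≠ 0) ∧
        (∀ j, ∀ φ : L j →+* ℂ, ‖φ (Φ j F : L j)‖ ≤ A * R) ∧
        (∀ i, Ψ i F ∈ small k (A * R)) ∧
        ∏ j, ((∏ φ : L j →+* ℂ, ‖φ (Φ j F : L j)‖) *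
          ∏ t, ∏ φ : L j →+* ℂ_[p t], ‖φ (Φ j F : L j)‖) ≤ C₁ * B ^ ((q : ℝ) - a)} with hXX
  set S := {x : AlgebraicClosure k | finrank k (IntermediateField.adjoin k {x}) = n ∧
        relHeight x ≤ B ∧ aeval x g ≠ 0 ∧ a * height x ≤ proximity p g q x} with hS
  -- the polynomial of a point
  have hpt : ∀ x ∈ S, ∃ F ∈ XX, F ≠ 0 ∧
      ∑ i, algebraMap k (AlgebraicClosure k) (F i : k) * x ^ (i : ℕ) = 0 := by
    rintro x ⟨hxn, hxB, hxg, hxa⟩
    set K := IntermediateField.adjoin k {x} with hK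
    have hxg' : aeval (AdjoinSimple.gen k x) g ≠ 0 := by
      intro h
      apply hxg
      have h1 := congrArg (algebraMap K (AlgebraicClosure k)) h
      rwa [map_zero, ← aeval_algebraMap_apply, AdjoinSimple.algebraMap_gen] at h1
    obtain ⟨F, hF, hroot, hsF, hne, hprod⟩ := hlink K (AdjoinSimple.gen k x)
      (adjoin_gen_top k x) hxn hxg'
    have hN : finrank ℚ K = d * n := by
      rw [← hxn, hd, finrank_mul_finrank ℚ k K]
    have hlogB : (finrank ℚ K : ℝ) * SST.ht K (AdjoinSimple.gen k x) ≤ Real.log B := by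
      rw [Real.le_log_iff_exp_le hB0]
      rw [UpperAux.relHeight_eq] at hxB
      exact hxB
    have hsR : hs F ≤ C₁ * R := by
      refine hsF.trans (mul_le_mul_of_nonneg_left ?_ hC₁.le)
      rw [hR, Real.rpow_def_of_pos hB0, Real.exp_le_exp]
      rw [hN] at hlogB
      push_cast at hlogB
      rw [mul_one_div, le_div_iff₀ (by positivity)]
      linarith
    refine ⟨F, ⟨fun j => ?_, fun j φ => ?_, fun i w => ?_, ?_⟩, hF, ?_⟩
    · intro h
      apply hne j
      rw [← hΦ, h]
      rfl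
    · rw [hΦ, map_sum]
      refine (norm_sum_le _ _).trans ?_
      have h1 : ∀ i, ‖φ (algebraMap k (IntermediateField.adjoin k {β j}) (F i : k) *
          (u j i : IntermediateField.adjoin k {β j}))‖ ≤ C₁ * R * U := by
        intro i
        rw [map_mul, norm_mul]
        exact mul_le_mul ((coord_le_hs F (φ.comp (algebraMap k _)) i).trans hsR) (hUle j φ i)
          (norm_nonneg _) (by positivity)
      refine (Finset.sum_le_card_nsmul _ _ _ fun i _ => h1 i).trans ?_
      rw [Finset.card_univ, Fintype.card_fin, nsmul_eq_mul, hA]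
      push_cast
      nlinarith [mul_pos hC₁ (lt_of_lt_of_le one_pos hR1)]
    · rw [← InfinitePlace.norm_embedding_eq]
      refine lt_of_le_of_lt ((coord_le_hs F w.embedding _).trans hsR) ?_
      rw [hA]
      have h1 : 0 ≤ C₁ * ((n + 1) * U) * R := by positivity
      nlinarith
    · have h1 : ∏ j, ((∏ φ : L j →+* ℂ, ‖φ (Φ j F : L j)‖) *
          ∏ t, ∏ φ : L j →+* ℂ_[p t], ‖φ (Φ j F : L j)‖) ≤
          C₁ * Real.exp (finrank ℚ K * (q * SST.ht K (AdjoinSimple.gen k x) -
            SST.proxK p g q K (AdjoinSimple.gen k x))) := by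
        refine le_trans (le_of_eq ?_) hprod
        refine Finset.prod_congr rfl fun j _ => ?_
        rw [← hΦ]
      refine h1.trans (mul_le_mul_of_nonneg_left ?_ hC₁.le)
      rw [Real.rpow_def_of_pos hB0, Real.exp_le_exp]
      have h2 : a * SST.ht K (AdjoinSimple.gen k x) ≤
        SST.proxK p g q K (AdjoinSimple.gen k x) := hxa
      have h3 : (finrank ℚ K : ℝ) * (q * SST.ht K (AdjoinSimple.gen k x) -
          SST.proxK p g q K (AdjoinSimple.gen k x)) ≤
          (q - a) * (finrank ℚ K * SST.ht K (AdjoinSimple.gen k x)) := by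
        have h4 : (0 : ℝ) ≤ finrank ℚ K := Nat.cast_nonneg _
        nlinarith
      refine h3.trans ?_
      rw [mul_comm (Real.log B)]
      exact mul_le_mul_of_nonneg_left hlogB (by linarith)
    · have h1 := congrArg (algebraMap K (AlgebraicClosure k)) hroot.root
      rw [map_zero, map_sum] at h1
      rw [← h1]
      refine Finset.sum_congr rfl fun i _ => ?_
      rw [map_mul, map_pow, AdjoinSimple.algebraMap_gen]
      rfl
  -- the roots
  set rts : (Fin (n + 1) → 𝓞 k) → Finset (AlgebraicClosure k) := fun F =>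
    (∑ i : Fin (n + 1), C (algebraMap k (AlgebraicClosure k) (F i : k)) * X ^ (i : ℕ) :
      (AlgebraicClosure k)[X]).roots.toFinset with hrts
  have hrcard : ∀ F, (rts F).card ≤ n := by
    intro F
    refine (Multiset.toFinset_card_le _).trans ((card_roots' _).trans ?_)
    refine natDegree_sum_le_of_forall_le _ _ fun i _ => ?_
    refine (natDegree_C_mul_X_pow_le _ _).trans ?_
    omega
  set W : Finset (Fin (n + 1) → 𝓞 k) := hfin.toFinset with hW
  have hsub : S ⊆ ((W.biUnion rts : Finset _) : Set (AlgebraicClosure k)) := by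
    intro x hx
    obtain ⟨F, hFX, hF0, hFx⟩ := hpt x hx
    rw [Finset.mem_coe, Finset.mem_biUnion]
    refine ⟨F, (Set.Finite.mem_toFinset hfin).2 hFX, ?_⟩
    rw [hrts, Multiset.mem_toFinset, mem_roots', IsRoot.def]
    constructor
    · intro h0
      apply hF0
      funext i
      have h1 := congrArg (fun P : (AlgebraicClosure k)[X] => P.coeff i) h0
      simp only [Polynomial.finsetSum_coeff, coeff_zero] at h1
      rw [Finset.sum_eq_single i] at h1
      · rw [Polynomial.coeff_C_mul_X_pow, if_pos rfl, map_eq_zero] at h1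
        exact RingOfIntegers.ext h1
      · intro j _ hj
        rw [Polynomial.coeff_C_mul_X_pow, if_neg]
        exact fun h => hj (Fin.ext h.symm)
      · intro h
        exact absurd (Finset.mem_univ i) h
    · rw [eval_finsetSum, ← hFx]
      refine Finset.sum_congr rfl fun i _ => ?_
      rw [eval_mul, eval_C, eval_pow, eval_X]
  refine ⟨Set.Finite.subset (Finset.finite_toSet _) hsub, ?_⟩
  have h1 : S.ncard ≤ W.card * n := by
    refine (Set.ncard_le_ncard hsub (Finset.finite_toSet _)).trans ?_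
    rw [Set.ncard_coe_finset]
    exact Finset.card_biUnion_le_card_mul _ _ _ fun F _ => hrcard F
  have h2 : (W.card : ℝ) ≤ C₂ * (C₁ * B ^ ((q : ℝ) - a)) *
      (R ^ finrank ℚ k) ^ Fintype.card (Fin (n + 1 - q)) * (1 + Real.log R) ^ e₂ := by
    rw [hW, ← Set.ncard_eq_toFinset_card _ hfin]
    exact hcard
  have h3 : (1 + Real.log R) ^ e₂ ≤ C₃ * B ^ η := by
    refine le_trans (pow_le_pow_left₀ ?_ ?_ _) (hlog B hB)
    · have := Real.log_nonneg hR1
      linarith
    · have h4 : Real.log R ≤ Real.log B := by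
        refine Real.log_le_log (by linarith) ?_
        rw [← hRd]
        exact le_self_pow₀ hR1 hd0.ne'
      linarith
  have h4 : (B ^ (n + 1 - q) : ℝ) = B ^ (((n + 1 - q : ℕ) : ℝ)) := (Real.rpow_natCast _ _).symm
  calc (S.ncard : ℝ) ≤ W.card * n := by exact_mod_cast h1
    _ ≤ (C₂ * (C₁ * B ^ ((q : ℝ) - a)) *
      (R ^ finrank ℚ k) ^ Fintype.card (Fin (n + 1 - q)) * (1 + Real.log R) ^ e₂) * n :=
      mul_le_mul_of_nonneg_right h2 (Nat.cast_nonneg _)
    _ ≤ (C₂ * (C₁ * B ^ ((q : ℝ) - a)) *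
      (R ^ finrank ℚ k) ^ Fintype.card (Fin (n + 1 - q)) * (C₃ * B ^ η)) * n := by
      refine mul_le_mul_of_nonneg_right (mul_le_mul_of_nonneg_left h3 ?_) (Nat.cast_nonneg _)
      have : 0 ≤ C₁ * B ^ ((q : ℝ) - a) := by positivity
      positivity
    _ = n * (C₂ * C₁ * C₃) * B ^ ((n : ℝ) + 1 - a + η) := by
      rw [← hd, hRd, Fintype.card_fin, h4]
      have h5 : (n : ℝ) + 1 - a + η = ((q : ℝ) - a) + ((n + 1 - q : ℕ) : ℝ) + η := by
        rw [Nat.cast_sub hqn]
        push_cast
        ring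
      rw [h5, Real.rpow_add hB0, Real.rpow_add hB0]
      ring

end Pool.Agent.AA
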