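import Pool.Agent.AA.Cell
import Pool.Agent.AA.Blich

/-!
# A small integer outside a subfield
-/

set_option autoImplicit false

open Polynomial NumberField IntermediateField Module

namespace Pool.Agent.AA

/-- if all small integers come from `L`, there are few of them -/
private theorem outside_card (L K : Type) [Field L] [NumberField L] [Field K] [NumberField K]
    [Algebra L K] (R : ℝ)
    (h : ∀ a ∈ small K R, (a : K) ∈ Set.range (algebraMap L K)) :
    (small K R).ncard ≤ (small L R).ncard := by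
  have hex : ∀ a : 𝓞 K, ∃ b : 𝓞 L, a ∈ small K R → algebraMap L K b = a := by
    intro a
    by_cases ha : a ∈ small K R
    · obtain ⟨b, hb⟩ := h a ha
      have hint : IsIntegral ℤ b := by
        have h1 : IsIntegral ℤ (algebraMap L K b) := by
          rw [hb]
          exact a.2
        exact (isIntegral_algebraMap_iff (algebraMap L K).injective).1 h1
      exact ⟨⟨b, hint⟩, fun _ => hb⟩
    · exact ⟨0, fun h => absurd h ha⟩
  choose f hf using hex
  refine Set.ncard_le_ncard_of_injOn f ?_ ?_ (small_finite L R)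
  · intro a ha v
    obtain ⟨w, hw⟩ := InfinitePlace.comap_surjective (K := K) v
    have h1 := ha w
    rw [← hf a ha] at h1
    rw [← hw, InfinitePlace.comap_apply]
    exact h1
  · intro a ha b hb hab
    apply RingOfIntegers.coe_injective
    have h1 := hf a ha
    have h2 := hf b hb
    rw [hab] at h1
    exact h1.symm.trans h2

theorem exists_outside (L K : Type) [Field L] [NumberField L] [Field K] [NumberField K]
    [Algebra L K] (hl : 2 ≤ finrank L K) :
    ∃ a ∈ small K (12 ^ (finrank ℚ K + 1) *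
        |(discr K : ℝ)| ^ (1 / (2 * ((finrank ℚ K : ℝ) - finrank ℚ L)))),
      (a : K) ∉ Set.range (algebraMap L K) := by
  set N := finrank ℚ K with hN
  set m := finrank ℚ L with hm
  set D : ℝ := |(discr K : ℝ)| with hD
  set R : ℝ := 12 ^ (N + 1) * D ^ (1 / (2 * ((N : ℝ) - m))) with hR
  have hm0 : 0 < m := finrank_pos
  have hmul : m * finrank L K = N := Module.finrank_mul_finrank ℚ L K
  have hNm : m + 1 ≤ N := by nlinarith
  have hNm' : (0 : ℝ) < (N : ℝ) - m := by
    have : ((m + 1 : ℕ) : ℝ) ≤ N := by exact_mod_cast hNm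
    push_cast at this
    linarith
  have hD1 : 1 ≤ D := by
    have h1 : (1 : ℤ) ≤ |discr K| := Int.one_le_abs (discr_ne_zero K)
    rw [hD]
    exact_mod_cast h1
  have hD0 : 0 < D := by linarith
  have hR1 : 1 ≤ R := by
    have h1 : (1 : ℝ) ≤ 12 ^ (N + 1) := one_le_pow₀ (by norm_num)
    have h2 : 1 ≤ D ^ (1 / (2 * ((N : ℝ) - m))) :=
      Real.one_le_rpow hD1 (by positivity)
    rw [hR]
    nlinarith
  have hR0 : 0 < R := by linarith
  by_contra hcon
  push Not at hcon
  have h1 := outside_card L K R hcon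
  have h2 := card_small_le L R hR1
  have h3 := le_card_small K R hR0
  have h4 : (R / 2) ^ N / Real.sqrt D ≤ (6 * R) ^ m := by
    refine h3.trans (le_trans ?_ h2)
    exact_mod_cast h1
  have hs : 0 < Real.sqrt D := Real.sqrt_pos.2 hD0
  rw [div_le_iff₀ hs, div_pow, div_le_iff₀ (by positivity), mul_pow 6 R] at h4
  -- `R ^ (N - m)`
  have h5 : R ^ N = R ^ m * R ^ (N - m) := by
    rw [← pow_add]
    congr 1
    omega
  have h6 : R ^ (N - m) = (12 ^ (N + 1)) ^ (N - m) * Real.sqrt D := by
    rw [hR, mul_pow]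
    congr 1
    rw [← Real.rpow_natCast, ← Real.rpow_mul hD0.le, Real.sqrt_eq_rpow]
    congr 1
    rw [Nat.cast_sub (by omega)]
    field_simp
  rw [h5, h6] at h4
  have h7 : (12 : ℝ) ^ (N + 1) ≤ (12 ^ (N + 1)) ^ (N - m) := by
    have : (1 : ℝ) ≤ 12 ^ (N + 1) := one_le_pow₀ (by norm_num)
    calc (12 : ℝ) ^ (N + 1) = (12 ^ (N + 1)) ^ 1 := by rw [pow_one]
      _ ≤ (12 ^ (N + 1)) ^ (N - m) := pow_le_pow_right₀ this (by omega)
  have h8 : (6 : ℝ) ^ m * 2 ^ N < 12 ^ (N + 1) := by
    have e1 : (6 : ℝ) ^ m ≤ 6 ^ N := pow_le_pow_right₀ (by norm_num) (by omega)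
    have e2 : (12 : ℝ) ^ (N + 1) = 12 * (6 ^ N * 2 ^ N) := by
      rw [pow_succ, ← mul_pow]
      norm_num
      ring
    have e3 : (0 : ℝ) < 2 ^ N := by positivity
    have e4 : (0 : ℝ) < 6 ^ N := by positivity
    rw [e2]
    nlinarith [mul_le_mul_of_nonneg_right e1 e3.le, mul_pos e4 e3]
  have hRm : 0 < R ^ m := by positivity
  have h9 : R ^ m * ((12 ^ (N + 1)) ^ (N - m) * Real.sqrt D) ≤
      R ^ m * ((6 ^ m * 2 ^ N) * Real.sqrt D) := by
    refine h4.trans (le_of_eq ?_)
    ring
  have h10 := le_of_mul_le_mul_left h9 hRm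
  have h11 := le_of_mul_le_mul_right h10 hs
  linarith

end Pool.Agent.AA
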