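import Pool.Agent.AA.Outside
import Mathlib.RingTheory.Trace.Basic
import Mathlib.Topology.Algebra.Polynomial
import Mathlib.FieldTheory.PrimitiveElement
import Mathlib.FieldTheory.Minpoly.IsIntegrallyClosed
import Mathlib.Analysis.Complex.Polynomial.Basic

/-!
# Generators with small minimal polynomial
-/

set_option autoImplicit false

open Polynomial NumberField IntermediateField Module

namespace Pool.Agent.AA

section

variable {L K : Type} [Field L] [NumberField L] [Field K] [NumberField K] [Algebra L K]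

/-- the element of trace zero -/
private noncomputable def tz (L : Type) {K : Type} [Field L] [Field K] [Algebra L K] (a : K) : K :=
  (finrank L K : K) * a - algebraMap L K (Algebra.trace L K a)

private lemma trace_tz (a : K) : Algebra.trace L K (tz L a) = 0 := by
  unfold tz
  rw [map_sub, Algebra.trace_algebraMap, ← nsmul_eq_mul, map_nsmul, sub_self]

private lemma isIntegral_tz {a : K} (ha : IsIntegral ℤ a) : IsIntegral (𝓞 L) (tz L a) := by
  have h1 : IsIntegral ℤ (tz L a) := by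
    unfold tz
    refine IsIntegral.sub ((isIntegral_natCast _).mul ha) ?_
    have h2 : IsIntegral ℤ (Algebra.trace L K a) := Algebra.isIntegral_trace ha
    exact h2.map (algebraMap L K).toIntAlgHom
  exact h1.tower_top

private lemma tz_notMem {a : K} (hl : 0 < finrank L K) (ha : a ∉ Set.range (algebraMap L K)) :
    tz L a ∉ Set.range (algebraMap L K) := by
  rintro ⟨b, hb⟩
  apply ha
  refine ⟨(finrank L K : L)⁻¹ * (b + Algebra.trace L K a), ?_⟩
  have h0 : (finrank L K : K) ≠ 0 := by exact_mod_cast hl.ne'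
  rw [map_mul, map_inv₀, map_natCast, map_add, hb]
  unfold tz
  field_simp
  ring

private lemma conj_lt {R : ℝ} {a : 𝓞 K} (ha : a ∈ small K R) (σ : K →+* ℂ) :
    ‖σ (a : K)‖ < R := by
  have h := ha (InfinitePlace.mk σ)
  rwa [InfinitePlace.apply] at h

private lemma roots_le {R : ℝ} {a : 𝓞 K} (ha : a ∈ small K R) (τ : L →+* ℂ) :
    ∀ z ∈ ((minpoly L (tz L (a : K))).map τ).roots, ‖z‖ ≤ 2 * finrank L K * R := by
  intro z hz
  letI := τ.toAlgebra
  have hmap : τ = algebraMap L ℂ := rfl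
  have hz' : z ∈ (minpoly L (tz L (a : K))).rootSet ℂ := by
    rw [rootSet_def, Finset.mem_coe, Multiset.mem_toFinset]
    exact hz
  rw [← Algebra.IsAlgebraic.range_eval_eq_rootSet_minpoly] at hz'
  obtain ⟨σ, rfl⟩ := hz'
  have hσ : ∀ σ : K →ₐ[L] ℂ, ‖σ (a : K)‖ ≤ R := fun σ => (conj_lt ha (σ : K →+* ℂ)).le
  have h1 : algebraMap L ℂ (Algebra.trace L K (a : K)) = ∑ σ : K →ₐ[L] ℂ, σ (a : K) :=
    trace_eq_sum_embeddings ℂ
  have h2 : ‖algebraMap L ℂ (Algebra.trace L K (a : K))‖ ≤ finrank L K * R := by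
    rw [h1]
    refine (norm_sum_le _ _).trans ((Finset.sum_le_sum fun σ _ => hσ σ).trans ?_)
    rw [Finset.sum_const, Finset.card_univ, AlgHom.card, nsmul_eq_mul]
  have h3 : σ (tz L (a : K)) = (finrank L K : ℂ) * σ (a : K) -
      algebraMap L ℂ (Algebra.trace L K (a : K)) := by
    unfold tz
    rw [map_sub, map_mul, map_natCast, AlgHom.commutes]
  simp only
  rw [h3]
  calc ‖(finrank L K : ℂ) * σ (a : K) - algebraMap L ℂ (Algebra.trace L K (a : K))‖ ≤
      ‖(finrank L K : ℂ) * σ (a : K)‖ + ‖algebraMap L ℂ (Algebra.trace L K (a : K))‖ :=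
        norm_sub_le _ _
    _ ≤ finrank L K * R + finrank L K * R := by
        refine add_le_add ?_ h2
        rw [norm_mul, RCLike.norm_natCast]
        exact mul_le_mul_of_nonneg_left (hσ σ) (Nat.cast_nonneg _)
    _ = 2 * finrank L K * R := by ring

private lemma coeff_lt {R : ℝ} (hR : 0 < R) {a : 𝓞 K} (ha : a ∈ small K R) {l : ℕ}
    (hl : finrank L K = l) (hdeg : (minpoly L (tz L (a : K))).natDegree = l) (τ : L →+* ℂ) {i : ℕ}
    (hi : i + 2 ≤ l) :
    ‖τ ((minpoly L (tz L (a : K))).coeff i)‖ < (2 ^ (l + 2) * l * R) ^ (l - i) := by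
  have hmon : (minpoly L (tz L (a : K))).Monic :=
    minpoly.monic (Algebra.IsIntegral.isIntegral _)
  have h1 := coeff_le_of_roots_le i hmon (IsAlgClosed.splits _) (roots_le ha τ)
  rw [coeff_map, hdeg, hl] at h1
  have hl0 : (0 : ℝ) < l := by
    have : 0 < l := by omega
    exact_mod_cast this
  have h2 : ((l.choose i : ℕ) : ℝ) ≤ 2 ^ l := by
    exact_mod_cast Nat.choose_le_two_pow l i
  have h3 : (2 : ℝ) ^ l < (2 ^ (l + 1)) ^ (l - i) := by
    rw [← pow_mul]
    apply pow_lt_pow_right₀ (by norm_num)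
    have : 1 ≤ l - i := by omega
    nlinarith
  have h4 : 0 < (2 * (l : ℝ) * R) ^ (l - i) := by positivity
  calc ‖τ ((minpoly L (tz L (a : K))).coeff i)‖ ≤ (2 * l * R) ^ (l - i) * (l.choose i : ℕ) := h1
    _ ≤ (2 * l * R) ^ (l - i) * 2 ^ l := mul_le_mul_of_nonneg_left h2 h4.le
    _ < (2 * l * R) ^ (l - i) * (2 ^ (l + 1)) ^ (l - i) := mul_lt_mul_of_pos_left h3 h4
    _ = (2 ^ (l + 2) * l * R) ^ (l - i) := by
        rw [← mul_pow]
        congr 1
        ring

end

theorem exists_poly (m l : ℕ) (hl : 2 ≤ l) : ∃ C : ℝ, 1 ≤ C ∧ ∀ (L K : Type) [Field L]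
    [NumberField L] [Field K] [NumberField K] [Algebra L K], finrank ℚ L = m →
    finrank L K = l → (∀ E : IntermediateField L K, E = ⊥ ∨ E = ⊤) →
    ∃ f ∈ polys L l (C * |(discr K : ℝ)| ^ (1 / (2 * (m : ℝ) * ((l : ℝ) - 1)))),
      ∃ x : K, IntermediateField.adjoin L {x} = ⊤ ∧ aeval x f = 0 := by
  have hl1 : (1 : ℝ) ≤ l := by
    have : 1 ≤ l := by omega
    exact_mod_cast this
  refine ⟨2 ^ (l + 2) * l * 12 ^ (m * l + 1), ?_, ?_⟩
  · have h1 : (1 : ℝ) ≤ 2 ^ (l + 2) := one_le_pow₀ (by norm_num)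
    have h2 : (1 : ℝ) ≤ 12 ^ (m * l + 1) := one_le_pow₀ (by norm_num)
    exact one_le_mul_of_one_le_of_one_le (one_le_mul_of_one_le_of_one_le h1 hl1) h2
  intro L K _ _ _ _ _ hL hK hE
  obtain ⟨a, ha, hna⟩ := exists_outside L K (by rw [hK]; exact hl)
  have hN : finrank ℚ K = m * l := by
    rw [← finrank_mul_finrank ℚ L K, hL, hK]
  have hexp : (1 : ℝ) / (2 * ((finrank ℚ K : ℝ) - finrank ℚ L)) =
      1 / (2 * (m : ℝ) * ((l : ℝ) - 1)) := by
    rw [hN, hL]
    push_cast
    congr 1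
    ring
  rw [hexp, hN] at ha
  set R : ℝ := 12 ^ (m * l + 1) * |(discr K : ℝ)| ^ (1 / (2 * (m : ℝ) * ((l : ℝ) - 1))) with hR
  have hD : (0 : ℝ) < |(discr K : ℝ)| := by
    apply abs_pos.2
    exact_mod_cast NumberField.discr_ne_zero K
  have hR0 : 0 < R := by positivity
  set x : K := tz L (a : K) with hx
  have hint : IsIntegral (𝓞 L) x := isIntegral_tz a.isIntegral_coe
  have hadj : IntermediateField.adjoin L {x} = ⊤ := by
    rcases hE (IntermediateField.adjoin L {x}) with h | h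
    · exfalso
      have h1 := IntermediateField.adjoin_simple_eq_bot_iff.1 h
      rw [IntermediateField.mem_bot] at h1
      exact tz_notMem (by rw [hK]; omega) hna h1
    · exact h
  have hdeg : (minpoly L x).natDegree = l := by
    rw [← IntermediateField.adjoin.finrank (Algebra.IsIntegral.isIntegral x), hadj,
      IntermediateField.finrank_top', hK]
  have hmap : minpoly L x = (minpoly (𝓞 L) x).map (algebraMap (𝓞 L) L) :=
    minpoly.isIntegrallyClosed_eq_field_fractions' L hint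
  have hmon : (minpoly (𝓞 L) x).Monic := minpoly.monic hint
  have hdeg' : (minpoly (𝓞 L) x).natDegree = l := by
    rw [← hdeg, hmap, hmon.natDegree_map]
  have hcoef : ∀ i, (((minpoly (𝓞 L) x).coeff i : 𝓞 L) : L) = (minpoly L x).coeff i := by
    intro i
    rw [hmap, coeff_map]
  refine ⟨minpoly (𝓞 L) x, ⟨hmon, hdeg', ?_, ?_⟩, x, hadj, minpoly.aeval _ _⟩
  · have h1 := trace_eq_finrank_mul_minpoly_nextCoeff L x
    rw [hx, trace_tz, ← hx, hadj, IntermediateField.finrank_top, Nat.cast_one, one_mul,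
      nextCoeff_of_natDegree_pos (by rw [hdeg]; omega), hdeg] at h1
    have h2 : (minpoly L x).coeff (l - 1) = 0 := by
      rw [← neg_eq_zero]
      exact h1.symm
    rw [← hcoef] at h2
    exact_mod_cast h2
  · intro i hi w
    rw [hcoef, ← InfinitePlace.norm_embedding_eq]
    have h3 := coeff_lt hR0 ha hK hdeg w.embedding hi
    have h4 : 2 ^ (l + 2) * (l : ℝ) * 12 ^ (m * l + 1) *
        |(discr K : ℝ)| ^ (1 / (2 * (m : ℝ) * ((l : ℝ) - 1))) = 2 ^ (l + 2) * l * R := by
      rw [hR]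
      ring
    rw [h4]
    exact h3

end Pool.Agent.AA
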