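import Pool.Agent.AA.Cell

/-! P5. Counting the monic polynomials with small coefficients -/

set_option autoImplicit false

open Polynomial NumberField IntermediateField Module

namespace Pool.Agent.AA

section

variable (L : Type) [Field L] [NumberField L] (l : ℕ) (B : ℝ)

private theorem pc_maps : Set.MapsTo (fun (f : (𝓞 L)[X]) (i : Fin (l - 1)) => f.coeff i)
    (polys L l B)
    (Fintype.piFinset fun i : Fin (l - 1) => (small_finite L (B ^ (l - (i : ℕ)))).toFinset :
      Finset (Fin (l - 1) → 𝓞 L)) := by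
  intro f hf
  rw [Finset.mem_coe, Fintype.mem_piFinset]
  intro i
  rw [Set.Finite.mem_toFinset]
  exact hf.2.2.2 i (by omega)

private theorem pc_inj (hl : 2 ≤ l) :
    Set.InjOn (fun (f : (𝓞 L)[X]) (i : Fin (l - 1)) => f.coeff i) (polys L l B) := by
  intro f hf g hg hfg
  ext1 i
  rcases lt_trichotomy i (l - 1) with h | h | h
  · exact congrFun hfg ⟨i, h⟩
  · rw [h, hf.2.2.1, hg.2.2.1]
  · rcases (show l ≤ i by omega).eq_or_lt with h' | h'
    · have h1 : f.coeff i = 1 := by
        rw [← h', ← hf.2.1]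
        exact hf.1.coeff_natDegree
      have h2 : g.coeff i = 1 := by
        rw [← h', ← hg.2.1]
        exact hg.1.coeff_natDegree
      rw [h1, h2]
    · rw [coeff_eq_zero_of_natDegree_lt (hf.2.1.trans_lt h'),
        coeff_eq_zero_of_natDegree_lt (hg.2.1.trans_lt h')]

end

theorem polys_finite (L : Type) [Field L] [NumberField L] (l : ℕ) (hl : 2 ≤ l) (B : ℝ) :
    (polys L l B).Finite :=
  Set.Finite.of_injOn (pc_maps L l B) (pc_inj L l B hl) (Finset.finite_toSet _)

private theorem pc_sum (m : ℕ) :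
    ((∑ i ∈ Finset.range (m + 1), (m + 2 - i) : ℕ) : ℝ) = ((m : ℝ) + 4) * ((m : ℝ) + 1) / 2 := by
  have h1 : ∑ i ∈ Finset.range (m + 1), (m + 2 - i) = ∑ j ∈ Finset.range (m + 1), (j + 2) := by
    rw [← Finset.sum_range_reflect]
    refine Finset.sum_congr rfl fun i hi => ?_
    rw [Finset.mem_range] at hi
    omega
  rw [h1]
  induction m with
  | zero => norm_num
  | succ m ih =>
    have h2 : ∑ i ∈ Finset.range (m + 1), (m + 2 - i) = ∑ j ∈ Finset.range (m + 1), (j + 2) := by
      rw [← Finset.sum_range_reflect]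
      refine Finset.sum_congr rfl fun i hi => ?_
      rw [Finset.mem_range] at hi
      omega
    rw [Finset.sum_range_succ]
    push_cast at ih ⊢
    rw [ih (by exact_mod_cast h2)]
    ring

theorem card_polys_le (L : Type) [Field L] [NumberField L] (l : ℕ) (hl : 2 ≤ l) (B : ℝ)
    (hB : 1 ≤ B) : ((polys L l B).ncard : ℝ) ≤
      6 ^ (finrank ℚ L * l) * B ^ ((finrank ℚ L : ℝ) * ((l : ℝ) + 2) * ((l : ℝ) - 1) / 2) := by
  set N := finrank ℚ L with hN
  have hB0 : 0 < B := zero_lt_one.trans_le hB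
  have h1 : (polys L l B).ncard ≤ ∏ i : Fin (l - 1), (small L (B ^ (l - (i : ℕ)))).ncard := by
    have h2 := Set.ncard_le_ncard_of_injOn _ (pc_maps L l B) (pc_inj L l B hl)
      (Finset.finite_toSet _)
    rw [Set.ncard_coe_finset, Fintype.card_piFinset] at h2
    refine h2.trans (le_of_eq (Finset.prod_congr rfl fun i _ => ?_))
    rw [Set.ncard_eq_toFinset_card _ (small_finite L _)]
  have h2 : ((polys L l B).ncard : ℝ) ≤
      ∏ i : Fin (l - 1), (6 * B ^ (l - (i : ℕ))) ^ N := by
    refine (Nat.cast_le.2 h1).trans ?_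
    rw [Nat.cast_prod]
    exact Finset.prod_le_prod (fun i _ => Nat.cast_nonneg _) fun i _ =>
      card_small_le L _ (one_le_pow₀ hB)
  refine h2.trans ?_
  rw [Fin.prod_univ_eq_prod_range (fun i => (6 * B ^ (l - i)) ^ N), Finset.prod_pow,
    Finset.prod_mul_distrib, Finset.prod_const, Finset.card_range, Finset.prod_pow_eq_pow_sum,
    mul_pow, ← pow_mul, ← pow_mul]
  obtain ⟨m, rfl⟩ := Nat.exists_eq_add_of_le' hl
  have h3 : m + 2 - 1 = m + 1 := by omega
  rw [h3]
  have h4 : B ^ ((N : ℝ) * (((m + 2 : ℕ) : ℝ) + 2) * (((m + 2 : ℕ) : ℝ) - 1) / 2) =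
      B ^ ((∑ i ∈ Finset.range (m + 1), (m + 2 - i)) * N) := by
    rw [← Real.rpow_natCast]
    congr 1
    rw [Nat.cast_mul, pc_sum]
    push_cast
    ring
  rw [h4]
  refine mul_le_mul_of_nonneg_right ?_ (by positivity)
  refine pow_le_pow_right₀ (by norm_num) ?_
  nlinarith [Nat.zero_le N]

end Pool.Agent.AA
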