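import Pool.Agent.AA.Poly
import Pool.Agent.AA.PolyCount
import Mathlib.Data.Set.Card.Arithmetic

/-!
# The number of minimal extensions with bounded discriminant
-/

set_option autoImplicit false

open Polynomial NumberField IntermediateField Module

namespace Pool.Agent.AA

private lemma bunion {ι α : Type} {S : Set ι} (hS : S.Finite) {f : ι → Set α} {a b : ℝ}
    (hb : 0 ≤ b) (hf : ∀ i ∈ S, (f i).Finite ∧ ((f i).ncard : ℝ) ≤ b) (ha : (S.ncard : ℝ) ≤ a) :
    (⋃ i ∈ S, f i).Finite ∧ ((⋃ i ∈ S, f i).ncard : ℝ) ≤ a * b := by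
  refine ⟨hS.biUnion fun i hi => (hf i hi).1, ?_⟩
  have h1 := hS.toFinset.set_ncard_biUnion_le f
  simp only [Set.Finite.mem_toFinset] at h1
  calc ((⋃ i ∈ S, f i).ncard : ℝ) ≤ ((∑ i ∈ hS.toFinset, (f i).ncard : ℕ) : ℝ) := by
        exact_mod_cast h1
    _ = ∑ i ∈ hS.toFinset, ((f i).ncard : ℝ) := by push_cast; rfl
    _ ≤ ∑ i ∈ hS.toFinset, b :=
        Finset.sum_le_sum fun i hi => (hf i (hS.mem_toFinset.1 hi)).2
    _ = (S.ncard : ℝ) * b := by
        rw [Finset.sum_const, nsmul_eq_mul, Set.ncard_eq_toFinset_card S hS]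
    _ ≤ a * b := mul_le_mul_of_nonneg_right ha hb

private lemma polys_mono (L : Type) [Field L] [NumberField L] (l : ℕ) {b B : ℝ} (hb : 0 ≤ b)
    (h : b ≤ B) : polys L l b ⊆ polys L l B := by
  rintro f ⟨h1, h2, h3, h4⟩
  exact ⟨h1, h2, h3, fun i hi w => (h4 i hi w).trans_le (pow_le_pow_left₀ hb h _)⟩

private lemma field_of_poly {L Ω : Type} [Field L] [NumberField L] [Field Ω] [Algebra L Ω]
    {m l : ℕ} {C : ℝ} (hC : 1 ≤ C) (h : ∀ (L K : Type) [Field L]
    [NumberField L] [Field K] [NumberField K] [Algebra L K], finrank ℚ L = m →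
    finrank L K = l → (∀ E : IntermediateField L K, E = ⊥ ∨ E = ⊤) →
    ∃ f ∈ polys L l (C * |(discr K : ℝ)| ^ (1 / (2 * (m : ℝ) * ((l : ℝ) - 1)))),
      ∃ x : K, IntermediateField.adjoin L {x} = ⊤ ∧ aeval x f = 0) (hL : finrank ℚ L = m)
    (hl : 2 ≤ l) {Y : ℝ} {F : IntermediateField L Ω} (hF : finrank L F = l)
    (hmin : ∀ E : IntermediateField L Ω, E ≤ F → E = ⊥ ∨ E = F) (hNF : NumberField F)
    (hY : |(discr F : ℝ)| ≤ Y) :
    ∃ f ∈ polys L l (C * Y ^ (1 / (2 * (m : ℝ) * ((l : ℝ) - 1)))),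
      ∃ x : Ω, IntermediateField.adjoin L {x} = F ∧ aeval x f = 0 := by
  have hmin' : ∀ E : IntermediateField L F, E = ⊥ ∨ E = ⊤ := by
    intro E
    rcases hmin (IntermediateField.lift E) (IntermediateField.lift_le E) with h1 | h1
    · left
      rw [← IntermediateField.lift_inj E ⊥, h1, IntermediateField.lift_bot]
    · right
      rw [← IntermediateField.lift_inj E ⊤, h1, IntermediateField.lift_top]
  obtain ⟨f, hf, x, hx, hfx⟩ := h L F hL hF hmin'
  have hl' : (2 : ℝ) ≤ l := by exact_mod_cast hl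
  refine ⟨f, polys_mono L l (by positivity) ?_ hf, x, ?_, ?_⟩
  · apply mul_le_mul_of_nonneg_left _ (by linarith)
    apply Real.rpow_le_rpow (abs_nonneg _) hY
    apply one_div_nonneg.2
    have : (0 : ℝ) ≤ (l : ℝ) - 1 := by linarith
    positivity
  · rw [← IntermediateField.lift_adjoin_simple, hx, IntermediateField.lift_top]
  · haveI : IsScalarTower (𝓞 L) F Ω := IsScalarTower.of_algebraMap_eq fun _ => rfl
    have h1 := congrArg (algebraMap F Ω) hfx
    rw [map_zero, ← aeval_algebraMap_apply] at h1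
    exact h1

theorem prim_count (m l : ℕ) (hm : 0 < m) (hl : 2 ≤ l) : ∃ C : ℝ, 1 ≤ C ∧ ∀ (L Ω : Type)
    [Field L] [NumberField L] [Field Ω] [Algebra L Ω], finrank ℚ L = m → ∀ Y : ℝ, 1 ≤ Y →
    {F : IntermediateField L Ω | finrank L F = l ∧
      (∀ E : IntermediateField L Ω, E ≤ F → E = ⊥ ∨ E = F) ∧
      ∃ _ : NumberField F, |(discr F : ℝ)| ≤ Y}.Finite ∧
    ({F : IntermediateField L Ω | finrank L F = l ∧
      (∀ E : IntermediateField L Ω, E ≤ F → E = ⊥ ∨ E = F) ∧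
      ∃ _ : NumberField F, |(discr F : ℝ)| ≤ Y}.ncard : ℝ) ≤ C * Y ^ (((l : ℝ) + 2) / 4) := by
  classical
  obtain ⟨C, hC, h⟩ := exists_poly m l hl
  have hl' : (2 : ℝ) ≤ l := by exact_mod_cast hl
  have hm' : (1 : ℝ) ≤ m := by exact_mod_cast hm
  have hexp : (0 : ℝ) ≤ (m : ℝ) * ((l : ℝ) + 2) * ((l : ℝ) - 1) / 2 := by
    have : (0 : ℝ) ≤ (l : ℝ) - 1 := by linarith
    positivity
  refine ⟨6 ^ (m * l) * C ^ ((m : ℝ) * ((l : ℝ) + 2) * ((l : ℝ) - 1) / 2) * l, ?_, ?_⟩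
  · have h1 : (1 : ℝ) ≤ 6 ^ (m * l) := one_le_pow₀ (by norm_num)
    have h2 : 1 ≤ C ^ ((m : ℝ) * ((l : ℝ) + 2) * ((l : ℝ) - 1) / 2) := Real.one_le_rpow hC hexp
    exact one_le_mul_of_one_le_of_one_le (one_le_mul_of_one_le_of_one_le h1 h2) (by linarith)
  intro L Ω _ _ _ _ hL Y hY
  have hY0 : 0 < Y := by linarith
  set B : ℝ := C * Y ^ (1 / (2 * (m : ℝ) * ((l : ℝ) - 1))) with hB
  have hB1 : 1 ≤ B := by
    refine one_le_mul_of_one_le_of_one_le hC (Real.one_le_rpow hY ?_)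
    apply one_div_nonneg.2
    have : (0 : ℝ) ≤ (l : ℝ) - 1 := by linarith
    positivity
  have hcard := card_polys_le L l hl B hB1
  rw [hL] at hcard
  have hpow : B ^ ((m : ℝ) * ((l : ℝ) + 2) * ((l : ℝ) - 1) / 2) =
      C ^ ((m : ℝ) * ((l : ℝ) + 2) * ((l : ℝ) - 1) / 2) * Y ^ (((l : ℝ) + 2) / 4) := by
    rw [hB, Real.mul_rpow (by linarith) (by positivity), ← Real.rpow_mul hY0.le]
    congr 2
    have h1 : (l : ℝ) - 1 ≠ 0 := by linarith
    have h2 : (m : ℝ) ≠ 0 := by linarith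
    field_simp
    ring
  have hU := bunion (f := fun f : (𝓞 L)[X] => (fun x : Ω => IntermediateField.adjoin L {x}) ''
    ((f.map (algebraMap (𝓞 L) Ω)).roots.toFinset : Set Ω)) (b := (l : ℝ))
    (polys_finite L l hl B) (by positivity) ?_ hcard
  · have hsub : {F : IntermediateField L Ω | finrank L F = l ∧
        (∀ E : IntermediateField L Ω, E ≤ F → E = ⊥ ∨ E = F) ∧
        ∃ _ : NumberField F, |(discr F : ℝ)| ≤ Y} ⊆
        ⋃ f ∈ polys L l B, (fun x : Ω => IntermediateField.adjoin L {x}) ''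
          ((f.map (algebraMap (𝓞 L) Ω)).roots.toFinset : Set Ω) := by
      rintro F ⟨hF, hmin, hNF, hYF⟩
      obtain ⟨f, hf, x, hx, hfx⟩ := field_of_poly hC h hL hl hF hmin hNF hYF
      refine Set.mem_biUnion hf ⟨x, ?_, hx⟩
      rw [Finset.mem_coe, Multiset.mem_toFinset, mem_roots', IsRoot, eval_map_algebraMap]
      exact ⟨(hf.1.map _).ne_zero, hfx⟩
    refine ⟨hU.1.subset hsub, ?_⟩
    calc _ ≤ ((⋃ f ∈ polys L l B, (fun x : Ω => IntermediateField.adjoin L {x}) ''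
          ((f.map (algebraMap (𝓞 L) Ω)).roots.toFinset : Set Ω)).ncard : ℝ) := by
          exact_mod_cast Set.ncard_le_ncard hsub hU.1
      _ ≤ _ := hU.2
      _ = _ := by
        rw [hpow]
        ring
  · intro f hf
    refine ⟨(Finset.finite_toSet _).image _, ?_⟩
    have h1 := Set.ncard_image_le (f := fun x : Ω => IntermediateField.adjoin L {x})
      (Finset.finite_toSet (f.map (algebraMap (𝓞 L) Ω)).roots.toFinset)
    rw [Set.ncard_coe_finset] at h1
    have h2 : (f.map (algebraMap (𝓞 L) Ω)).roots.toFinset.card ≤ l := by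
      refine (Multiset.toFinset_card_le _).trans ((card_roots' _).trans ?_)
      rw [hf.1.natDegree_map, hf.2.1]
    exact_mod_cast h1.trans h2

end Pool.Agent.AA
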