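import Pool.Agent.AA.ProdF

/-!
# The proximity to a divisor is at most the height of the divisor
-/

set_option autoImplicit false

open Polynomial NumberField IntermediateField Module

namespace Pool.Agent.AA

private theorem pow_den {K : Type} [Field K] [NumberField K] (x : K) (q : ℕ) (c : 𝓞 K)
    (hc : c ∈ (RefW.denIdealOf x) ^ q) (i : ℕ) (hi : i ≤ q) :
    IsIntegral ℤ (x ^ i * (c : K)) := by
  induction q generalizing c i with
  | zero =>
    obtain rfl : i = 0 := by omega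
    rw [pow_zero, one_mul]
    exact RingOfIntegers.isIntegral_coe c
  | succ q ih =>
    rw [pow_succ'] at hc
    induction hc using Submodule.mul_induction_on' with
    | mem_mul_mem d hd e he =>
      obtain ⟨t, ht⟩ := hd
      cases i with
      | zero =>
        rw [pow_zero, one_mul]
        exact RingOfIntegers.isIntegral_coe (d * e)
      | succ i =>
        have h1 := ih e he i (by omega)
        have e1 : ((d * e : 𝓞 K) : K) = (d : K) * (e : K) := rfl
        have h2 : x ^ (i + 1) * ((d * e : 𝓞 K) : K) = (t : K) * (x ^ i * (e : K)) := by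
          rw [ht, e1]
          ring
        rw [h2]
        exact (RingOfIntegers.isIntegral_coe t).mul h1
    | add m hm m' hm' h1 h2 =>
      have e1 : ((m + m' : 𝓞 K) : K) = (m : K) + (m' : K) := rfl
      rw [e1, mul_add]
      exact h1.add h2

private theorem exists_den {k : Type} [Field k] [NumberField k] (g : k[X]) :
    ∃ b : ℤ, b ≠ 0 ∧ ∀ i, IsIntegral ℤ ((b : k) * g.coeff i) := by
  classical
  have h1 : ∀ c : k, ∃ y : ℤ, y ≠ 0 ∧ IsIntegral ℤ ((y : k) * c) := by
    intro c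
    have h2 : IsAlgebraic ℤ c := (IsFractionRing.isAlgebraic_iff ℤ ℚ k).2
      (Algebra.IsAlgebraic.isAlgebraic c)
    obtain ⟨y, hy, hy'⟩ := h2.exists_integral_multiple
    refine ⟨y, hy, ?_⟩
    rwa [zsmul_eq_mul] at hy'
  choose f hf0 hf using h1
  refine ⟨∏ i ∈ Finset.range (g.natDegree + 1), f (g.coeff i),
    Finset.prod_ne_zero_iff.2 fun i _ => hf0 _, ?_⟩
  intro i
  by_cases hi : i ∈ Finset.range (g.natDegree + 1)
  · rw [← Finset.mul_prod_erase _ _ hi, Int.cast_mul]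
    have h2 := hf (g.coeff i)
    have h3 : IsIntegral ℤ
        (((∏ j ∈ (Finset.range (g.natDegree + 1)).erase i, f (g.coeff j) : ℤ)) : k) :=
      isIntegral_algebraMap
    have h4 := h3.mul h2
    rw [mul_left_comm, ← mul_assoc] at h4
    exact h4
  · have h2 : g.coeff i = 0 := by
      apply coeff_eq_zero_of_natDegree_lt
      rw [Finset.mem_range] at hi
      omega
    rw [h2, mul_zero]
    exact isIntegral_zero

private theorem sum_lam {K : Type} [Field K] [NumberField K] (A : Type) [NormedField A]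
    [CharZero A] [IsAlgClosed A] (x y : K) (b : ℤ) (hb : b ≠ 0) (hy : y ≠ 0) (q : ℕ) :
    ∑ σ : K →+* A, -Real.log (‖σ y‖ / max 1 ‖σ x‖ ^ q) =
      -Real.log ‖((Algebra.norm ℚ ((b : K) * y) : ℚ) : A)‖ +
      finrank ℚ K * Real.log ‖(b : A)‖ +
      q * Real.log (∏ σ : K →+* A, max 1 ‖σ x‖) := by
  have hbK : (b : K) ≠ 0 := by exact_mod_cast hb
  have hbA : 0 < ‖(b : A)‖ := by
    rw [norm_pos_iff]
    exact_mod_cast hb
  have hcard : Fintype.card (K →+* A) = finrank ℚ K := Embeddings.card K A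
  have h0 : (finrank ℚ K : ℝ) * Real.log ‖(b : A)‖ = ∑ _σ : K →+* A, Real.log ‖(b : A)‖ := by
    rw [Finset.sum_const, Finset.card_univ, hcard, nsmul_eq_mul]
  rw [← prod_embeddings_eq A ((b : K) * y), Real.log_prod, Real.log_prod, h0, Finset.mul_sum,
    ← Finset.sum_neg_distrib, ← Finset.sum_add_distrib, ← Finset.sum_add_distrib]
  · refine Finset.sum_congr rfl fun σ _ => ?_
    have h1 : 0 < ‖σ y‖ := norm_pos_iff.2 ((map_ne_zero σ).2 hy)
    have h2 : 0 < max 1 ‖σ x‖ := lt_of_lt_of_le one_pos (le_max_left _ _)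
    rw [Real.log_div h1.ne' (by positivity), Real.log_pow, map_mul, map_intCast, norm_mul,
      Real.log_mul hbA.ne' h1.ne']
    ring
  · intro σ _
    exact (lt_of_lt_of_le one_pos (le_max_left _ _)).ne'
  · intro σ _
    rw [norm_ne_zero_iff, Ne, map_eq_zero]
    exact mul_ne_zero hbK hy

/-- the proximity function is at most the height -/
theorem prox_first (k : Type) [Field k] [NumberField k] {r : ℕ} (p : Fin r → ℕ)
    [∀ t, Fact (p t).Prime] (hp : Function.Injective p) (g : k[X]) (q : ℕ)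
    (hq : g.natDegree ≤ q) : ∃ C : ℝ, 0 ≤ C ∧ ∀ (K : Type) [Field K] [NumberField K] [Algebra k K]
      (x : K), aeval x g ≠ 0 → SST.proxK p g q K x ≤ q * SST.ht K x + C := by
  classical
  obtain ⟨b, hb0, hb⟩ := exists_den g
  refine ⟨Real.log |(b : ℝ)|, Real.log_nonneg (by exact_mod_cast Int.one_le_abs hb0), ?_⟩
  intro K _ _ _ x hx
  set y : K := aeval x g with hy
  have hbK : (b : K) ≠ 0 := by exact_mod_cast hb0
  set w : ℚ := Algebra.norm ℚ ((b : K) * y) with hw
  have hw0 : w ≠ 0 := by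
    rw [hw, Algebra.norm_ne_zero_iff]
    exact mul_ne_zero hbK hx
  obtain ⟨ha0, ha⟩ := RefW.denIdeal_norm_le x
  set a : ℕ := Ideal.absNorm (RefW.denIdealOf x) with hadef
  have ha1 : a ≠ 0 := by rw [hadef, Ne, Ideal.absNorm_eq_zero_iff]; exact ha0
  -- an integer
  obtain ⟨j, hj⟩ : ∃ j : ℤ, (j : ℚ) = w * (((a ^ q : ℕ) : ℤ) : ℚ) := by
    have h1 := norm_induction (RefW.denIdealOf x ^ q)
      (fun m => ∃ j : ℤ, (j : ℚ) = w * (m : ℚ)) ⟨0, by simp⟩ ?_ ?_ ?_
    · rwa [map_pow] at h1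
    · rintro m n ⟨i, hi⟩ ⟨j, hj⟩
      refine ⟨i + j, ?_⟩
      push_cast
      rw [hi, hj]
      ring
    · rintro m n ⟨i, hi⟩
      refine ⟨m * i, ?_⟩
      push_cast
      rw [hi]
      ring
    · intro c hc
      have h2 : IsIntegral ℤ ((b : K) * y * (c : K)) := by
        have h3 : (b : K) * y * (c : K) = ∑ i ∈ Finset.range (g.natDegree + 1),
            algebraMap k K ((b : k) * g.coeff i) * (x ^ i * (c : K)) := by
          rw [hy, aeval_eq_sum_range, Finset.mul_sum, Finset.sum_mul]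
          refine Finset.sum_congr rfl fun i _ => ?_
          rw [Algebra.smul_def, map_mul, map_intCast]
          ring
        rw [h3]
        refine IsIntegral.sum _ fun i hi => ?_
        have h4 := Finset.mem_range.1 hi
        exact ((hb i).map (IsScalarTower.toAlgHom ℤ k K)).mul
          (pow_den x q c hc i (by omega))
      obtain ⟨s, hs⟩ : ∃ s : 𝓞 K, (s : K) = (b : K) * y * (c : K) := ⟨⟨_, h2⟩, rfl⟩
      refine ⟨Algebra.norm ℤ s, ?_⟩
      rw [Algebra.coe_norm_int, Algebra.coe_norm_int, hw, ← map_mul, hs]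
  have hjne : j ≠ 0 := by
    intro h
    rw [h, Int.cast_zero] at hj
    have h1 : (((a ^ q : ℕ) : ℤ) : ℚ) ≠ 0 := by
      have := pow_ne_zero q ha1
      exact_mod_cast this
    exact mul_ne_zero hw0 h1 hj.symm
  have hjA : ∀ (A : Type) [NormedField A] [CharZero A],
      ‖(j : A)‖ = ‖(w : A)‖ * ‖((a : ℤ) : A)‖ ^ q := by
    intro A _ _
    have h1 : (((j : ℤ) : ℚ) : A) = ((w * (((a ^ q : ℕ) : ℤ) : ℚ) : ℚ) : A) := by rw [hj]
    push_cast at h1
    rw [h1, norm_mul, norm_pow]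
    push_cast
    ring
  have hprod := SST.sk_prod_ge p hp j hjne
  have hj0 : 0 < |(j : ℝ)| := by
    rw [abs_pos]
    exact_mod_cast hjne
  have hjt : ∀ t, 0 < ‖(j : ℚ_[p t])‖ := by
    intro t
    rw [norm_pos_iff]
    exact_mod_cast hjne
  have hlog : 0 ≤ Real.log |(j : ℝ)| + ∑ t, Real.log ‖(j : ℚ_[p t])‖ := by
    rw [← Real.log_prod fun t _ => (hjt t).ne',
      ← Real.log_mul hj0.ne' (Finset.prod_pos fun t _ => hjt t).ne']
    exact Real.log_nonneg hprod
  have hX : ∀ (A : Type) [NormedField A] [CharZero A] [IsAlgClosed A],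
      0 < ∏ σ : K →+* A, max 1 ‖σ x‖ := fun A _ _ _ =>
    Finset.prod_pos fun σ _ => lt_of_lt_of_le one_pos (le_max_left _ _)
  have hwA : ∀ (A : Type) [NormedField A] [CharZero A], 0 < ‖(w : A)‖ := by
    intro A _ _
    rw [norm_pos_iff]
    exact_mod_cast hw0
  have haA : ∀ (A : Type) [NormedField A] [CharZero A], 0 < ‖((a : ℤ) : A)‖ := by
    intro A _ _
    rw [norm_pos_iff]
    exact_mod_cast ha1
  have hN0 : (0 : ℝ) < finrank ℚ K := Nat.cast_pos.2 finrank_pos
  -- the infinite part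
  have i1 : Real.log (∏ σ : K →+* ℂ, max 1 ‖σ x‖) ≤ finrank ℚ K * SST.ht K x -
        Real.log ‖((a : ℤ) : ℂ)‖ := by
    have h1 : (0 : ℝ) < a := Nat.cast_pos.2 (Nat.pos_of_ne_zero ha1)
    have h2 := Real.log_le_log (mul_pos h1 (hX ℂ)) ha
    rw [Real.log_mul h1.ne' (hX ℂ).ne'] at h2
    rw [SST.ht, mul_div_cancel₀ _ hN0.ne', Height.logHeight₁, Int.cast_natCast,
      Complex.norm_natCast]
    linarith
  have hfin : ∀ t, Real.log (∏ σ : K →+* ℂ_[p t], max 1 ‖σ x‖) ≤
      -Real.log ‖((a : ℤ) : ℂ_[p t])‖ := by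
    intro t
    have h1 := haA ℂ_[p t]
    have h2 := Real.log_le_log (mul_pos h1 (hX ℂ_[p t])) (denIdeal_padic (p t) x)
    rw [Real.log_mul h1.ne' (hX ℂ_[p t]).ne', Real.log_one] at h2
    linarith
  have i3 : Real.log |(j : ℝ)| = Real.log ‖(w : ℂ)‖ + q * Real.log ‖((a : ℤ) : ℂ)‖ := by
    rw [← Complex.norm_intCast, hjA ℂ, Real.log_mul (hwA ℂ).ne' (pow_pos (haA ℂ) q).ne',
      Real.log_pow]
  have hq0 : (0 : ℝ) ≤ q := Nat.cast_nonneg q
  have i4 : ∀ t, ∑ σ : K →+* ℂ_[p t], -Real.log (‖σ y‖ / max 1 ‖σ x‖ ^ q) ≤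
      -Real.log ‖(j : ℚ_[p t])‖ := by
    intro t
    have h1 : Real.log ‖(j : ℚ_[p t])‖ = Real.log ‖(w : ℂ_[p t])‖ +
        q * Real.log ‖((a : ℤ) : ℂ_[p t])‖ := by
      rw [← padic_norm_int, hjA ℂ_[p t], Real.log_mul
        (hwA ℂ_[p t]).ne' (pow_pos (haA ℂ_[p t]) q).ne', Real.log_pow]
    have h2 := mul_le_mul_of_nonneg_left (hfin t) hq0
    have h3 : (finrank ℚ K : ℝ) * Real.log ‖(b : ℂ_[p t])‖ ≤ 0 := by
      apply mul_nonpos_of_nonneg_of_nonpos hN0.le
      rw [padic_norm_int]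
      exact Real.log_nonpos (norm_nonneg _) (Padic.norm_int_le_one b)
    rw [sum_lam ℂ_[p t] x y b hb0 hx q, h1, ← hw]
    linarith
  have i5 := Finset.sum_le_sum fun t (_ : t ∈ Finset.univ) => i4 t
  rw [Finset.sum_neg_distrib] at i5
  have i6 := mul_le_mul_of_nonneg_left i1 hq0
  have i7 : Real.log ‖(b : ℂ)‖ = Real.log |(b : ℝ)| := by rw [Complex.norm_intCast]
  unfold SST.proxK
  rw [div_le_iff₀ hN0, ← hy, sum_lam ℂ x y b hb0 hx q, ← hw, i7]
  nlinarith

end Pool.Agent.AA
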