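import Mathlib.NumberTheory.NumberField.Discriminant.Different
import Pool.Agent.AA.Defs2

/-!
# Discriminants in towers
-/

set_option autoImplicit false

open Polynomial NumberField IntermediateField Module

namespace Pool.Agent.AA

theorem discr_pow_le (L K : Type) [Field L] [NumberField L] [Field K] [NumberField K]
    [Algebra L K] : |(discr L : ℝ)| ^ finrank L K ≤ |(discr K : ℝ)| := by
  have h := natAbs_discr_eq_absNorm_differentIdeal_mul_natAbs_discr_pow L (𝓞 L) K (𝓞 K)
  have h0 : Ideal.absNorm (differentIdeal (𝓞 L) (𝓞 K)) ≠ 0 := by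
    intro h1
    rw [h1, zero_mul, Int.natAbs_eq_zero] at h
    exact discr_ne_zero K h
  have h1 : (discr L).natAbs ^ finrank L K ≤ (discr K).natAbs := by
    rw [h]
    exact Nat.le_mul_of_pos_left _ (Nat.pos_of_ne_zero h0)
  have e : ∀ z : ℤ, |(z : ℝ)| = (z.natAbs : ℝ) := by
    intro z
    rw [Nat.cast_natAbs, Int.cast_abs]
  rw [e, e]
  exact_mod_cast h1

end Pool.Agent.AA
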