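import Pool.Agent.AA.Upper
import Pool.Agent.AA.Prox

/-!
# The number of all violators

The violators near the divisor are counted by their number, the others by the number of the fields.
-/

set_option autoImplicit false

open Polynomial NumberField IntermediateField Module

namespace Pool.Agent.AA

open UpperAux in
/-- the violators of bounded height are finite in number -/
theorem viol_small (k : Type) [Field k] [NumberField k] {r : ℕ} (p : Fin r → ℕ)
    [∀ t, Fact (p t).Prime] (hp : Function.Injective p) (g : k[X]) (q : ℕ)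
    (hq : g.natDegree ≤ q) (n : ℕ) (hn : 2 ≤ n) (ε : ℝ) (hε : 0 < ε) (T : ℝ) :
    {x : AlgebraicClosure k | finrank k (IntermediateField.adjoin k {x}) = n ∧ aeval x g ≠ 0 ∧
      logDiscr x + ε * height x < proximity p g q x - 2 * height x ∧ height x ≤ T}.Finite := by
  classical
  set Ω := AlgebraicClosure k
  obtain ⟨C₁, hC₁, hfield⟩ := field_count k Ω n hn
  obtain ⟨C, hC0, hC⟩ := prox_first k p hp g q hq
  set N : ℕ := finrank ℚ k * n with hN
  have hNr : (0 : ℝ) < N := Nat.cast_pos.2 (Nat.mul_pos finrank_pos (by omega))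
  set Y₀ : ℝ := Real.exp (N * (q * |T| + C)) with hY₀
  have hY₀1 : 1 ≤ Y₀ := by
    rw [hY₀]
    apply Real.one_le_exp
    positivity
  have h1 := (hfield Y₀ hY₀1).1
  refine Set.Finite.of_finite_fibers (fun x : Ω => IntermediateField.adjoin k {x})
    (h1.subset ?_) ?_
  · rintro _ ⟨x, ⟨hx1, hx2, hx3, hx4⟩, rfl⟩
    refine ⟨hx1, instNumberFieldAdjoin k x, ?_⟩
    rw [discr_eq, finrank_eq _ n hx1, ← hN, hY₀]
    apply Real.exp_le_exp.2
    refine mul_le_mul_of_nonneg_left ?_ hNr.le
    have hh := height_nonneg x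
    have h2 : proximity p g q x ≤ q * height x + C := by
      apply hC
      intro h
      apply hx2
      have h3 : ((aeval (AdjoinSimple.gen k x) g : IntermediateField.adjoin k {x}) : Ω) = 0 := by
        rw [h]
        rfl
      rw [← IntermediateField.aeval_coe, AdjoinSimple.coe_gen] at h3
      exact h3
    have h3 : (q : ℝ) * height x ≤ q * |T| :=
      mul_le_mul_of_nonneg_left (hx4.trans (le_abs_self T)) (Nat.cast_nonneg q)
    have h4 : 0 ≤ ε * height x := mul_nonneg hε.le hh
    change logDiscr x ≤ _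
    linarith
  · rintro F ⟨x₀, ⟨hx₀, _⟩, rfl⟩
    have h2 : {y : IntermediateField.adjoin k {x₀} | Height.logHeight₁ y ≤ N * T}.Finite :=
      Northcott.finite_le _
    refine (h2.image (fun y : IntermediateField.adjoin k {x₀} => (y : Ω))).subset ?_
    rintro x ⟨⟨hx1, hx2, hx3, hx4⟩, hx6⟩
    obtain ⟨y, hy, hy1, hy2, hy3⟩ := transfer p g q _ x hx6
    refine ⟨y, ?_, hy⟩
    change Height.logHeight₁ y ≤ N * T
    rw [hy1, SST.ht, div_le_iff₀ (Nat.cast_pos.2 finrank_pos), finrank_eq _ n hx₀, ← hN] at hx4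
    linarith

/-- the exponent of the number of the violators -/
noncomputable def violExp (q n : ℕ) : ℝ :=
  max 0 (min ((q : ℝ) - 2) (4 * ((n : ℝ) - 1) / (n + 6))) * ((n : ℝ) + 2) / 4

/-- the number of all violators, given the number of the points near the divisor -/
theorem violators (k : Type) [Field k] [NumberField k] {r : ℕ} (p : Fin r → ℕ)
    [∀ t, Fact (p t).Prime] (hp : Function.Injective p) (g : k[X]) (hg : Squarefree g) (q : ℕ)
    (hq : q = g.natDegree ∨ q = g.natDegree + 1) (n : ℕ) (hn : 2 ≤ n)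
    (hnear : ∀ a η : ℝ, a ≤ q → 0 < η → ∃ C : ℝ, ∀ B : ℝ, 1 ≤ B →
      {x : AlgebraicClosure k | finrank k (IntermediateField.adjoin k {x}) = n ∧
        relHeight x ≤ B ∧ aeval x g ≠ 0 ∧ a * height x ≤ proximity p g q x}.Finite ∧
      ({x : AlgebraicClosure k | finrank k (IntermediateField.adjoin k {x}) = n ∧
        relHeight x ≤ B ∧ aeval x g ≠ 0 ∧ a * height x ≤ proximity p g q x}.ncard : ℝ) ≤
        C * B ^ ((n : ℝ) + 1 - a + η))
    (ε η : ℝ) (hε : 0 < ε) (hη : 0 < η) : ∃ C : ℝ, ∀ B : ℝ, 1 ≤ B →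
    {x : AlgebraicClosure k | finrank k (IntermediateField.adjoin k {x}) = n ∧
      relHeight x ≤ B ∧ aeval x g ≠ 0 ∧
      logDiscr x + ε * height x < proximity p g q x - 2 * height x}.Finite ∧
    ({x : AlgebraicClosure k | finrank k (IntermediateField.adjoin k {x}) = n ∧
      relHeight x ≤ B ∧ aeval x g ≠ 0 ∧
      logDiscr x + ε * height x < proximity p g q x - 2 * height x}.ncard : ℝ) ≤
      C * B ^ (violExp q n + η) := by
  classical
  set Ω := AlgebraicClosure k
  set V : ℝ → Set Ω := fun B => {x : Ω | finrank k (IntermediateField.adjoin k {x}) = n ∧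
      relHeight x ≤ B ∧ aeval x g ≠ 0 ∧
      logDiscr x + ε * height x < proximity p g q x - 2 * height x} with hV
  have hnr : (2 : ℝ) ≤ n := by exact_mod_cast hn
  set M : ℝ := max 0 (min ((q : ℝ) - 2) (4 * ((n : ℝ) - 1) / (n + 6))) with hM
  have hM0 : 0 ≤ M := le_max_left _ _
  have hexp : violExp q n = M * ((n : ℝ) + 2) / 4 := rfl
  rw [hexp]
  -- it is enough to count the violators near the divisor
  have key : ∀ β : ℝ, 0 < β → β * ((n : ℝ) + 2) / 4 ≤ M * ((n : ℝ) + 2) / 4 + η →
      (∃ C : ℝ, ∀ B : ℝ, 1 ≤ B → (V B ∩ {x | (2 + β) * height x < proximity p g q x}).Finite ∧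
        ((V B ∩ {x | (2 + β) * height x < proximity p g q x}).ncard : ℝ) ≤
          C * B ^ (M * ((n : ℝ) + 2) / 4 + η)) →
      ∃ C : ℝ, ∀ B : ℝ, 1 ≤ B → (V B).Finite ∧
        ((V B).ncard : ℝ) ≤ C * B ^ (M * ((n : ℝ) + 2) / 4 + η) := by
    rintro β hβ hβ' ⟨C₁, h1⟩
    obtain ⟨C₂, h2⟩ := upper k p hp g hg q hq n hn ε β hε hβ
    refine ⟨C₁ + |C₂|, ?_⟩
    intro B hB
    obtain ⟨a1, a2⟩ := h1 B hB
    obtain ⟨b1, b2⟩ := h2 B hB
    have hsub : V B ⊆ (V B ∩ {x | (2 + β) * height x < proximity p g q x}) ∪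
        {x : AlgebraicClosure k | finrank k (IntermediateField.adjoin k {x}) = n ∧
      relHeight x ≤ B ∧ aeval x g ≠ 0 ∧ proximity p g q x ≤ (2 + β) * height x ∧
      logDiscr x + ε * height x < proximity p g q x - 2 * height x} := by
      rintro x ⟨hx1, hx2, hx3, hx4⟩
      rcases lt_or_ge ((2 + β) * height x) (proximity p g q x) with h | h
      · exact Or.inl ⟨⟨hx1, hx2, hx3, hx4⟩, h⟩
      · exact Or.inr ⟨hx1, hx2, hx3, h, hx4⟩
    refine ⟨(a1.union b1).subset hsub, ?_⟩
    have h3 := (Set.ncard_le_ncard hsub (a1.union b1)).trans (Set.ncard_union_le _ _)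
    have h4 : ((V B).ncard : ℝ) ≤ ((V B ∩ {x | (2 + β) * height x < proximity p g q x}).ncard : ℝ) +
        ({x : AlgebraicClosure k | finrank k (IntermediateField.adjoin k {x}) = n ∧
      relHeight x ≤ B ∧ aeval x g ≠ 0 ∧ proximity p g q x ≤ (2 + β) * height x ∧
      logDiscr x + ε * height x < proximity p g q x - 2 * height x}.ncard : ℝ) := by
      exact_mod_cast h3
    have h5 : B ^ (β * ((n : ℝ) + 2) / 4) ≤ B ^ (M * ((n : ℝ) + 2) / 4 + η) :=
      Real.rpow_le_rpow_of_exponent_le hB hβ'
    have h6 : 0 ≤ B ^ (β * ((n : ℝ) + 2) / 4) := Real.rpow_nonneg (by linarith) _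
    calc ((V B).ncard : ℝ) ≤ _ := h4
      _ ≤ C₁ * B ^ (M * ((n : ℝ) + 2) / 4 + η) + C₂ * B ^ (β * ((n : ℝ) + 2) / 4) :=
        add_le_add a2 b2
      _ ≤ C₁ * B ^ (M * ((n : ℝ) + 2) / 4 + η) + |C₂| * B ^ (M * ((n : ℝ) + 2) / 4 + η) := by
        refine add_le_add le_rfl ?_
        calc C₂ * B ^ (β * ((n : ℝ) + 2) / 4) ≤ |C₂| * B ^ (β * ((n : ℝ) + 2) / 4) :=
              mul_le_mul_of_nonneg_right (le_abs_self _) h6
          _ ≤ _ := mul_le_mul_of_nonneg_left h5 (abs_nonneg _)
      _ = _ := by ring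
  have hn2 : 0 < ((n : ℝ) + 2) / 4 := by positivity
  by_cases hcase : (q : ℝ) - 2 ≤ M
  · -- all points are covered by the first count
    set β : ℝ := M + η / (((n : ℝ) + 2) / 4) with hβ
    have hβ0 : 0 < η / (((n : ℝ) + 2) / 4) := div_pos hη hn2
    refine key β (by positivity) ?_ ?_
    · have h1 : β * ((n : ℝ) + 2) / 4 = M * ((n : ℝ) + 2) / 4 + η := by
        rw [hβ]
        field_simp
      exact h1.le
    · have hqd : g.natDegree ≤ q := by omega
      obtain ⟨C, hC0, hC⟩ := prox_first k p hp g q hqd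
      have hfin := viol_small k p hp g q hqd n hn ε hε (C / (η / (((n : ℝ) + 2) / 4)))
      refine ⟨({x : AlgebraicClosure k | finrank k (IntermediateField.adjoin k {x}) = n ∧
        aeval x g ≠ 0 ∧ logDiscr x + ε * height x < proximity p g q x - 2 * height x ∧
        height x ≤ C / (η / (((n : ℝ) + 2) / 4))}.ncard : ℝ), ?_⟩
      intro B hB
      have hsub : V B ∩ {x | (2 + β) * height x < proximity p g q x} ⊆
          {x : AlgebraicClosure k | finrank k (IntermediateField.adjoin k {x}) = n ∧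
        aeval x g ≠ 0 ∧ logDiscr x + ε * height x < proximity p g q x - 2 * height x ∧
        height x ≤ C / (η / (((n : ℝ) + 2) / 4))} := by
        rintro x ⟨⟨hx1, hx2, hx3, hx4⟩, hx5⟩
        refine ⟨hx1, hx3, hx4, ?_⟩
        have hh := UpperAux.height_nonneg x
        have h2 : proximity p g q x ≤ q * height x + C := by
          apply hC
          intro h
          apply hx3
          have h3 : ((aeval (AdjoinSimple.gen k x) g : IntermediateField.adjoin k {x}) : Ω) =
              0 := by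
            rw [h]
            rfl
          rw [← IntermediateField.aeval_coe, AdjoinSimple.coe_gen] at h3
          exact h3
        have h3 : (2 + β) * height x < proximity p g q x := hx5
        rw [le_div_iff₀ hβ0]
        have h4 : (q : ℝ) * height x ≤ (2 + M) * height x :=
          mul_le_mul_of_nonneg_right (by linarith) hh
        have h5 : (2 + β) * height x = (2 + M) * height x +
            height x * (η / (((n : ℝ) + 2) / 4)) := by
          rw [hβ]
          ring
        linarith
      refine ⟨hfin.subset hsub, ?_⟩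
      have h1 : (1 : ℝ) ≤ B ^ (M * ((n : ℝ) + 2) / 4 + η) :=
        Real.one_le_rpow hB (by positivity)
      have h2 := Set.ncard_le_ncard hsub hfin
      calc ((V B ∩ {x | (2 + β) * height x < proximity p g q x}).ncard : ℝ) ≤ _ :=
            Nat.cast_le.2 h2
        _ ≤ _ := le_mul_of_one_le_right (Nat.cast_nonneg _) h1
  · -- the points near the divisor
    push Not at hcase
    have hb : 0 < 4 * ((n : ℝ) - 1) / (n + 6) := by
      apply div_pos <;> linarith
    have hMb : M = 4 * ((n : ℝ) - 1) / (n + 6) := by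
      have h1 : M < (q : ℝ) - 2 := hcase
      have h2 : min ((q : ℝ) - 2) (4 * ((n : ℝ) - 1) / (n + 6)) ≤ M := le_max_right _ _
      have h3 : 4 * ((n : ℝ) - 1) / (n + 6) < (q : ℝ) - 2 := by
        by_contra h
        push Not at h
        rw [min_eq_left h] at h2
        linarith
      rw [hM, min_eq_right h3.le, max_eq_right hb.le]
    set η' : ℝ := min ((q : ℝ) - 2 - M) (η / (((n : ℝ) + 2) / 4)) with hη'
    have hη0 : 0 < η' := lt_min (by linarith) (div_pos hη hn2)
    refine key (M + η') (by positivity) ?_ ?_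
    · have h1 : η' * (((n : ℝ) + 2) / 4) ≤ η := by
        rw [← le_div_iff₀ hn2]
        exact min_le_right _ _
      have h2 : (M + η') * ((n : ℝ) + 2) / 4 = M * ((n : ℝ) + 2) / 4 +
          η' * (((n : ℝ) + 2) / 4) := by ring
      rw [h2]
      linarith
    · obtain ⟨C, hC⟩ := hnear (2 + (M + η')) η (by
        have := min_le_left ((q : ℝ) - 2 - M) (η / (((n : ℝ) + 2) / 4))
        linarith) hη
      refine ⟨|C|, ?_⟩
      intro B hB
      obtain ⟨h1, h2⟩ := hC B hB
      have hsub : V B ∩ {x | (2 + (M + η')) * height x < proximity p g q x} ⊆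
          {x : AlgebraicClosure k | finrank k (IntermediateField.adjoin k {x}) = n ∧
        relHeight x ≤ B ∧ aeval x g ≠ 0 ∧
        (2 + (M + η')) * height x ≤ proximity p g q x} := by
        rintro x ⟨⟨hx1, hx2, hx3, hx4⟩, hx5⟩
        exact ⟨hx1, hx2, hx3, le_of_lt hx5⟩
      refine ⟨h1.subset hsub, ?_⟩
      have h3 := Set.ncard_le_ncard hsub h1
      have h4 : (n : ℝ) + 1 - (2 + (M + η')) + η ≤ M * ((n : ℝ) + 2) / 4 + η := by
        have h5 : M * ((n : ℝ) + 2) / 4 = n - 1 - M := by
          rw [hMb]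
          have : ((n : ℝ) + 6) ≠ 0 := by positivity
          field_simp
          ring
        rw [h5]
        linarith
      calc ((V B ∩ {x | (2 + (M + η')) * height x < proximity p g q x}).ncard : ℝ) ≤ _ :=
            Nat.cast_le.2 h3
        _ ≤ C * B ^ ((n : ℝ) + 1 - (2 + (M + η')) + η) := h2
        _ ≤ |C| * B ^ ((n : ℝ) + 1 - (2 + (M + η')) + η) :=
          mul_le_mul_of_nonneg_right (le_abs_self _) (Real.rpow_nonneg (by linarith) _)
        _ ≤ _ := mul_le_mul_of_nonneg_left (Real.rpow_le_rpow_of_exponent_le hB h4)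
          (abs_nonneg _)

end Pool.Agent.AA
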